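import Pool.Agent.Helper36_RF.Cl

/-!
# Ricci tensor of diagonal metrics with exponential entries (helper58, MP_62da59_gt)
-/

noncomputable section

open scoped ContDiff Topology
open Set Filter

namespace Pool.Agent.RLim.H58

open Pool.Agent.SecondKind

variable {n : ℕ}

theorem pd_congr' (k : Fin n) {f g : (Fin n → ℝ) → ℝ} {y : Fin n → ℝ} (h : f =ᶠ[𝓝 y] g) :
    pd k f y = pd k g y := by
  unfold pd
  rw [h.fderiv_eq]

theorem pd_const (k : Fin n) (c : ℝ) (y : Fin n → ℝ) : pd k (fun _ => c) y = 0 := by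
  unfold pd
  simp

theorem pd_add {k : Fin n} {f g : (Fin n → ℝ) → ℝ} {y : Fin n → ℝ} (hf : DifferentiableAt ℝ f y)
    (hg : DifferentiableAt ℝ g y) : pd k (fun z => f z + g z) y = pd k f y + pd k g y := by
  unfold pd
  rw [fderiv_fun_add hf hg]
  rfl

theorem pd_sub {k : Fin n} {f g : (Fin n → ℝ) → ℝ} {y : Fin n → ℝ} (hf : DifferentiableAt ℝ f y)
    (hg : DifferentiableAt ℝ g y) : pd k (fun z => f z - g z) y = pd k f y - pd k g y := by
  unfold pd
  rw [fderiv_fun_sub hf hg]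
  rfl

theorem pd_mul {k : Fin n} {f g : (Fin n → ℝ) → ℝ} {y : Fin n → ℝ} (hf : DifferentiableAt ℝ f y)
    (hg : DifferentiableAt ℝ g y) :
    pd k (fun z => f z * g z) y = f y * pd k g y + pd k f y * g y := by
  unfold pd
  rw [fderiv_fun_mul hf hg]
  simp [mul_comm]

theorem pd_exp {k : Fin n} {f : (Fin n → ℝ) → ℝ} {y : Fin n → ℝ} (hf : DifferentiableAt ℝ f y) :
    pd k (fun z => Real.exp (f z)) y = Real.exp (f y) * pd k f y := by
  unfold pd
  rw [fderiv_exp hf]
  simp

theorem pd_const_mul {k : Fin n} (c : ℝ) {f : (Fin n → ℝ) → ℝ} {y : Fin n → ℝ}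
    (hf : DifferentiableAt ℝ f y) : pd k (fun z => c * f z) y = c * pd k f y := by
  unfold pd
  rw [fderiv_const_mul hf]
  rfl

/-- the diagonal metric with entries `exp (2 w i)` -/
def dg (w : Fin n → (Fin n → ℝ) → ℝ) : Coord n :=
  fun y i j => if i = j then Real.exp (2 * w i y) else 0

theorem inv_dg (w : Fin n → (Fin n → ℝ) → ℝ) (k l : Fin n) (y : Fin n → ℝ) :
    inv (dg w) k l y = if k = l then Real.exp (-(2 * w k y)) else 0 := by
  unfold inv
  have h1 : (Matrix.of (dg w y)) = Matrix.diagonal fun i => Real.exp (2 * w i y) := by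
    ext i j
    rw [Matrix.of_apply, Matrix.diagonal_apply]
    rfl
  have h2 : (Matrix.diagonal fun i => Real.exp (2 * w i y))⁻¹ =
      Matrix.diagonal fun i => Real.exp (-(2 * w i y)) := by
    apply Matrix.inv_eq_left_inv
    rw [Matrix.diagonal_mul_diagonal]
    simp [← Real.exp_add]
  rw [h1, h2, Matrix.diagonal_apply]

/-- Christoffel symbols of a diagonal metric -/
theorem christoffel_dg (w : Fin n → (Fin n → ℝ) → ℝ) {y : Fin n → ℝ}
    (hw : ∀ i, DifferentiableAt ℝ (w i) y) (k i j : Fin n) :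
    christoffel (dg w) k i j y = (if k = j then pd i (w k) y else 0)
      + (if k = i then pd j (w k) y else 0)
      - (if i = j then Real.exp (2 * (w i y - w k y)) * pd k (w i) y else 0) := by
  have hpd : ∀ a b c : Fin n, pd a (fun z => dg w z b c) y =
      if b = c then 2 * Real.exp (2 * w b y) * pd a (w b) y else 0 := by
    intro a b c
    by_cases hbc : b = c
    · subst hbc
      have : (fun z => dg w z b b) = fun z => Real.exp (2 * w b z) := by
        funext z; simp [dg]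
      rw [this, pd_exp (by fun_prop (disch := exact hw b)), pd_const_mul _ (hw b)]
      simp only [if_true]
      ring
    · have : (fun z => dg w z b c) = fun _ => 0 := by
        funext z; simp [dg, hbc]
      rw [this, pd_const]
      simp [hbc]
  unfold christoffel
  simp only [inv_dg, hpd]
  rw [Finset.sum_eq_single k]
  · simp only [if_true]
    have e1 : Real.exp (-(2 * w k y)) * Real.exp (2 * w k y) = 1 := by
      rw [← Real.exp_add]; simp
    have e2 : Real.exp (2 * (w i y - w k y)) = Real.exp (-(2 * w k y)) * Real.exp (2 * w i y) := by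
      rw [← Real.exp_add]; ring_nf
    rw [e2]
    by_cases h1 : k = j
    · subst h1
      by_cases h2 : k = i
      · subst h2
        simp only [if_true]
        linear_combination (2 * pd k (w k) y) * e1
      · have h2' : ¬ i = k := fun h => h2 h.symm
        simp only [h2, h2', if_true, if_false]
        linear_combination (pd i (w k) y) * e1
    · have h1' : ¬ j = k := fun h => h1 h.symm
      by_cases h2 : k = i
      · subst h2
        simp only [h1, h1', if_true, if_false]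
        linear_combination (pd j (w k) y) * e1
      · have h2' : ¬ i = k := fun h => h2 h.symm
        by_cases h3 : i = j
        · subst h3
          simp only [h1, h2', if_true, if_false]
          ring
        · simp only [h1, h1', h2, h2', h3, if_false]
          ring
  · intro l _ hl
    have : ¬ k = l := fun h => hl h.symm
    simp [this]
  · intro h; exact absurd (Finset.mem_univ k) h

/-- derivative of the Christoffel symbols of a diagonal metric -/
theorem pd_christoffel_dg (w : Fin n → (Fin n → ℝ) → ℝ) {U : Set (Fin n → ℝ)} (hU : IsOpen U)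
    (hw : ∀ i, ContDiffOn ℝ ∞ (w i) U) {y : Fin n → ℝ} (hy : y ∈ U) (l k i j : Fin n) :
    pd l (christoffel (dg w) k i j) y = (if k = j then pd l (pd i (w k)) y else 0)
      + (if k = i then pd l (pd j (w k)) y else 0)
      - (if i = j then Real.exp (2 * (w i y - w k y)) * (2 * (pd l (w i) y - pd l (w k) y)
          * pd k (w i) y + pd l (pd k (w i)) y) else 0) := by
  have hd : ∀ i, ∀ z ∈ U, DifferentiableAt ℝ (w i) z := fun i z hz =>
    ((hw i).contDiffAt (hU.mem_nhds hz)).differentiableAt (by simp)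
  have hd2 : ∀ a b, DifferentiableAt ℝ (pd a (w b)) y := by
    intro a b
    have h1 : ContDiffOn ℝ ∞ (fderiv ℝ (w b)) U := (hw b).fderiv_of_isOpen hU (by simp)
    have h2 : DifferentiableAt ℝ (fderiv ℝ (w b)) y :=
      (h1.contDiffAt (hU.mem_nhds hy)).differentiableAt (by simp)
    exact h2.clm_apply (differentiableAt_const _)
  have hev : christoffel (dg w) k i j =ᶠ[𝓝 y] fun z => (if k = j then pd i (w k) z else 0)
      + (if k = i then pd j (w k) z else 0)
      - (if i = j then Real.exp (2 * (w i z - w k z)) * pd k (w i) z else 0) := by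
    filter_upwards [hU.mem_nhds hy] with z hz
    exact christoffel_dg w (fun i => hd i z hz) k i j
  rw [pd_congr' l hev]
  have hA : DifferentiableAt ℝ (fun z => if k = j then pd i (w k) z else 0) y := by
    split_ifs
    · exact hd2 _ _
    · exact differentiableAt_const _
  have hB : DifferentiableAt ℝ (fun z => if k = i then pd j (w k) z else 0) y := by
    split_ifs
    · exact hd2 _ _
    · exact differentiableAt_const _
  have hE : DifferentiableAt ℝ (fun z => 2 * (w i z - w k z)) y :=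
    ((hd i y hy).sub (hd k y hy)).const_mul 2
  have hC' : DifferentiableAt ℝ (fun z => Real.exp (2 * (w i z - w k z)) * pd k (w i) z) y :=
    hE.exp.mul (hd2 _ _)
  have hC : DifferentiableAt ℝ (fun z => if i = j then
      Real.exp (2 * (w i z - w k z)) * pd k (w i) z else 0) y := by
    split_ifs
    · exact hC'
    · exact differentiableAt_const _
  rw [pd_sub (f := fun z => (if k = j then pd i (w k) z else 0)
    + (if k = i then pd j (w k) z else 0)) (hA.add hB) hC, pd_add hA hB]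
  congr 1
  · congr 1
    · by_cases h : k = j
      · simp only [h, if_true]
      · simp only [h, if_false]; exact pd_const _ _ _
    · by_cases h : k = i
      · simp only [h, if_true]
      · simp only [h, if_false]; exact pd_const _ _ _
  · by_cases h : i = j
    · simp only [h, if_true]
      subst h
      have hs : DifferentiableAt ℝ (fun z => w i z - w k z) y := (hd i y hy).sub (hd k y hy)
      rw [pd_mul hE.exp (hd2 _ _), pd_exp hE, pd_const_mul 2 hs,
        pd_sub (hd i y hy) (hd k y hy)]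
      ring
    · simp only [h, if_false]; exact pd_const _ _ _

/-- The hypotheses: four smooth functions on an open set, which depend on the first two
coordinates only. -/
structure Two (w : Fin 4 → (Fin 4 → ℝ) → ℝ) (U : Set (Fin 4 → ℝ)) : Prop where
  isOpen : IsOpen U
  smooth : ∀ i, ContDiffOn ℝ ∞ (w i) U
  zero2 : ∀ i, ∀ z ∈ U, pd 2 (w i) z = 0
  zero3 : ∀ i, ∀ z ∈ U, pd 3 (w i) z = 0

theorem Two.pd2_zero {w : Fin 4 → (Fin 4 → ℝ) → ℝ} {U : Set (Fin 4 → ℝ)} (h : Two w U)
    {y : Fin 4 → ℝ} (hy : y ∈ U) (l i : Fin 4) :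
    pd l (pd 2 (w i)) y = 0 ∧ pd l (pd 3 (w i)) y = 0 := by
  constructor
  · have : pd 2 (w i) =ᶠ[𝓝 y] fun _ => 0 := by
      filter_upwards [h.isOpen.mem_nhds hy] with z hz using h.zero2 i z hz
    rw [pd_congr' l this, pd_const]
  · have : pd 3 (w i) =ᶠ[𝓝 y] fun _ => 0 := by
      filter_upwards [h.isOpen.mem_nhds hy] with z hz using h.zero3 i z hz
    rw [pd_congr' l this, pd_const]

theorem pd_symm {f : (Fin n → ℝ) → ℝ} {U : Set (Fin n → ℝ)} (hU : IsOpen U)
    (hf : ContDiffOn ℝ ∞ f U) {y : Fin n → ℝ} (hy : y ∈ U) (l i : Fin n) :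
    pd l (pd i f) y = pd i (pd l f) y := by
  have h1 : ContDiffAt ℝ ∞ f y := hf.contDiffAt (hU.mem_nhds hy)
  have h2 : IsSymmSndFDerivAt ℝ f y := h1.isSymmSndFDerivAt (by simp; exact WithTop.coe_le_coe.2 le_top)
  have h3 : DifferentiableAt ℝ (fderiv ℝ f) y :=
    ((h1.fderiv_right (m := ∞) (by simp)).differentiableAt (by simp))
  have h4 : ∀ a b : Fin n, pd a (pd b f) y =
      fderiv ℝ (fderiv ℝ f) y (Pi.single a 1) (Pi.single b 1) := by
    intro a b
    have : HasFDerivAt (fun z => fderiv ℝ f z (Pi.single b (1:ℝ)))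
        ((fderiv ℝ (fderiv ℝ f) y).flip (Pi.single b 1)) y := by
      have h5 := h3.hasFDerivAt.clm_apply (hasFDerivAt_const (Pi.single b (1:ℝ) : Fin n → ℝ) y)
      refine h5.congr_fderiv ?_
      ext u
      simp
    change fderiv ℝ (fun z => fderiv ℝ f z (Pi.single b (1:ℝ))) y (Pi.single a 1) = _
    rw [this.fderiv]
    rfl
  rw [h4, h4]
  exact h2.eq _ _

section formulas

set_option linter.unusedSimpArgs false

variable {w : Fin 4 → (Fin 4 → ℝ) → ℝ} {U : Set (Fin 4 → ℝ)} {y : Fin 4 → ℝ}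

theorem ricci00 (h : Two w U) (hy : y ∈ U) : ricci (dg w) 0 0 y =
    -(pd 0 (pd 0 (w 1)) y + pd 0 (w 1) y ^ 2 - pd 0 (w 1) y * pd 0 (w 0) y)
    -(pd 0 (pd 0 (w 2)) y + pd 0 (w 2) y ^ 2 - pd 0 (w 2) y * pd 0 (w 0) y)
    -(pd 0 (pd 0 (w 3)) y + pd 0 (w 3) y ^ 2 - pd 0 (w 3) y * pd 0 (w 0) y)
    - Real.exp (2 * (w 0 y - w 1 y)) * (pd 1 (pd 1 (w 0)) y + pd 1 (w 0) y ^ 2
      - pd 1 (w 0) y * pd 1 (w 1) y + pd 1 (w 0) y * (pd 1 (w 2) y + pd 1 (w 3) y)) := by
  have hd : ∀ i, DifferentiableAt ℝ (w i) y := fun i =>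
    ((h.smooth i).contDiffAt (h.isOpen.mem_nhds hy)).differentiableAt (by simp)
  unfold ricci curv
  simp only [Fin.sum_univ_four, christoffel_dg w hd, pd_christoffel_dg w h.isOpen h.smooth hy,
    Fin.reduceEq, if_true, if_false, h.zero2 _ y hy, h.zero3 _ y hy, (h.pd2_zero hy _ _).1,
    (h.pd2_zero hy _ _).2]
  have e1 : Real.exp (2 * (w 0 y - w 1 y)) * Real.exp (2 * (w 1 y - w 0 y)) = 1 := by
    rw [← Real.exp_add]; ring_nf; simp
  have e0 : ∀ i, Real.exp (2 * (w i y - w i y)) = 1 := by intro i; simp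
  simp only [e0]
  ring

theorem ricci11 (h : Two w U) (hy : y ∈ U) : ricci (dg w) 1 1 y =
    -(pd 1 (pd 1 (w 0)) y + pd 1 (w 0) y ^ 2 - pd 1 (w 0) y * pd 1 (w 1) y)
    -(pd 1 (pd 1 (w 2)) y + pd 1 (w 2) y ^ 2 - pd 1 (w 2) y * pd 1 (w 1) y)
    -(pd 1 (pd 1 (w 3)) y + pd 1 (w 3) y ^ 2 - pd 1 (w 3) y * pd 1 (w 1) y)
    - Real.exp (2 * (w 1 y - w 0 y)) * (pd 0 (pd 0 (w 1)) y + pd 0 (w 1) y ^ 2
      - pd 0 (w 1) y * pd 0 (w 0) y + pd 0 (w 1) y * (pd 0 (w 2) y + pd 0 (w 3) y)) := by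
  have hd : ∀ i, DifferentiableAt ℝ (w i) y := fun i =>
    ((h.smooth i).contDiffAt (h.isOpen.mem_nhds hy)).differentiableAt (by simp)
  have e0 : ∀ i, Real.exp (2 * (w i y - w i y)) = 1 := by intro i; simp
  unfold ricci curv
  simp only [Fin.sum_univ_four, christoffel_dg w hd, pd_christoffel_dg w h.isOpen h.smooth hy,
    Fin.reduceEq, if_true, if_false, h.zero2 _ y hy, h.zero3 _ y hy, (h.pd2_zero hy _ _).1,
    (h.pd2_zero hy _ _).2, pd_symm h.isOpen (h.smooth _) hy 2, pd_symm h.isOpen (h.smooth _) hy 3,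
    e0]
  ring

theorem ricci01 (h : Two w U) (hy : y ∈ U) : ricci (dg w) 0 1 y =
    -(pd 0 (pd 1 (w 2)) y + pd 0 (w 2) y * pd 1 (w 2) y - pd 0 (w 2) y * pd 1 (w 0) y
      - pd 1 (w 2) y * pd 0 (w 1) y)
    -(pd 0 (pd 1 (w 3)) y + pd 0 (w 3) y * pd 1 (w 3) y - pd 0 (w 3) y * pd 1 (w 0) y
      - pd 1 (w 3) y * pd 0 (w 1) y) := by
  have hd : ∀ i, DifferentiableAt ℝ (w i) y := fun i =>
    ((h.smooth i).contDiffAt (h.isOpen.mem_nhds hy)).differentiableAt (by simp)
  have e0 : ∀ i, Real.exp (2 * (w i y - w i y)) = 1 := by intro i; simp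
  unfold ricci curv
  simp only [Fin.sum_univ_four, christoffel_dg w hd, pd_christoffel_dg w h.isOpen h.smooth hy,
    Fin.reduceEq, if_true, if_false, h.zero2 _ y hy, h.zero3 _ y hy, (h.pd2_zero hy _ _).1,
    (h.pd2_zero hy _ _).2, pd_symm h.isOpen (h.smooth _) hy 2, pd_symm h.isOpen (h.smooth _) hy 3,
    e0]
  have e1 : Real.exp (2 * (w 0 y - w 1 y)) * Real.exp (2 * (w 1 y - w 0 y)) = 1 := by
    rw [← Real.exp_add]; ring_nf; simp
  rw [pd_symm h.isOpen (h.smooth 1) hy 1 0]
  linear_combination (-(pd 0 (w 1) y * pd 1 (w 0) y)) * e1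

theorem ricci22 (h : Two w U) (hy : y ∈ U) : ricci (dg w) 2 2 y =
    - Real.exp (2 * (w 2 y - w 0 y)) * (pd 0 (pd 0 (w 2)) y + pd 0 (w 2) y ^ 2
      - pd 0 (w 2) y * pd 0 (w 0) y + pd 0 (w 2) y * (pd 0 (w 1) y + pd 0 (w 3) y))
    - Real.exp (2 * (w 2 y - w 1 y)) * (pd 1 (pd 1 (w 2)) y + pd 1 (w 2) y ^ 2
      - pd 1 (w 2) y * pd 1 (w 1) y + pd 1 (w 2) y * (pd 1 (w 0) y + pd 1 (w 3) y)) := by
  have hd : ∀ i, DifferentiableAt ℝ (w i) y := fun i =>
    ((h.smooth i).contDiffAt (h.isOpen.mem_nhds hy)).differentiableAt (by simp)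
  have e0 : ∀ i, Real.exp (2 * (w i y - w i y)) = 1 := by intro i; simp
  unfold ricci curv
  simp only [Fin.sum_univ_four, christoffel_dg w hd, pd_christoffel_dg w h.isOpen h.smooth hy,
    Fin.reduceEq, if_true, if_false, h.zero2 _ y hy, h.zero3 _ y hy, (h.pd2_zero hy _ _).1,
    (h.pd2_zero hy _ _).2, pd_symm h.isOpen (h.smooth _) hy 2, pd_symm h.isOpen (h.smooth _) hy 3,
    e0]
  ring

theorem ricci33 (h : Two w U) (hy : y ∈ U) : ricci (dg w) 3 3 y =
    - Real.exp (2 * (w 3 y - w 0 y)) * (pd 0 (pd 0 (w 3)) y + pd 0 (w 3) y ^ 2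
      - pd 0 (w 3) y * pd 0 (w 0) y + pd 0 (w 3) y * (pd 0 (w 1) y + pd 0 (w 2) y))
    - Real.exp (2 * (w 3 y - w 1 y)) * (pd 1 (pd 1 (w 3)) y + pd 1 (w 3) y ^ 2
      - pd 1 (w 3) y * pd 1 (w 1) y + pd 1 (w 3) y * (pd 1 (w 0) y + pd 1 (w 2) y)) := by
  have hd : ∀ i, DifferentiableAt ℝ (w i) y := fun i =>
    ((h.smooth i).contDiffAt (h.isOpen.mem_nhds hy)).differentiableAt (by simp)
  have e0 : ∀ i, Real.exp (2 * (w i y - w i y)) = 1 := by intro i; simp
  unfold ricci curv
  simp only [Fin.sum_univ_four, christoffel_dg w hd, pd_christoffel_dg w h.isOpen h.smooth hy,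
    Fin.reduceEq, if_true, if_false, h.zero2 _ y hy, h.zero3 _ y hy, (h.pd2_zero hy _ _).1,
    (h.pd2_zero hy _ _).2, pd_symm h.isOpen (h.smooth _) hy 2, pd_symm h.isOpen (h.smooth _) hy 3,
    e0]
  ring

theorem ricci02 (h : Two w U) (hy : y ∈ U) : ricci (dg w) 0 2 y = 0 := by
  have hd : ∀ i, DifferentiableAt ℝ (w i) y := fun i =>
    ((h.smooth i).contDiffAt (h.isOpen.mem_nhds hy)).differentiableAt (by simp)
  have e0 : ∀ i, Real.exp (2 * (w i y - w i y)) = 1 := by intro i; simp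
  unfold ricci curv
  simp only [Fin.sum_univ_four, christoffel_dg w hd, pd_christoffel_dg w h.isOpen h.smooth hy,
    Fin.reduceEq, if_true, if_false, h.zero2 _ y hy, h.zero3 _ y hy, (h.pd2_zero hy _ _).1,
    (h.pd2_zero hy _ _).2, pd_symm h.isOpen (h.smooth _) hy 2, pd_symm h.isOpen (h.smooth _) hy 3,
    e0]
  ring

theorem ricci03 (h : Two w U) (hy : y ∈ U) : ricci (dg w) 0 3 y = 0 := by
  have hd : ∀ i, DifferentiableAt ℝ (w i) y := fun i =>
    ((h.smooth i).contDiffAt (h.isOpen.mem_nhds hy)).differentiableAt (by simp)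
  have e0 : ∀ i, Real.exp (2 * (w i y - w i y)) = 1 := by intro i; simp
  unfold ricci curv
  simp only [Fin.sum_univ_four, christoffel_dg w hd, pd_christoffel_dg w h.isOpen h.smooth hy,
    Fin.reduceEq, if_true, if_false, h.zero2 _ y hy, h.zero3 _ y hy, (h.pd2_zero hy _ _).1,
    (h.pd2_zero hy _ _).2, pd_symm h.isOpen (h.smooth _) hy 2, pd_symm h.isOpen (h.smooth _) hy 3,
    e0]
  ring

theorem ricci12 (h : Two w U) (hy : y ∈ U) : ricci (dg w) 1 2 y = 0 := by
  have hd : ∀ i, DifferentiableAt ℝ (w i) y := fun i =>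
    ((h.smooth i).contDiffAt (h.isOpen.mem_nhds hy)).differentiableAt (by simp)
  have e0 : ∀ i, Real.exp (2 * (w i y - w i y)) = 1 := by intro i; simp
  unfold ricci curv
  simp only [Fin.sum_univ_four, christoffel_dg w hd, pd_christoffel_dg w h.isOpen h.smooth hy,
    Fin.reduceEq, if_true, if_false, h.zero2 _ y hy, h.zero3 _ y hy, (h.pd2_zero hy _ _).1,
    (h.pd2_zero hy _ _).2, pd_symm h.isOpen (h.smooth _) hy 2, pd_symm h.isOpen (h.smooth _) hy 3,
    e0]
  ring

theorem ricci13 (h : Two w U) (hy : y ∈ U) : ricci (dg w) 1 3 y = 0 := by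
  have hd : ∀ i, DifferentiableAt ℝ (w i) y := fun i =>
    ((h.smooth i).contDiffAt (h.isOpen.mem_nhds hy)).differentiableAt (by simp)
  have e0 : ∀ i, Real.exp (2 * (w i y - w i y)) = 1 := by intro i; simp
  unfold ricci curv
  simp only [Fin.sum_univ_four, christoffel_dg w hd, pd_christoffel_dg w h.isOpen h.smooth hy,
    Fin.reduceEq, if_true, if_false, h.zero2 _ y hy, h.zero3 _ y hy, (h.pd2_zero hy _ _).1,
    (h.pd2_zero hy _ _).2, pd_symm h.isOpen (h.smooth _) hy 2, pd_symm h.isOpen (h.smooth _) hy 3,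
    e0]
  ring

theorem ricci23 (h : Two w U) (hy : y ∈ U) : ricci (dg w) 2 3 y = 0 := by
  have hd : ∀ i, DifferentiableAt ℝ (w i) y := fun i =>
    ((h.smooth i).contDiffAt (h.isOpen.mem_nhds hy)).differentiableAt (by simp)
  have e0 : ∀ i, Real.exp (2 * (w i y - w i y)) = 1 := by intro i; simp
  unfold ricci curv
  simp only [Fin.sum_univ_four, christoffel_dg w hd, pd_christoffel_dg w h.isOpen h.smooth hy,
    Fin.reduceEq, if_true, if_false, h.zero2 _ y hy, h.zero3 _ y hy, (h.pd2_zero hy _ _).1,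
    (h.pd2_zero hy _ _).2, pd_symm h.isOpen (h.smooth _) hy 2, pd_symm h.isOpen (h.smooth _) hy 3,
    e0]
  ring

theorem ricci20 (h : Two w U) (hy : y ∈ U) : ricci (dg w) 2 0 y = 0 := by
  have hd : ∀ i, DifferentiableAt ℝ (w i) y := fun i =>
    ((h.smooth i).contDiffAt (h.isOpen.mem_nhds hy)).differentiableAt (by simp)
  have e0 : ∀ i, Real.exp (2 * (w i y - w i y)) = 1 := by intro i; simp
  unfold ricci curv
  simp only [Fin.sum_univ_four, christoffel_dg w hd, pd_christoffel_dg w h.isOpen h.smooth hy,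
    Fin.reduceEq, if_true, if_false, h.zero2 _ y hy, h.zero3 _ y hy, (h.pd2_zero hy _ _).1,
    (h.pd2_zero hy _ _).2, pd_symm h.isOpen (h.smooth _) hy 2, pd_symm h.isOpen (h.smooth _) hy 3,
    e0]
  ring

theorem ricci30 (h : Two w U) (hy : y ∈ U) : ricci (dg w) 3 0 y = 0 := by
  have hd : ∀ i, DifferentiableAt ℝ (w i) y := fun i =>
    ((h.smooth i).contDiffAt (h.isOpen.mem_nhds hy)).differentiableAt (by simp)
  have e0 : ∀ i, Real.exp (2 * (w i y - w i y)) = 1 := by intro i; simp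
  unfold ricci curv
  simp only [Fin.sum_univ_four, christoffel_dg w hd, pd_christoffel_dg w h.isOpen h.smooth hy,
    Fin.reduceEq, if_true, if_false, h.zero2 _ y hy, h.zero3 _ y hy, (h.pd2_zero hy _ _).1,
    (h.pd2_zero hy _ _).2, pd_symm h.isOpen (h.smooth _) hy 2, pd_symm h.isOpen (h.smooth _) hy 3,
    e0]
  ring

theorem ricci21 (h : Two w U) (hy : y ∈ U) : ricci (dg w) 2 1 y = 0 := by
  have hd : ∀ i, DifferentiableAt ℝ (w i) y := fun i =>
    ((h.smooth i).contDiffAt (h.isOpen.mem_nhds hy)).differentiableAt (by simp)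
  have e0 : ∀ i, Real.exp (2 * (w i y - w i y)) = 1 := by intro i; simp
  unfold ricci curv
  simp only [Fin.sum_univ_four, christoffel_dg w hd, pd_christoffel_dg w h.isOpen h.smooth hy,
    Fin.reduceEq, if_true, if_false, h.zero2 _ y hy, h.zero3 _ y hy, (h.pd2_zero hy _ _).1,
    (h.pd2_zero hy _ _).2, pd_symm h.isOpen (h.smooth _) hy 2, pd_symm h.isOpen (h.smooth _) hy 3,
    e0]
  ring

theorem ricci31 (h : Two w U) (hy : y ∈ U) : ricci (dg w) 3 1 y = 0 := by
  have hd : ∀ i, DifferentiableAt ℝ (w i) y := fun i =>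
    ((h.smooth i).contDiffAt (h.isOpen.mem_nhds hy)).differentiableAt (by simp)
  have e0 : ∀ i, Real.exp (2 * (w i y - w i y)) = 1 := by intro i; simp
  unfold ricci curv
  simp only [Fin.sum_univ_four, christoffel_dg w hd, pd_christoffel_dg w h.isOpen h.smooth hy,
    Fin.reduceEq, if_true, if_false, h.zero2 _ y hy, h.zero3 _ y hy, (h.pd2_zero hy _ _).1,
    (h.pd2_zero hy _ _).2, pd_symm h.isOpen (h.smooth _) hy 2, pd_symm h.isOpen (h.smooth _) hy 3,
    e0]
  ring

theorem ricci32 (h : Two w U) (hy : y ∈ U) : ricci (dg w) 3 2 y = 0 := by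
  have hd : ∀ i, DifferentiableAt ℝ (w i) y := fun i =>
    ((h.smooth i).contDiffAt (h.isOpen.mem_nhds hy)).differentiableAt (by simp)
  have e0 : ∀ i, Real.exp (2 * (w i y - w i y)) = 1 := by intro i; simp
  unfold ricci curv
  simp only [Fin.sum_univ_four, christoffel_dg w hd, pd_christoffel_dg w h.isOpen h.smooth hy,
    Fin.reduceEq, if_true, if_false, h.zero2 _ y hy, h.zero3 _ y hy, (h.pd2_zero hy _ _).1,
    (h.pd2_zero hy _ _).2, pd_symm h.isOpen (h.smooth _) hy 2, pd_symm h.isOpen (h.smooth _) hy 3,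
    e0]
  ring

theorem ricci10 (h : Two w U) (hy : y ∈ U) : ricci (dg w) 1 0 y = ricci (dg w) 0 1 y := by
  have hd : ∀ i, DifferentiableAt ℝ (w i) y := fun i =>
    ((h.smooth i).contDiffAt (h.isOpen.mem_nhds hy)).differentiableAt (by simp)
  have e0 : ∀ i, Real.exp (2 * (w i y - w i y)) = 1 := by intro i; simp
  unfold ricci curv
  simp only [Fin.sum_univ_four, christoffel_dg w hd, pd_christoffel_dg w h.isOpen h.smooth hy,
    Fin.reduceEq, if_true, if_false, h.zero2 _ y hy, h.zero3 _ y hy, (h.pd2_zero hy _ _).1,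
    (h.pd2_zero hy _ _).2, pd_symm h.isOpen (h.smooth _) hy 2, pd_symm h.isOpen (h.smooth _) hy 3,
    e0]
  rw [pd_symm h.isOpen (h.smooth 0) hy 1 0, pd_symm h.isOpen (h.smooth 1) hy 1 0,
    pd_symm h.isOpen (h.smooth 2) hy 1 0, pd_symm h.isOpen (h.smooth 3) hy 1 0]
  ring

end formulas

end Pool.Agent.RLim.H58
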