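import Pool.Agent.Helper58_RL.NeckF
import Pool.Agent.Helper36_RLA.PolA
import Pool.Agent.Helper1_RLA.PolC

/-!
# The whole neck: NECK (helper58, MP_62da59_gt)
-/

noncomputable section

namespace Pool.Agent.RLim.H58

/-- **NECK** -/
theorem neckStmt (hprof : ProfStmt) (hNM : NeckMetricStmt) (hcont : ContStmt) : NeckStmt :=
  neck H36.polA H1.polC hprof hNM hcont

end Pool.Agent.RLim.H58
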