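import Pool.Agent.Helper58_RL.Jet

/-!
# The functions in the metric of the neck and their derivatives (helper58, MP_62da59_gt)
-/

noncomputable section

open scoped ContDiff Topology
open Set Filter

namespace Pool.Agent.RLim.H58

open Pool.Agent.SecondKind

/-- the domain of the coordinates `(log R, t, θ₂, θ₁)` -/
def UU : Set (Fin 4 → ℝ) := {y | 0 < y 1 ∧ y 1 < Real.pi / 2}

theorem UU_open : IsOpen UU :=
  (isOpen_lt continuous_const (continuous_apply 1)).inter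
    (isOpen_lt (continuous_apply 1) continuous_const)

theorem UU_sin {y : Fin 4 → ℝ} (hy : y ∈ UU) : 0 < Real.sin (y 1) :=
  Real.sin_pos_of_pos_of_lt_pi hy.1 (by have := Real.pi_pos; linarith [hy.2])

theorem UU_cos {y : Fin 4 → ℝ} (hy : y ∈ UU) : 0 < Real.cos (y 1) :=
  Real.cos_pos_of_mem_Ioo ⟨by have := Real.pi_pos; linarith [hy.1], hy.2⟩

/-- the functions of `log R` -/
structure Prf where
  f : ℝ → ℝ
  f1 : ℝ → ℝ
  bt : ℝ → ℝ
  P : ℝ → ℝ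
  P1 : ℝ → ℝ
  P2 : ℝ → ℝ
  hf : ∀ s, HasDerivAt f (f1 s) s
  hbt : ∀ s, HasDerivAt bt (-(P s * bt s)) s
  hP : ∀ s, HasDerivAt P (P1 s) s
  hP1 : ∀ s, HasDerivAt P1 (P2 s) s
  f0 : ∀ s, 0 < f s
  bt0 : ∀ s, 0 < bt s
  smf : ContDiff ℝ ∞ f
  smbt : ContDiff ℝ ∞ bt
  smP : ContDiff ℝ ∞ P

namespace Prf

variable (π : Prf) (δ : ℝ)

def dd (y : Fin 4 → ℝ) : ℝ := δ * Real.exp (-(y 0))
def qq (y : Fin 4 → ℝ) : ℝ := √(Real.sin (y 1) ^ 2 + dd δ y ^ 2)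
def ee (y : Fin 4 → ℝ) : ℝ := dd δ y / qq δ y

/-- the function `N` -/
def NN (y : Fin 4 → ℝ) : ℝ := 1 - π.f (y 0) * π.P (y 0) / 8 * (qq δ y - dd δ y)
/-- the function `Bh` -/
def BB (y : Fin 4 → ℝ) : ℝ :=
  1 - (1 - π.bt (y 0)) * (1 - ee δ y) - 16 * π.bt (y 0) * π.P (y 0) * (qq δ y - dd δ y)

variable {δ} (hδ : 0 < δ)

include hδ

theorem dd_pos (y : Fin 4 → ℝ) : 0 < dd δ y := by unfold dd; positivity

theorem qq_arg (y : Fin 4 → ℝ) : 0 < Real.sin (y 1) ^ 2 + dd δ y ^ 2 := by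
  have := dd_pos hδ y
  positivity

theorem qq_pos (y : Fin 4 → ℝ) : 0 < qq δ y := Real.sqrt_pos.2 (qq_arg hδ y)

theorem qq_sq (y : Fin 4 → ℝ) : qq δ y ^ 2 = Real.sin (y 1) ^ 2 + dd δ y ^ 2 :=
  Real.sq_sqrt (qq_arg hδ y).le

theorem ee_mul (y : Fin 4 → ℝ) : ee δ y * qq δ y = dd δ y := by
  unfold ee
  have := (qq_pos hδ y).ne'
  field_simp

theorem sin_sq' (y : Fin 4 → ℝ) : Real.sin (y 1) ^ 2 = qq δ y ^ 2 * (1 - ee δ y ^ 2) := by
  have h1 := qq_sq hδ y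
  have h2 := ee_mul hδ y
  rw [← h2] at h1
  linarith

omit hδ in
theorem D_dd : D2 UU (dd δ) (fun y => -dd δ y) (fun _ => 0) := by
  unfold dd
  refine ((D2.c0.neg).exp.cmul δ).congr ?_ ?_ <;>
  · intro y hy
    ring

theorem D_qq : D2 UU (qq δ) (fun y => -(ee δ y ^ 2 * qq δ y))
    (fun y => Real.sin (y 1) * Real.cos (y 1) / qq δ y) := by
  have h1 : D2 UU (fun y => Real.sin (y 1) * Real.sin (y 1) + dd δ y * dd δ y) _ _ :=
    (D2.c1.sin.mul D2.c1.sin).add (D_dd.mul D_dd)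
  have h2 := h1.sqrt (fun y _ => by have := qq_arg hδ y; nlinarith)
  have h3 : (fun y : Fin 4 → ℝ => √(Real.sin (y 1) * Real.sin (y 1) + dd δ y * dd δ y)) = qq δ := by
    funext y
    unfold qq
    ring_nf
  have h4 : ∀ y : Fin 4 → ℝ, √(Real.sin (y 1) * Real.sin (y 1) + dd δ y * dd δ y) = qq δ y :=
    fun y => congrFun h3 y
  rw [h3] at h2
  refine h2.congr ?_ ?_
  · intro y hy
    simp only [h4]
    have := (qq_pos hδ y).ne'
    unfold ee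
    field_simp
    ring
  · intro y hy
    simp only [h4]
    have := (qq_pos hδ y).ne'
    field_simp
    ring

theorem D_ee : D2 UU (ee δ) (fun y => -(ee δ y * (1 - ee δ y ^ 2)))
    (fun y => -(ee δ y * (Real.sin (y 1) * Real.cos (y 1)) / qq δ y ^ 2)) := by
  have h1 : D2 UU (fun y => dd δ y / qq δ y) _ _ := D_dd.div (D_qq hδ)
    (fun y _ => (qq_pos hδ y).ne')
  have h3 : (fun y : Fin 4 → ℝ => dd δ y / qq δ y) = ee δ := rfl
  rw [h3] at h1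
  refine h1.congr ?_ ?_
  · intro y hy
    have := (qq_pos hδ y).ne'
    unfold ee
    field_simp
    ring
  · intro y hy
    have := (qq_pos hδ y).ne'
    unfold ee
    field_simp
    ring

omit hδ in
theorem D_f : D2 UU (fun y => π.f (y 0)) (fun y => π.f1 (y 0)) (fun _ => 0) := by
  refine (D2.c0.comp (φ := π.f) (φ' := π.f1) (fun _ _ => π.hf _)).congr ?_ ?_ <;>
  · intro y hy
    ring

omit hδ in
theorem D_bt : D2 UU (fun y => π.bt (y 0)) (fun y => -(π.P (y 0) * π.bt (y 0))) (fun _ => 0) := by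
  refine (D2.c0.comp (φ := π.bt) (φ' := fun s => -(π.P s * π.bt s))
    (fun _ _ => π.hbt _)).congr ?_ ?_ <;>
  · intro y hy
    ring

omit hδ in
theorem D_P : D2 UU (fun y => π.P (y 0)) (fun y => π.P1 (y 0)) (fun _ => 0) := by
  refine (D2.c0.comp (φ := π.P) (φ' := π.P1) (fun _ _ => π.hP _)).congr ?_ ?_ <;>
  · intro y hy
    ring

omit hδ in
theorem D_P1 : D2 UU (fun y => π.P1 (y 0)) (fun y => π.P2 (y 0)) (fun _ => 0) := by
  refine (D2.c0.comp (φ := π.P1) (φ' := π.P2) (fun _ _ => π.hP1 _)).congr ?_ ?_ <;>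
  · intro y hy
    ring

/-- `n`, `n₁`, `m`, `m₁`, `m₂` -/
def n (s : ℝ) : ℝ := π.f s * π.P s / 8
def n1 (s : ℝ) : ℝ := (π.f1 s * π.P s + π.f s * π.P1 s) / 8
def m (s : ℝ) : ℝ := 16 * π.bt s * π.P s
def m1 (s : ℝ) : ℝ := 16 * π.bt s * (π.P1 s - π.P s ^ 2)
def m2 (s : ℝ) : ℝ := 16 * π.bt s * (π.P2 s - 3 * π.P s * π.P1 s + π.P s ^ 3)

omit hδ in
theorem D_n : D2 UU (fun y => π.n (y 0)) (fun y => π.n1 (y 0)) (fun _ => 0) := by
  refine (((π.D_f.mul π.D_P).cmul (1 / 8)).congr ?_ ?_).congrf ?_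
  · intro y hy
    unfold n1
    ring
  · intro y hy
    ring
  · intro y
    unfold n
    ring

omit hδ in
theorem D_m : D2 UU (fun y => π.m (y 0)) (fun y => π.m1 (y 0)) (fun _ => 0) := by
  refine (((π.D_bt.mul π.D_P).cmul 16).congr ?_ ?_).congrf ?_
  · intro y hy
    unfold m1
    ring
  · intro y hy
    ring
  · intro y
    unfold m
    ring

omit hδ in
theorem D_m1 : D2 UU (fun y => π.m1 (y 0)) (fun y => π.m2 (y 0)) (fun _ => 0) := by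
  refine (((π.D_bt.mul (π.D_P1.sub (π.D_P.mul π.D_P))).cmul 16).congr ?_ ?_).congrf ?_
  · intro y hy
    unfold m2
    ring
  · intro y hy
    ring
  · intro y
    unfold m1
    ring

/-- the derivatives of `N` -/
def N0 (δ : ℝ) (y : Fin 4 → ℝ) : ℝ :=
  -((qq δ y - dd δ y) * (π.n1 (y 0) + π.n (y 0) * ee δ y))
def N1 (δ : ℝ) (y : Fin 4 → ℝ) : ℝ :=
  -(π.n (y 0) * (Real.sin (y 1) * Real.cos (y 1)) / qq δ y)
def N11 (δ : ℝ) (y : Fin 4 → ℝ) : ℝ :=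
  π.n (y 0) / qq δ y * (Real.sin (y 1) ^ 2 - ee δ y ^ 2 * Real.cos (y 1) ^ 2)

theorem D_NN : D2 UU (π.NN δ) (π.N0 δ) (π.N1 δ) := by
  have h := (D2.const (U := UU) 1).sub (π.D_n.mul ((D_qq hδ).sub (D_dd (δ := δ))))
  refine (h.congr ?_ ?_).congrf ?_
  · intro y hy
    have := ee_mul hδ y
    unfold N0
    rw [← this]
    ring
  · intro y hy
    unfold N1
    ring
  · intro y
    unfold NN n
    ring

omit hδ in
theorem D_sc : D2 UU (fun y => Real.sin (y 1) * Real.cos (y 1)) (fun _ => 0)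
    (fun y => Real.cos (y 1) ^ 2 - Real.sin (y 1) ^ 2) := by
  refine (D2.c1.sin.mul D2.c1.cos).congr ?_ ?_ <;>
  · intro y hy
    ring

theorem D_N1 : ∃ g, D2 UU (π.N1 δ) g (π.N11 δ) := by
  have h := ((π.D_n.mul D_sc).div (D_qq hδ) (fun y _ => (qq_pos hδ y).ne')).neg
  refine ⟨_, (h.congr (fun y _ => rfl) ?_).congrf ?_⟩
  · intro y hy
    have hq := (qq_pos hδ y).ne'
    have h1 := sin_sq' hδ y
    unfold N11
    field_simp
    linear_combination (π.n (y 0) * Real.cos (y 1) ^ 2) * h1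
  · intro y
    unfold N1
    ring

/-- the derivatives of `Bh` -/
def L1 (δ : ℝ) (y : Fin 4 → ℝ) : ℝ := (1 - π.bt (y 0)) * ee δ y + π.m (y 0) * qq δ y
def B0 (δ : ℝ) (y : Fin 4 → ℝ) : ℝ :=
  -((1 - ee δ y) * (π.bt (y 0) * π.P (y 0) + (1 - π.bt (y 0)) * ee δ y * (1 + ee δ y)
    + (π.m1 (y 0) + π.m (y 0) * ee δ y) * qq δ y))
def B1 (δ : ℝ) (y : Fin 4 → ℝ) : ℝ :=
  -(Real.sin (y 1) * Real.cos (y 1) / qq δ y ^ 2 * π.L1 δ y)
def B00 (δ : ℝ) (y : Fin 4 → ℝ) : ℝ :=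
  -(π.bt (y 0) * (π.P1 (y 0) - π.P (y 0) ^ 2) * (1 - ee δ y)
    + 2 * π.bt (y 0) * π.P (y 0) * ee δ y * (1 - ee δ y ^ 2)
    - (1 - π.bt (y 0)) * (1 - 3 * ee δ y ^ 2) * ee δ y * (1 - ee δ y ^ 2)
    + (π.m2 (y 0) + 2 * π.m1 (y 0) * ee δ y - π.m (y 0) * ee δ y * (1 - ee δ y - ee δ y ^ 2))
      * (qq δ y * (1 - ee δ y)))
def B01 (δ : ℝ) (y : Fin 4 → ℝ) : ℝ :=
  -(Real.sin (y 1) * Real.cos (y 1) / qq δ y ^ 2 * (2 * ee δ y ^ 2 * π.L1 δ y
    + π.bt (y 0) * π.P (y 0) * ee δ y - (1 - π.bt (y 0)) * ee δ y * (1 - ee δ y ^ 2)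
    + π.m1 (y 0) * qq δ y - π.m (y 0) * ee δ y ^ 2 * qq δ y))
def B11 (δ : ℝ) (y : Fin 4 → ℝ) : ℝ :=
  -(Real.cos (y 1) ^ 2 / qq δ y ^ 2 * π.L1 δ y - (1 - ee δ y ^ 2) * π.L1 δ y
    - 2 * (1 - ee δ y ^ 2) * (Real.cos (y 1) ^ 2 / qq δ y ^ 2) * π.L1 δ y
    + (1 - ee δ y ^ 2) * (Real.cos (y 1) ^ 2 / qq δ y ^ 2)
      * (-((1 - π.bt (y 0)) * ee δ y) + π.m (y 0) * qq δ y))

theorem D_BB : D2 UU (π.BB δ) (π.B0 δ) (π.B1 δ) := by
  have h := ((D2.const (U := UU) 1).sub (((D2.const (U := UU) 1).sub π.D_bt).mul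
    ((D2.const (U := UU) 1).sub (D_ee hδ)))).sub (π.D_m.mul ((D_qq hδ).sub (D_dd (δ := δ))))
  refine (h.congr ?_ ?_).congrf ?_
  · intro y hy
    have := ee_mul hδ y
    unfold B0
    rw [← this]
    ring
  · intro y hy
    have := (qq_pos hδ y).ne'
    unfold B1 L1
    field_simp
    ring
  · intro y
    unfold BB m
    ring

theorem D_B0 : ∃ g, D2 UU (π.B0 δ) (π.B00 δ) g := by
  have h := ((((D2.const (U := UU) 1).sub (D_ee hδ)).mul (((π.D_bt.mul π.D_P).add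
    ((((D2.const (U := UU) 1).sub π.D_bt).mul (D_ee hδ)).mul
      ((D2.const (U := UU) 1).add (D_ee hδ)))).add
      ((π.D_m1.add (π.D_m.mul (D_ee hδ))).mul (D_qq hδ))))).neg
  refine ⟨_, (h.congr ?_ (fun y _ => rfl)).congrf ?_⟩
  · intro y hy
    unfold B00
    ring
  · intro y
    unfold B0
    ring

theorem D_L1 : D2 UU (π.L1 δ) (fun y => π.bt (y 0) * π.P (y 0) * ee δ y
      - (1 - π.bt (y 0)) * ee δ y * (1 - ee δ y ^ 2)
      + π.m1 (y 0) * qq δ y - π.m (y 0) * ee δ y ^ 2 * qq δ y)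
    (fun y => Real.sin (y 1) * Real.cos (y 1) / qq δ y ^ 2 *
      (-((1 - π.bt (y 0)) * ee δ y) + π.m (y 0) * qq δ y)) := by
  have h := (((D2.const (U := UU) 1).sub π.D_bt).mul (D_ee hδ)).add (π.D_m.mul (D_qq hδ))
  refine (h.congr ?_ ?_).congrf ?_
  · intro y hy
    ring
  · intro y hy
    have := (qq_pos hδ y).ne'
    field_simp
    ring
  · intro y
    rfl

theorem D_B1 : D2 UU (π.B1 δ) (π.B01 δ) (π.B11 δ) := by
  have h := ((D_sc.div ((D_qq hδ).mul (D_qq hδ)) (fun y _ => by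
    have := qq_pos hδ y; positivity)).mul (π.D_L1 hδ)).neg
  refine (h.congr ?_ ?_).congrf ?_
  · intro y hy
    have := (qq_pos hδ y).ne'
    unfold B01
    field_simp
    ring
  · intro y hy
    have hq := (qq_pos hδ y).ne'
    have h1 := sin_sq' hδ y
    unfold B11
    have h2 : Real.sin (y 1) ^ 2 / qq δ y ^ 2 = 1 - ee δ y ^ 2 := by
      rw [h1]; field_simp
    rw [← h2]
    field_simp
    ring
  · intro y
    unfold B1
    rw [sq]

end Prf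

end Pool.Agent.RLim.H58
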