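import Pool.Agent.Helper58_RL.PolB

/-!
# The Ricci tensor of the neck at generic points (helper58, MP_62da59_gt)
-/

noncomputable section

open scoped ContDiff Topology RealInnerProductSpace
set_option maxSynthPendingDepth 3
open Set

namespace Pool.Agent.RLim.H58

open Pool.Agent.RF Pool.Agent.SecondKind Prf Prof

theorem cd_exp_comp {g : ℝ → ℝ} (hg : ContDiffOn ℝ ∞ g (Ioi 0)) :
    ContDiff ℝ ∞ (fun s => g (Real.exp s)) := by
  rw [← contDiffOn_univ]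
  exact hg.comp Real.contDiff_exp.contDiffOn (fun s _ => Real.exp_pos s)

theorem dl_contDiffOn {g : ℝ → ℝ} (hg : ContDiffOn ℝ ∞ g (Ioi 0)) :
    ContDiffOn ℝ ∞ (dl g) (Ioi 0) := by
  unfold dl
  exact contDiffOn_id.mul (hg.deriv_of_isOpen isOpen_Ioi (by simp))

theorem hda_exp {g : ℝ → ℝ} (hg : ContDiffOn ℝ ∞ g (Ioi 0)) (s : ℝ) :
    HasDerivAt (fun s => g (Real.exp s)) (dl g (Real.exp s)) s := by
  have h1 : DifferentiableAt ℝ g (Real.exp s) :=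
    (hg.contDiffAt (isOpen_Ioi.mem_nhds (Real.exp_pos s))).differentiableAt (by simp)
  have h2 := h1.hasDerivAt.comp s (Real.hasDerivAt_exp s)
  refine h2.congr_deriv ?_
  unfold dl
  ring

/-- the functions of `log R` -/
def mkPrf (q : Prof) (hok : q.Ok) : Prf where
  f := fun s => q.F (Real.exp s)
  f1 := fun s => dl q.F (Real.exp s)
  bt := fun s => q.β (Real.exp s)
  P := fun s => q.P (Real.exp s)
  P1 := fun s => dl q.P (Real.exp s)
  P2 := fun s => dl (dl q.P) (Real.exp s)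
  hf := hda_exp hok.F_smooth
  hbt := fun s => by
    have h2 := (hok.β_deriv _ (Real.exp_pos s)).comp s (Real.hasDerivAt_exp s)
    refine h2.congr_deriv ?_
    have := (Real.exp_pos s).ne'
    field_simp
  hP := hda_exp hok.P_smooth
  hP1 := hda_exp (dl_contDiffOn hok.P_smooth)
  f0 := fun s => hok.F_pos _ (Real.exp_pos s)
  bt0 := fun s => hok.β_pos _ (Real.exp_pos s)
  smf := cd_exp_comp hok.F_smooth
  smbt := cd_exp_comp hok.β_smooth
  smP := cd_exp_comp hok.P_smooth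

theorem mkComp (q : Prof) (hok : q.Ok) (hn : ∀ R, 0 < R → q.n R = q.F R * q.P R / 8)
    (hc : ∀ R, 0 < R → q.c R = 16 * q.P R) : Comp q (mkPrf q hok) :=
  ⟨fun _ => rfl, fun _ => rfl, fun _ => rfl, hn, hc⟩

/-- The hypotheses of the pointwise inequality. -/
theorem mkOk (q : Prof) (hok : q.Ok) {δ μ : ℝ} (hδ : 0 < δ) (hμ0 : 0 ≤ μ) (hμ1 : μ ≤ 1)
    {X y : E4} (he : Real.exp (y 0) = ‖X‖) (hy0 : 0 < y 1) (hy1 : y 1 < Real.pi / 2)
    (hyp : (q.np δ X).hyp μ) (hd : δ / ‖X‖ ≤ q.β ‖X‖ / 100) :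
    ((mkPrf q hok).npt δ μ (eqE 4 y)).Ok := by
  have hyU : eqE 4 y ∈ UU := ⟨hy0, hy1⟩
  obtain ⟨a1, a2, a3, a4, a5, a6, a7, a8, a9, a10, a11, a12, -⟩ := hyp
  have hq := qq_pos hδ (eqE 4 y)
  have hdd := dd_pos hδ (eqE 4 y)
  have hem := ee_mul hδ (eqE 4 y)
  have hqs := qq_sq hδ (eqE 4 y)
  have hR : 0 < ‖X‖ := by rw [← he]; exact Real.exp_pos _
  have hdX : dd δ (eqE 4 y) = δ / ‖X‖ := by
    unfold dd
    rw [eqE_apply, Real.exp_neg, he]
    rfl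
  have hle : dd δ (eqE 4 y) ≤ qq δ (eqE 4 y) := by
    have : 0 ≤ Real.sin (y 1) ^ 2 := sq_nonneg _
    rw [eqE_apply] at hqs
    nlinarith
  refine
    { e0 := div_pos hdd hq
      e1 := (div_le_one hq).2 hle
      q0 := hq
      x0 := UU_sin hyU
      ct0 := (UU_cos hyU).le
      hx := sin_sq' hδ _
      hct := Real.sin_sq_add_cos_sq _
      b0 := hok.β_pos _ (Real.exp_pos _)
      b1 := ?_
      hd := ?_
      F0 := hok.F_pos _ (Real.exp_pos _)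
      F1 := ?_
      s0 := hμ0
      s1 := hμ1
      P0 := ?_
      Pu := ?_
      P1u := ?_
      P2u := ?_
      P1l := ?_
      P2l := ?_
      f0 := ?_
      fu := ?_ }
  · change q.β (Real.exp (y 0)) ≤ 1
    rw [he]; exact a4
  · change 100 * (qq δ (eqE 4 y) * ee δ (eqE 4 y)) ≤ q.β (Real.exp (y 0))
    rw [he, mul_comm (qq δ _), hem, hdX]
    linarith
  · change q.F (Real.exp (y 0)) ≤ 1
    rw [he]; exact a2
  · change 0 ≤ q.P (Real.exp (y 0))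
    rw [he]; exact a5
  · change q.P (Real.exp (y 0)) ≤ (1 - q.F (Real.exp (y 0)) + μ) / 10 ^ 6
    rw [he]; exact a6
  · change |dl q.P (Real.exp (y 0))| ≤ (1 - q.F (Real.exp (y 0)) + μ) / 10 ^ 6
    rw [he]; exact a7
  · change |dl (dl q.P) (Real.exp (y 0))| ≤ (1 - q.F (Real.exp (y 0)) + μ) / 10 ^ 6
    rw [he]; exact a8
  · change -q.P (Real.exp (y 0)) / 1024 - μ / 10 ^ 6 ≤ dl q.P (Real.exp (y 0))
    rw [he]; exact a9
  · change -(q.P (Real.exp (y 0)) + |dl q.P (Real.exp (y 0))|) / 1024 - μ / 10 ^ 6 ≤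
      dl (dl q.P) (Real.exp (y 0))
    rw [he]; exact a10
  · change 0 ≤ dl q.F (Real.exp (y 0))
    rw [he]; exact a11
  · change dl q.F (Real.exp (y 0)) ≤
      q.F (Real.exp (y 0)) * q.P (Real.exp (y 0)) / 16 + μ / 10 ^ 6
    rw [he]; exact a12

/-- the point is in the domain of the coordinates -/
theorem mem_VV {π : Prf} {δ μ : ℝ} (hδ : 0 < δ) {y : Fin 4 → ℝ} (hy : y ∈ UU)
    (h : (π.npt δ μ y).Ok) : y ∈ π.VV δ := by
  have hem := ee_mul hδ y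
  have hyy : (π.npt δ μ y).y = qq δ y - dd δ y := by
    unfold NPt.y npt
    simp only
    linarith
  refine ⟨hy, ?_, ?_⟩
  · have h1 := h.N0
    unfold NPt.N at h1
    rw [hyy] at h1
    exact h1
  · have h1 := h.b_pos
    unfold NPt.b at h1
    rw [hyy] at h1
    exact h1

/-- **The Ricci tensor of the neck at a generic point.** -/
theorem genRic (hA : PolAStmt) (hC : PolCStmt) (q : Prof) (hok : q.Ok)
    (hn : ∀ R, 0 < R → q.n R = q.F R * q.P R / 8) (hc : ∀ R, 0 < R → q.c R = 16 * q.P R)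
    {δ μ : ℝ} (hδ : 0 < δ) (hM : IsMetricOn (q.neck δ) (Om (Fin 4))) (hμ0 : 0 ≤ μ) (hμ1 : μ ≤ 1)
    {X : E4} (h01 : X 0 ≠ 0 ∨ X 1 ≠ 0) (h23 : X 2 ≠ 0 ∨ X 3 ≠ 0)
    (hyp : (q.np δ X).hyp μ) (hd : δ / ‖X‖ ≤ q.β ‖X‖ / 100) (V : E4) :
    -(μ / ‖X‖ ^ 2) * q.neck δ X V V ≤ ric (q.neck δ) X V V := by
  obtain ⟨y, hyX, he, hy0, hy1, -, -, hsur⟩ := hC X h01 h23
  obtain ⟨v, hv⟩ := hsur V
  have hyU : eqE 4 y ∈ UU := ⟨hy0, hy1⟩
  have hOk := mkOk q hok hδ hμ0 hμ1 he hy0 hy1 hyp hd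
  have hyV := mem_VV hδ hyU hOk
  have hcomp := mkComp q hok hn hc
  have hric := hA ((mkPrf q hok).ww δ) ((mkPrf q hok).VV δ) (q.neck δ) ((mkPrf q hok).VV_open hδ)
    ((mkPrf q hok).ww_smooth hδ) (fun z hz => hz.1) hM
    (fun z hz u => polB hcomp hδ z u hz) y hyV v
  have hg := polB hcomp hδ y v hyV
  have hmain := (mkPrf q hok).ricci_nonneg hδ μ hyV hOk (eqE 4 v)
  rw [← hyX, ← hv, hric, hg]
  have hR : Real.exp (-(2 * eqE 4 y 0)) = 1 / ‖psi y‖ ^ 2 := by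
    rw [norm_psi, eqE_apply, Real.exp_neg, two_mul, Real.exp_add, pow_two, one_div]
  rw [hR] at hmain
  calc -(μ / ‖psi y‖ ^ 2) * ∑ i, Real.exp (2 * (mkPrf q hok).ww δ i (eqE 4 y)) * v i ^ 2
      = -(μ * (1 / ‖psi y‖ ^ 2 * ∑ i, Real.exp (2 * (mkPrf q hok).ww δ i (eqE 4 y)) * v i ^ 2)) := by
        ring
    _ ≤ _ := hmain

end Pool.Agent.RLim.H58
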