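import Pool.Agent.Helper58_RL.Diag

/-!
# A small calculus for functions of the first two coordinates (helper58, MP_62da59_gt)
-/

noncomputable section

open scoped ContDiff Topology
open Set Filter

namespace Pool.Agent.RLim.H58

open Pool.Agent.SecondKind

/-- `df = f0 dy₀ + f1 dy₁` on `U` -/
def D2 (U : Set (Fin 4 → ℝ)) (f f0 f1 : (Fin 4 → ℝ) → ℝ) : Prop :=
  ∀ y ∈ U, HasFDerivAt f (f0 y • (ContinuousLinearMap.proj 0 : (Fin 4 → ℝ) →L[ℝ] ℝ)
    + f1 y • (ContinuousLinearMap.proj 1 : (Fin 4 → ℝ) →L[ℝ] ℝ)) y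

namespace D2

variable {U : Set (Fin 4 → ℝ)} {f f0 f1 g g0 g1 : (Fin 4 → ℝ) → ℝ}

theorem congr {f0' f1' : (Fin 4 → ℝ) → ℝ} (h : D2 U f f0 f1) (h0 : ∀ y ∈ U, f0 y = f0' y)
    (h1 : ∀ y ∈ U, f1 y = f1' y) : D2 U f f0' f1' := by
  intro y hy
  rw [← h0 y hy, ← h1 y hy]
  exact h y hy

theorem congrf (h : D2 U f f0 f1) {f' : (Fin 4 → ℝ) → ℝ} (h0 : ∀ y : Fin 4 → ℝ, f y = f' y) :
    D2 U f' f0 f1 := by
  have : f = f' := funext h0
  rwa [← this]

theorem const (c : ℝ) : D2 U (fun _ => c) (fun _ => 0) (fun _ => 0) := by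
  intro y _
  simpa using hasFDerivAt_const (𝕜 := ℝ) c y

theorem c0 : D2 U (fun y => y 0) (fun _ => 1) (fun _ => 0) := by
  intro y _
  have h := (ContinuousLinearMap.proj 0 : (Fin 4 → ℝ) →L[ℝ] ℝ).hasFDerivAt (x := y)
  have h' : HasFDerivAt (fun y : Fin 4 → ℝ => y 0) (ContinuousLinearMap.proj 0) y := h
  simpa using h'

theorem c1 : D2 U (fun y => y 1) (fun _ => 0) (fun _ => 1) := by
  intro y _
  have h := (ContinuousLinearMap.proj 1 : (Fin 4 → ℝ) →L[ℝ] ℝ).hasFDerivAt (x := y)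
  have h' : HasFDerivAt (fun y : Fin 4 → ℝ => y 1) (ContinuousLinearMap.proj 1) y := h
  simpa using h'

theorem add (hf : D2 U f f0 f1) (hg : D2 U g g0 g1) :
    D2 U (fun y => f y + g y) (fun y => f0 y + g0 y) (fun y => f1 y + g1 y) := by
  intro y hy
  refine ((hf y hy).add (hg y hy)).congr_fderiv ?_
  ext v
  simp
  ring

theorem sub (hf : D2 U f f0 f1) (hg : D2 U g g0 g1) :
    D2 U (fun y => f y - g y) (fun y => f0 y - g0 y) (fun y => f1 y - g1 y) := by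
  intro y hy
  refine ((hf y hy).sub (hg y hy)).congr_fderiv ?_
  ext v
  simp
  ring

theorem neg (hf : D2 U f f0 f1) :
    D2 U (fun y => -f y) (fun y => -f0 y) (fun y => -f1 y) := by
  intro y hy
  refine ((hf y hy).neg).congr_fderiv ?_
  ext v
  simp
  ring

theorem mul (hf : D2 U f f0 f1) (hg : D2 U g g0 g1) :
    D2 U (fun y => f y * g y) (fun y => f0 y * g y + f y * g0 y)
      (fun y => f1 y * g y + f y * g1 y) := by
  intro y hy
  refine ((hf y hy).mul (hg y hy)).congr_fderiv ?_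
  ext v
  simp
  ring

theorem cmul (c : ℝ) (hf : D2 U f f0 f1) :
    D2 U (fun y => c * f y) (fun y => c * f0 y) (fun y => c * f1 y) := by
  intro y hy
  refine ((hf y hy).const_mul c).congr_fderiv ?_
  ext v
  simp
  ring

theorem comp {φ φ' : ℝ → ℝ} (hf : D2 U f f0 f1) (hφ : ∀ y ∈ U, HasDerivAt φ (φ' (f y)) (f y)) :
    D2 U (fun y => φ (f y)) (fun y => φ' (f y) * f0 y) (fun y => φ' (f y) * f1 y) := by
  intro y hy
  refine ((hφ y hy).comp_hasFDerivAt y (hf y hy)).congr_fderiv ?_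
  ext v
  simp
  ring

theorem inv (hf : D2 U f f0 f1) (h0 : ∀ y ∈ U, f y ≠ 0) :
    D2 U (fun y => (f y)⁻¹) (fun y => -(f0 y) / f y ^ 2) (fun y => -(f1 y) / f y ^ 2) := by
  refine (hf.comp (φ := fun z => z⁻¹) (φ' := fun z => -(z ^ 2)⁻¹)
    (fun y hy => hasDerivAt_inv (h0 y hy))).congr ?_ ?_ <;>
  · intro y hy
    field_simp

theorem div (hf : D2 U f f0 f1) (hg : D2 U g g0 g1) (h0 : ∀ y ∈ U, g y ≠ 0) :
    D2 U (fun y => f y / g y) (fun y => (f0 y * g y - f y * g0 y) / g y ^ 2)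
      (fun y => (f1 y * g y - f y * g1 y) / g y ^ 2) := by
  have h := (hf.mul (hg.inv h0))
  have h' : D2 U (fun y => f y / g y) _ _ := h
  refine h'.congr ?_ ?_ <;>
  · intro y hy
    have := h0 y hy
    field_simp
    ring

theorem log (hf : D2 U f f0 f1) (h0 : ∀ y ∈ U, 0 < f y) :
    D2 U (fun y => Real.log (f y)) (fun y => f0 y / f y) (fun y => f1 y / f y) := by
  refine (hf.comp (φ := Real.log) (φ' := fun z => z⁻¹)
    (fun y hy => Real.hasDerivAt_log (h0 y hy).ne')).congr ?_ ?_ <;>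
  · intro y hy
    field_simp

theorem exp (hf : D2 U f f0 f1) :
    D2 U (fun y => Real.exp (f y)) (fun y => Real.exp (f y) * f0 y)
      (fun y => Real.exp (f y) * f1 y) :=
  hf.comp (φ := Real.exp) (φ' := Real.exp) (fun _ _ => Real.hasDerivAt_exp _)

theorem sqrt (hf : D2 U f f0 f1) (h0 : ∀ y ∈ U, 0 < f y) :
    D2 U (fun y => √(f y)) (fun y => f0 y / (2 * √(f y))) (fun y => f1 y / (2 * √(f y))) := by
  refine (hf.comp (φ := Real.sqrt) (φ' := fun z => 1 / (2 * √z))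
    (fun y hy => Real.hasDerivAt_sqrt (h0 y hy).ne')).congr ?_ ?_ <;>
  · intro y hy
    field_simp

theorem sin (hf : D2 U f f0 f1) :
    D2 U (fun y => Real.sin (f y)) (fun y => Real.cos (f y) * f0 y)
      (fun y => Real.cos (f y) * f1 y) :=
  hf.comp (φ := Real.sin) (φ' := Real.cos) (fun _ _ => Real.hasDerivAt_sin _)

theorem cos (hf : D2 U f f0 f1) :
    D2 U (fun y => Real.cos (f y)) (fun y => -Real.sin (f y) * f0 y)
      (fun y => -Real.sin (f y) * f1 y) :=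
  hf.comp (φ := Real.cos) (φ' := fun z => -Real.sin z) (fun _ _ => Real.hasDerivAt_cos _)

/-- the partial derivatives -/
theorem pd0 (hf : D2 U f f0 f1) {y : Fin 4 → ℝ} (hy : y ∈ U) : pd 0 f y = f0 y := by
  unfold pd
  rw [(hf y hy).fderiv]
  simp

theorem pd1 (hf : D2 U f f0 f1) {y : Fin 4 → ℝ} (hy : y ∈ U) : pd 1 f y = f1 y := by
  unfold pd
  rw [(hf y hy).fderiv]
  simp

theorem pd2 (hf : D2 U f f0 f1) {y : Fin 4 → ℝ} (hy : y ∈ U) : pd 2 f y = 0 := by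
  unfold pd
  rw [(hf y hy).fderiv]
  simp

theorem pd3 (hf : D2 U f f0 f1) {y : Fin 4 → ℝ} (hy : y ∈ U) : pd 3 f y = 0 := by
  unfold pd
  rw [(hf y hy).fderiv]
  simp

theorem pdd (hU : IsOpen U) (hf : D2 U f f0 f1) {g0 g1 : (Fin 4 → ℝ) → ℝ} (hg : D2 U f0 g0 g1)
    {y : Fin 4 → ℝ} (hy : y ∈ U) : pd 0 (pd 0 f) y = g0 y ∧ pd 1 (pd 0 f) y = g1 y := by
  have h : pd 0 f =ᶠ[𝓝 y] f0 := by
    filter_upwards [hU.mem_nhds hy] with z hz using hf.pd0 hz
  rw [pd_congr' 0 h, pd_congr' 1 h]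
  exact ⟨hg.pd0 hy, hg.pd1 hy⟩

theorem pdd' (hU : IsOpen U) (hf : D2 U f f0 f1) {g0 g1 : (Fin 4 → ℝ) → ℝ} (hg : D2 U f1 g0 g1)
    {y : Fin 4 → ℝ} (hy : y ∈ U) : pd 0 (pd 1 f) y = g0 y ∧ pd 1 (pd 1 f) y = g1 y := by
  have h : pd 1 f =ᶠ[𝓝 y] f1 := by
    filter_upwards [hU.mem_nhds hy] with z hz using hf.pd1 hz
  rw [pd_congr' 0 h, pd_congr' 1 h]
  exact ⟨hg.pd0 hy, hg.pd1 hy⟩

end D2

end Pool.Agent.RLim.H58
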