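import Mathlib

/-!
# The pointwise inequality of the neck (helper58, MP_62da59_gt)

All quantities are real numbers: the values, at a point of the neck at distance `1` from the
centre, of the functions in the metric and of their derivatives `R d/dR`.
-/

noncomputable section

namespace Pool.Agent.RLim.H58

set_option linter.unusedSectionVars false

/-- The independent quantities: `e = δ/rd`, `q = rd/R`, `x = sin t`, `ct = cos t`, the cone angle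
`bt`, the radial factor `F`, `P = -D log bt`, `P1 = D P`, `P2 = D P1`, `f1 = D F`, the slack
`sg`. -/
structure NPt where
  e : ℝ
  q : ℝ
  x : ℝ
  ct : ℝ
  bt : ℝ
  F : ℝ
  P : ℝ
  P1 : ℝ
  P2 : ℝ
  f1 : ℝ
  sg : ℝ

namespace NPt

variable (p : NPt)

def y : ℝ := p.q * (1 - p.e)
def n : ℝ := p.F * p.P / 8
def n1 : ℝ := (p.f1 * p.P + p.F * p.P1) / 8
def m : ℝ := 16 * p.bt * p.P
def m1 : ℝ := 16 * p.bt * (p.P1 - p.P ^ 2)
def b : ℝ := 1 - (1 - p.bt) * (1 - p.e) - p.m * p.y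
def N : ℝ := 1 - p.n * p.y
def om : ℝ := (1 - p.e ^ 2) * ((1 - p.bt) * p.e + p.m * p.q) / p.b
def ph : ℝ := (1 - p.e) * (p.bt * p.P + (1 - p.bt) * p.e * (1 + p.e)
  + (p.m1 + p.m * p.e) * p.q) / p.b
def ta : ℝ := p.bt / p.b
def A : ℝ := p.ta * (1 - p.e)
def G : ℝ := p.f1 / (2 * p.N ^ 2) + p.F * p.y * (p.n1 + p.n * p.e) / p.N ^ 3
def K : ℝ := p.P + p.P1 - p.P ^ 2 + 2 * p.P * p.e * (1 + p.e)
  + 16 * p.q * ((p.P1 - p.P ^ 2) * (1 + 2 * p.e) + (p.P2 - 3 * p.P * p.P1 + p.P ^ 3)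
    + p.P * p.e ^ 2 * (1 + p.e))

/-- the components of the Ricci tensor, without the contributions of the smoothing -/
def M11 : ℝ := p.n / (p.q * p.N) * (p.ct ^ 2 * (1 + p.e ^ 2 - p.om) - 2 * p.x ^ 2)
  + p.F / p.N ^ 2 * (p.A * p.K) - (3 - p.ph) * p.G
def M12 : ℝ := √p.F / p.N * (p.ct / p.x * p.A * (p.P * (1 + p.e + p.e ^ 2)
  + 16 * p.q * ((p.P1 - p.P ^ 2) * (2 + p.e) + p.P * p.e * (1 + p.e + p.e ^ 2)))
  - p.n * p.x * p.ct / (p.q * p.N) * (2 - p.ph))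
def M22 : ℝ := (2 - p.om) - p.F / p.N ^ 2 * (2 - p.ph)
  + 16 * p.P * (2 + p.e ^ 2) * (p.ct ^ 2 * p.ta / p.q)
  - p.n / (p.q * p.N) * (p.x ^ 2 - p.e ^ 2 * p.ct ^ 2) - p.G
def M33 : ℝ := (2 - p.om) - p.F / p.N ^ 2 * (2 - p.ph) - p.n / (p.q * p.N) * p.x ^ 2 - p.G
def M44 : ℝ := 2 * (1 - p.om) - 2 * (p.F / p.N ^ 2) * (1 - p.ph) + p.F / p.N ^ 2 * (p.A * p.K)
  - (1 - p.ph) * p.G + p.n / (p.q * p.N) * p.ct ^ 2 * (1 - p.om)
  + 16 * p.P * (2 + p.e ^ 2) * (p.ct ^ 2 * p.ta / p.q)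

/-- The hypotheses of the pointwise inequality. -/
structure Ok (p : NPt) : Prop where
  e0 : 0 < p.e
  e1 : p.e ≤ 1
  q0 : 0 < p.q
  x0 : 0 < p.x
  ct0 : 0 ≤ p.ct
  hx : p.x ^ 2 = p.q ^ 2 * (1 - p.e ^ 2)
  hct : p.x ^ 2 + p.ct ^ 2 = 1
  b0 : 0 < p.bt
  b1 : p.bt ≤ 1
  hd : 100 * (p.q * p.e) ≤ p.bt
  F0 : 0 < p.F
  F1 : p.F ≤ 1
  s0 : 0 ≤ p.sg
  s1 : p.sg ≤ 1
  P0 : 0 ≤ p.P
  Pu : p.P ≤ (1 - p.F + p.sg) / 10 ^ 6
  P1u : |p.P1| ≤ (1 - p.F + p.sg) / 10 ^ 6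
  P2u : |p.P2| ≤ (1 - p.F + p.sg) / 10 ^ 6
  P1l : -p.P / 1024 - p.sg / 10 ^ 6 ≤ p.P1
  P2l : -(p.P + |p.P1|) / 1024 - p.sg / 10 ^ 6 ≤ p.P2
  f0 : 0 ≤ p.f1
  fu : p.f1 ≤ p.F * p.P / 16 + p.sg / 10 ^ 6

variable {p} (h : Ok p)

namespace Ok

include h

/-- abbreviation for `1 - F + sg` -/
theorem S0 : 0 ≤ 1 - p.F + p.sg := by linarith [h.F1, h.s0]
theorem S2 : 1 - p.F + p.sg ≤ 2 := by linarith [h.F0, h.s1]
theorem Ps : p.P ≤ 2 / 10 ^ 6 := by
  have := h.Pu; have := h.S2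
  linarith
theorem P1s : |p.P1| ≤ 2 / 10 ^ 6 := by
  have := h.P1u; have := h.S2
  linarith

theorem e_lt : p.e < 1 := by
  rcases h.e1.lt_or_eq with h1 | h1
  · exact h1
  · exfalso
    have := h.hx
    rw [h1] at this
    have := pow_pos h.x0 2
    nlinarith

theorem q1 : p.q ≤ 1.0001 := by
  have h1 : p.q * p.e ≤ 1 / 100 := by linarith [h.hd, h.b1]
  have h0 : 0 < p.q * p.e := mul_pos h.q0 h.e0
  have h2 : p.q ^ 2 = p.x ^ 2 + (p.q * p.e) ^ 2 := by rw [h.hx]; ring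
  have h3 : p.x ^ 2 ≤ 1 := by nlinarith [h.hct, sq_nonneg p.ct]
  have h4 : (p.q * p.e) ^ 2 ≤ (1 / 100) ^ 2 := pow_le_pow_left₀ h0.le h1 2
  by_contra hc
  push Not at hc
  have : (1.0001 : ℝ) ^ 2 < p.q ^ 2 := pow_lt_pow_left₀ hc (by norm_num) (by norm_num)
  norm_num at this h4
  linarith

theorem y0 : 0 < p.y := mul_pos h.q0 (by linarith [h.e_lt])
theorem y_le_q : p.y ≤ p.q := by
  unfold NPt.y
  nlinarith [h.q0, h.e0]
theorem y1 : p.y ≤ 1.0001 := h.y_le_q.trans h.q1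

theorem n0 : 0 ≤ p.n := by
  unfold NPt.n
  have := mul_nonneg h.F0.le h.P0
  positivity
theorem FP_le : p.F * p.P ≤ p.P := by nlinarith [h.F1, h.P0]
theorem n_le : p.n ≤ p.P / 8 := by
  unfold NPt.n
  linarith [h.FP_le]
theorem ny_le : p.n * p.y ≤ 0.126 * p.P := by
  have h1 := h.n_le; have h2 := h.y1
  have : p.n * p.y ≤ p.P / 8 * 1.0001 := mul_le_mul h1 h2 h.y0.le (by linarith [h.P0])
  nlinarith [h.P0]
theorem ny0 : 0 ≤ p.n * p.y := mul_nonneg h.n0 h.y0.le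
theorem N1 : p.N ≤ 1 := by unfold NPt.N; linarith [h.ny0]
theorem Nl : 1 - 0.126 * p.P ≤ p.N := by unfold NPt.N; linarith [h.ny_le]
theorem N9 : 0.999999 ≤ p.N := by
  have := h.Nl; have := h.Ps
  norm_num at *
  linarith
theorem N0 : 0 < p.N := by linarith [h.N9]

theorem iN2 : 1 / p.N ^ 2 ≤ 1 + 0.27 * p.P := by
  rw [div_le_iff₀ (pow_pos h.N0 2)]
  have h1 := h.Nl; have h2 := h.Ps; have h3 := h.P0
  have h4 : (1 - 0.126 * p.P) ^ 2 ≤ p.N ^ 2 := pow_le_pow_left₀ (by norm_num at *; linarith) h1 2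
  have h5 : (1 + 0.27 * p.P) * (1 - 0.126 * p.P) ^ 2 ≤ (1 + 0.27 * p.P) * p.N ^ 2 :=
    mul_le_mul_of_nonneg_left h4 (by linarith)
  have h6 : 1 ≤ (1 + 0.27 * p.P) * (1 - 0.126 * p.P) ^ 2 := by
    have : (1 + 0.27 * p.P) * (1 - 0.126 * p.P) ^ 2 - 1 =
      p.P * (0.018 - 0.052164 * p.P + 0.00428652 * p.P ^ 2) := by ring
    have h7 : 0 ≤ p.P * (0.018 - 0.052164 * p.P + 0.00428652 * p.P ^ 2) := by
      apply mul_nonneg h3
      nlinarith
    linarith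
  linarith

theorem iN2' : 1 ≤ 1 / p.N ^ 2 := by
  rw [le_div_iff₀ (pow_pos h.N0 2)]
  nlinarith [h.N0, h.N1, pow_le_one₀ (n := 2) h.N0.le h.N1]

theorem iN2s : 1 / p.N ^ 2 ≤ 1.000001 := by
  have := h.iN2; have := h.Ps
  norm_num at *
  linarith

theorem Pq : 16 * p.P * p.q ≤ 0.0001 := by
  have h1 := h.Ps; have h2 := h.q1
  have : p.P * p.q ≤ 2 / 10 ^ 6 * 1.0001 := mul_le_mul h1 h2 h.q0.le (by norm_num)
  norm_num at *
  linarith
theorem Pq0 : 0 ≤ 16 * p.P * p.q := by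
  have := mul_nonneg h.P0 h.q0.le
  linarith

theorem b_eq : p.b = p.e + p.bt * (1 - p.e) * (1 - 16 * p.P * p.q) := by
  unfold NPt.b NPt.m NPt.y
  ring

/-- the main part of `b` -/
theorem b_le : p.b ≤ p.e + p.bt * (1 - p.e) := by
  rw [h.b_eq]
  have h1 : 0 ≤ p.bt * (1 - p.e) := mul_nonneg h.b0.le (by linarith [h.e_lt])
  nlinarith [h.Pq0]
theorem b_ge : 0.9999 * (p.e + p.bt * (1 - p.e)) ≤ p.b := by
  rw [h.b_eq]
  have h1 : 0 ≤ p.bt * (1 - p.e) := mul_nonneg h.b0.le (by linarith [h.e_lt])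
  have h2 := h.Pq
  nlinarith [h.Pq0, h.e0]
theorem c_ge : p.bt ≤ p.e + p.bt * (1 - p.e) := by nlinarith [h.e0, h.b1]
theorem c_le : p.e + p.bt * (1 - p.e) ≤ 1 := by nlinarith [h.e_lt, h.b1]
theorem b_pos : 0 < p.b := by
  have := h.b_ge; have := h.c_ge; have := h.b0
  nlinarith
theorem b_le1 : p.b ≤ 1 := h.b_le.trans h.c_le
theorem bt_le : 0.9999 * p.bt ≤ p.b := by
  have := h.b_ge; have := h.c_ge
  nlinarith

theorem ta0 : 0 < p.ta := div_pos h.b0 h.b_pos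
theorem ta1 : p.ta ≤ 1.0002 := by
  unfold NPt.ta
  rw [div_le_iff₀ h.b_pos]
  nlinarith [h.bt_le, h.b0]
theorem A0 : 0 < p.A := mul_pos h.ta0 (by linarith [h.e_lt])
theorem A_le : p.A ≤ p.ta := by unfold NPt.A; nlinarith [h.ta0, h.e0]
theorem A1 : p.A ≤ 1.0002 := h.A_le.trans h.ta1

theorem tab : p.ta * p.b = p.bt := by unfold NPt.ta; field_simp [h.b_pos.ne']

/-- (i) -/
theorem y_le_A : p.y ≤ 1.011 * p.A := by
  have h1 : p.q * p.b ≤ 1.011 * p.bt := by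
    have h2 : p.q * p.b ≤ p.q * (p.e + p.bt * (1 - p.e)) :=
      mul_le_mul_of_nonneg_left h.b_le h.q0.le
    have h3 : p.q * (1 - p.e) ≤ 1.0001 := h.y1
    have h4 : p.q * (p.e + p.bt * (1 - p.e)) = p.q * p.e + p.bt * (p.q * (1 - p.e)) := by ring
    have h5 : p.bt * (p.q * (1 - p.e)) ≤ p.bt * 1.0001 := mul_le_mul_of_nonneg_left h3 h.b0.le
    have := h.hd
    norm_num at *
    linarith [h.b0]
  have h6 : p.q ≤ 1.011 * p.ta := by
    unfold NPt.ta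
    rw [mul_div_assoc', le_div_iff₀ h.b_pos]
    exact h1
  unfold NPt.y NPt.A
  have := mul_le_mul_of_nonneg_right h6 (by linarith [h.e_lt] : (0:ℝ) ≤ 1 - p.e)
  linarith

/-- `Z = ct² τ / q` -/
def _root_.Pool.Agent.RLim.H58.NPt.Z (p : NPt) : ℝ := p.ct ^ 2 * p.ta / p.q

theorem Z0 : 0 ≤ p.Z := by
  unfold NPt.Z
  have := h.ta0; have := h.q0
  positivity

theorem taq : p.ta / p.q ≤ p.Z + 1.001 := by
  have h1 : p.ta / p.q = p.Z + p.x ^ 2 * p.ta / p.q := by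
    unfold NPt.Z
    rw [← add_div]
    congr 1
    have := h.hct
    linear_combination (-p.ta) * this
  have h2 : p.x ^ 2 * p.ta / p.q = p.q * (1 - p.e ^ 2) * p.ta := by
    rw [h.hx]
    field_simp [h.q0.ne']
  have h3 : p.q * (1 - p.e ^ 2) * p.ta ≤ 1.001 := by
    have h4 : p.q * (1 - p.e ^ 2) ≤ 1.0001 := by
      have := h.q1; have := h.q0
      nlinarith [sq_nonneg p.e]
    have h5 : 0 ≤ p.q * (1 - p.e ^ 2) := mul_nonneg h.q0.le (by nlinarith [h.e0, h.e1])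
    have := mul_le_mul h4 h.ta1 h.ta0.le (by norm_num : (0:ℝ) ≤ 1.0001)
    norm_num at *
    linarith
  linarith

/-- (ii) -/
theorem AZ : 0.989 ≤ p.A + 0.01 * p.Z := by
  have h1 : 1 - p.A ≤ p.e / p.b := by
    rw [le_div_iff₀ h.b_pos]
    have : p.A * p.b = p.bt * (1 - p.e) := by
      unfold NPt.A
      have := h.tab
      linear_combination (1 - p.e) * this
    nlinarith [h.b_le]
  have h2 : p.e / p.b ≤ 0.01 * (p.ta / p.q) := by
    unfold NPt.ta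
    rw [div_div, mul_div_assoc', div_le_div_iff₀ h.b_pos (mul_pos h.b_pos h.q0)]
    have h3 : p.q * p.e ≤ 0.01 * p.bt := by have := h.hd; norm_num at *; linarith
    have := mul_le_mul_of_nonneg_left h3 h.b_pos.le
    nlinarith
  have h3 := h.taq
  norm_num at *
  linarith

/-- (iii) -/
theorem om_eq : p.b * (1 - p.om) = p.e ^ 3 + p.bt * (1 - p.e ^ 3)
    - p.bt * (16 * p.P * p.q) * ((1 - p.e) * (2 + p.e)) := by
  have h1 : p.b * p.om = (1 - p.e ^ 2) * ((1 - p.bt) * p.e + p.m * p.q) := by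
    unfold NPt.om
    field_simp [h.b_pos.ne']
  rw [mul_sub, mul_one, h1, h.b_eq]
  unfold NPt.m
  ring

theorem om_ge : 0.9998 * p.ta ≤ 1 - p.om := by
  have h1 := h.om_eq
  have h2 : p.bt ≤ p.e ^ 3 + p.bt * (1 - p.e ^ 3) := by
    have := pow_pos h.e0 3
    nlinarith [h.b1]
  have h3 : (1 - p.e) * (2 + p.e) ≤ 2 := by nlinarith [h.e0]
  have h3' : 0 ≤ (1 - p.e) * (2 + p.e) := mul_nonneg (by linarith [h.e_lt]) (by linarith [h.e0])
  have h4 : (16 * p.P * p.q) * ((1 - p.e) * (2 + p.e)) ≤ 0.0001 * 2 :=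
    mul_le_mul h.Pq h3 h3' (by norm_num)
  have h5 : 0.9998 * p.bt ≤ p.b * (1 - p.om) := by
    rw [h1]
    have := mul_le_mul_of_nonneg_left h4 h.b0.le
    norm_num at *
    nlinarith
  unfold NPt.ta
  rw [mul_div_assoc', div_le_iff₀ h.b_pos]
  linarith

theorem m0 : 0 ≤ p.m := by
  unfold NPt.m
  have := h.b0; have := h.P0
  positivity

theorem om0 : 0 ≤ p.om := by
  unfold NPt.om
  apply div_nonneg _ h.b_pos.le
  apply mul_nonneg (by nlinarith [h.e0, h.e1])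
  have h1 := mul_nonneg (by linarith [h.b1] : (0:ℝ) ≤ 1 - p.bt) h.e0.le
  have h2 := mul_nonneg h.m0 h.q0.le
  linarith

theorem ph_eq : p.ph - p.om = p.A * (p.P - 16 * p.q * (p.P - p.P1 + p.P ^ 2)) := by
  have hb := h.b_pos.ne'
  unfold NPt.ph NPt.om NPt.A NPt.ta NPt.m1 NPt.m
  field_simp
  ring

theorem aP1 : 0 ≤ |p.P1| := abs_nonneg _

/-- bound of the difference of `ph` and `om` -/
theorem ph_om : |p.ph - p.om| ≤ p.A * (18 * p.P + 17 * |p.P1|) := by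
  rw [h.ph_eq, abs_mul, abs_of_pos h.A0]
  apply mul_le_mul_of_nonneg_left _ h.A0.le
  have h1 : |p.P - p.P1 + p.P ^ 2| ≤ 1.001 * p.P + |p.P1| := by
    have h2 : |p.P - p.P1 + p.P ^ 2| ≤ |p.P - p.P1| + |p.P ^ 2| := abs_add_le _ _
    have h3 : |p.P - p.P1| ≤ |p.P| + |p.P1| := abs_sub _ _
    rw [abs_of_nonneg h.P0] at h3
    rw [abs_of_nonneg (sq_nonneg p.P)] at h2
    have h4 : p.P ^ 2 ≤ 0.001 * p.P := by
      have := h.Ps; have := h.P0
      norm_num at *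
      nlinarith
    norm_num at *
    linarith
  have h5 : |16 * p.q * (p.P - p.P1 + p.P ^ 2)| ≤ 16.01 * (1.001 * p.P + |p.P1|) := by
    rw [abs_mul, abs_of_nonneg (by linarith [h.q0] : (0:ℝ) ≤ 16 * p.q)]
    apply mul_le_mul _ h1 (abs_nonneg _) (by norm_num)
    have := h.q1
    norm_num at *
    linarith
  have h6 : |p.P - 16 * p.q * (p.P - p.P1 + p.P ^ 2)| ≤ |p.P| + |16 * p.q * (p.P - p.P1 + p.P ^ 2)| :=
    abs_sub _ _
  rw [abs_of_nonneg h.P0] at h6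
  have h7 := h.P0
  have h8 := h.aP1
  linarith

theorem phom_s : 18 * p.P + 17 * |p.P1| ≤ 0.0001 := by
  have := h.Ps; have := h.P1s
  norm_num at *
  linarith

theorem phom_small : |p.ph - p.om| ≤ 0.0002 := by
  have h1 := h.ph_om
  have h2 : p.A * (18 * p.P + 17 * |p.P1|) ≤ 1.0002 * 0.0001 :=
    mul_le_mul h.A1 h.phom_s (by linarith [h.P0, h.aP1]) (by norm_num)
  norm_num at *
  linarith

/-- the bound of `|G|` -/
def _root_.Pool.Agent.RLim.H58.NPt.Gb (p : NPt) : ℝ := 0.50001 * p.f1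
  + 1.001 * (p.F * p.y * (0.0001 * p.P + 0.125 * |p.P1| + 0.125 * p.P * p.e))

theorem f1s : p.f1 ≤ 2 / 10 ^ 6 := by
  have := h.fu; have := h.FP_le; have := h.Ps; have := h.s1
  norm_num at *
  linarith

theorem n1_le : |p.n1| ≤ 0.0001 * p.P + 0.125 * |p.P1| := by
  unfold NPt.n1
  rw [abs_div, abs_of_pos (by norm_num : (0:ℝ) < 8), div_le_iff₀ (by norm_num)]
  have h1 := abs_add_le (p.f1 * p.P) (p.F * p.P1)
  rw [abs_mul, abs_mul, abs_of_nonneg h.f0, abs_of_nonneg h.P0, abs_of_pos h.F0] at h1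
  have h2 : p.F * |p.P1| ≤ |p.P1| := by nlinarith [h.F1, h.aP1]
  have h3 : p.f1 * p.P ≤ 2 / 10 ^ 6 * p.P := mul_le_mul_of_nonneg_right h.f1s h.P0
  have := h.P0
  norm_num at *
  linarith

theorem iN3 : 1 / p.N ^ 3 ≤ 1.001 := by
  rw [div_le_iff₀ (pow_pos h.N0 3)]
  have : (0.999999 : ℝ) ^ 3 ≤ p.N ^ 3 := pow_le_pow_left₀ (by norm_num) h.N9 3
  norm_num at *
  linarith

theorem G_le : |p.G| ≤ p.Gb := by
  unfold NPt.G NPt.Gb
  have hN2 : p.f1 / (2 * p.N ^ 2) = p.f1 * (1 / p.N ^ 2) / 2 := by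
    have := h.N0.ne'
    field_simp
  have hN3 : p.F * p.y * (p.n1 + p.n * p.e) / p.N ^ 3 =
      p.F * p.y * (p.n1 + p.n * p.e) * (1 / p.N ^ 3) := by ring
  refine (abs_add_le _ _).trans (add_le_add ?_ ?_)
  · rw [hN2, abs_of_nonneg (by have := h.f0; have := h.iN2'; positivity)]
    have := mul_le_mul_of_nonneg_left h.iN2s h.f0
    norm_num at *
    linarith [h.f0]
  · rw [hN3, abs_mul, abs_mul, abs_mul, abs_of_pos h.F0, abs_of_pos h.y0,
      abs_of_pos (by have := h.N0; positivity : (0:ℝ) < 1 / p.N ^ 3), mul_comm (1.001 : ℝ)]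
    have h1 : |p.n1 + p.n * p.e| ≤ 0.0001 * p.P + 0.125 * |p.P1| + 0.125 * p.P * p.e := by
      refine (abs_add_le _ _).trans (add_le_add h.n1_le ?_)
      rw [abs_of_nonneg (mul_nonneg h.n0 h.e0.le)]
      have := mul_le_mul_of_nonneg_right h.n_le h.e0.le
      norm_num at *
      linarith
    have hFy : 0 < p.F * p.y := mul_pos h.F0 h.y0
    have h2 := mul_le_mul_of_nonneg_left h1 hFy.le
    exact mul_le_mul h2 h.iN3 (by have := h.N0; positivity)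
      (mul_nonneg hFy.le (by have := h.P0; have := h.aP1; have := h.e0; positivity))

theorem Gb0 : 0 ≤ p.Gb := (abs_nonneg _).trans h.G_le

theorem Gb_le : p.Gb ≤ 0.17 * p.P + 0.13 * |p.P1| + p.sg / 10 ^ 6 := by
  unfold NPt.Gb
  have hFy : p.F * p.y ≤ 1 * 1.0001 := mul_le_mul h.F1 h.y1 h.y0.le (by norm_num)
  have h1 : 0.0001 * p.P + 0.125 * |p.P1| + 0.125 * p.P * p.e ≤
      0.1251 * p.P + 0.125 * |p.P1| := by nlinarith [h.P0, h.e1]
  have h2 : 0 ≤ 0.0001 * p.P + 0.125 * |p.P1| + 0.125 * p.P * p.e := by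
    have := h.P0; have := h.aP1; have := h.e0; positivity
  have h3 := mul_le_mul hFy h1 h2 (by norm_num)
  have h4 := h.fu
  have h5 := h.FP_le
  have h6 := h.P0
  have h7 := h.aP1
  have h8 := h.s0
  linarith

/-- the bound of `K` -/
theorem K_ge : p.P * (0.93 + 2 * p.e * (1 + p.e)) + 0.9 * |p.P1| - 70 * (p.sg / 10 ^ 6) ≤ p.K := by
  unfold NPt.K
  have hP := h.P0; have hq := h.q0; have he := h.e0; have hs := h.s0
  set s := p.sg / 10 ^ 6 with hsdef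
  have hs' : 0 ≤ s := by positivity
  have hP1 := h.P1l
  have hP2 := h.P2l
  -- quadratic terms
  have q1 := h.q1
  have hPs := h.Ps
  have hP1s := h.P1s
  have a1 : p.P ^ 2 * (1 + 16 * p.q * (1 + 2 * p.e)) ≤ 0.0002 * p.P := by
    have : 1 + 16 * p.q * (1 + 2 * p.e) ≤ 50 := by nlinarith [h.e1]
    have h2 : p.P ^ 2 * (1 + 16 * p.q * (1 + 2 * p.e)) ≤ p.P ^ 2 * 50 :=
      mul_le_mul_of_nonneg_left this (sq_nonneg _)
    norm_num at *
    nlinarith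
  have a2 : 16 * p.q * (3 * p.P * p.P1) ≤ 0.0001 * |p.P1| := by
    have h2 : 16 * p.q * (3 * p.P * p.P1) ≤ 3 * (16 * p.P * p.q) * |p.P1| := by
      have : 16 * p.q * (3 * p.P * p.P1) = 3 * (16 * p.P * p.q) * p.P1 := by ring
      rw [this]
      exact mul_le_mul_of_nonneg_left (le_abs_self _) (by have := h.Pq0; linarith)
    have h3 : 16 * p.P * p.q ≤ 0.000033 := by
      have : p.P * p.q ≤ 2 / 10 ^ 6 * 1.0001 := mul_le_mul hPs q1 hq.le (by norm_num)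
      norm_num at *
      linarith
    have h4 := mul_le_mul_of_nonneg_right h3 h.aP1
    have h5 := h.aP1
    linarith
  have a3 : 0 ≤ 16 * p.q * p.P ^ 3 := by positivity
  have a4 : 0 ≤ 16 * p.q * (p.P * p.e ^ 2 * (1 + p.e)) := by positivity
  -- P2
  have b1 : -(0.0158 * (p.P + |p.P1|)) - 17 * s ≤ 16 * p.q * p.P2 := by
    have h2 : 16 * p.q * (-(p.P + |p.P1|) / 1024 - s) ≤ 16 * p.q * p.P2 :=
      mul_le_mul_of_nonneg_left hP2 (by positivity)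
    have h3 : 16 * p.q ≤ 16.01 := by norm_num at *; linarith
    have h4 : 0 ≤ (p.P + |p.P1|) / 1024 + s := by have := h.aP1; positivity
    have h5 := mul_le_mul_of_nonneg_right h3 h4
    have := h.aP1
    norm_num at *
    nlinarith
  -- P1
  have c1 : 0.98 * |p.P1| - 0.05 * p.P - 51 * s ≤ p.P1 * (1 + 16 * p.q * (1 + 2 * p.e)) := by
    have h6 : 1 ≤ 1 + 16 * p.q * (1 + 2 * p.e) := by
      have : 0 ≤ 16 * p.q * (1 + 2 * p.e) := by positivity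
      linarith
    have h7 : 1 + 16 * p.q * (1 + 2 * p.e) ≤ 49.01 := by
      have : p.q * (1 + 2 * p.e) ≤ 1.0001 * 3 := mul_le_mul q1 (by linarith [h.e1]) (by positivity)
        (by norm_num)
      norm_num at *
      linarith
    rcases le_or_gt 0 p.P1 with h8 | h8
    · rw [abs_of_nonneg h8]
      nlinarith
    · rw [abs_of_neg h8]
      have h9 : p.P1 * 49.01 ≤ p.P1 * (1 + 16 * p.q * (1 + 2 * p.e)) :=
        mul_le_mul_of_nonpos_left h7 h8.le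
      norm_num at *
      linarith
  have hab := h.aP1
  have hK : p.P + p.P1 - p.P ^ 2 + 2 * p.P * p.e * (1 + p.e)
    + 16 * p.q * ((p.P1 - p.P ^ 2) * (1 + 2 * p.e) + (p.P2 - 3 * p.P * p.P1 + p.P ^ 3)
    + p.P * p.e ^ 2 * (1 + p.e)) = p.P + 2 * p.P * p.e * (1 + p.e)
      + p.P1 * (1 + 16 * p.q * (1 + 2 * p.e)) - p.P ^ 2 * (1 + 16 * p.q * (1 + 2 * p.e))
      + 16 * p.q * p.P2 - 16 * p.q * (3 * p.P * p.P1) + 16 * p.q * p.P ^ 3
      + 16 * p.q * (p.P * p.e ^ 2 * (1 + p.e)) := by ring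
  have hL : p.P * (0.93 + 2 * p.e * (1 + p.e)) = 0.93 * p.P + 2 * p.P * p.e * (1 + p.e) := by ring
  rw [hK, hL]
  linarith

end Ok

end NPt

end Pool.Agent.RLim.H58
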