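import Pool.Agent.Helper58_RL.Neck

/-!
# The pointwise inequality of the neck: lower bounds of the components (helper58, MP_62da59_gt)
-/

noncomputable section

namespace Pool.Agent.RLim.H58

set_option linter.unusedSectionVars false

namespace NPt

variable {p : NPt} (h : Ok p)

namespace Ok

include h

theorem x2q : p.x ^ 2 / p.q = p.y * (1 + p.e) := by
  rw [h.hx]
  unfold NPt.y
  have := h.q0.ne'
  field_simp
  ring

theorem iN1 : 1 / p.N ≤ 1.00001 := by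
  rw [div_le_iff₀ h.N0]
  have := h.N9
  norm_num at *
  linarith

theorem iN1' : 1 ≤ 1 / p.N := by
  rw [le_div_iff₀ h.N0]
  have := h.N1
  linarith

theorem FP0 : 0 ≤ p.F * p.P := mul_nonneg h.F0.le h.P0

theorem M11_1 : 0.12497 * (p.F * p.P * p.Z) - 0.253 * (p.F * p.P * p.A * (1 + p.e)) ≤
    p.n / (p.q * p.N) * (p.ct ^ 2 * (1 + p.e ^ 2 - p.om) - 2 * p.x ^ 2) := by
  have hq := h.q0
  have hN := h.N0
  have hn := h.n0
  have e1 : p.n / (p.q * p.N) * (p.ct ^ 2 * (1 + p.e ^ 2 - p.om) - 2 * p.x ^ 2) =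
      p.n * (1 / p.N) * (p.ct ^ 2 * (1 + p.e ^ 2 - p.om) / p.q) -
        2 * (p.n * (1 / p.N) * (p.x ^ 2 / p.q)) := by
    field_simp
  rw [e1, h.x2q]
  have hom := h.om_ge
  have h1 : 0.9998 * p.Z ≤ p.ct ^ 2 * (1 + p.e ^ 2 - p.om) / p.q := by
    unfold NPt.Z
    rw [mul_div_assoc', div_le_div_iff_of_pos_right hq]
    have := mul_le_mul_of_nonneg_left (by linarith [sq_nonneg p.e] :
      0.9998 * p.ta ≤ 1 + p.e ^ 2 - p.om) (sq_nonneg p.ct)
    linarith
  have hn1 : p.n ≤ p.n * (1 / p.N) := by nlinarith [h.iN1']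
  have hn2 : p.n * (1 / p.N) ≤ 1.00001 * p.n := by nlinarith [h.iN1]
  have h2 : p.n * (0.9998 * p.Z) ≤
      p.n * (1 / p.N) * (p.ct ^ 2 * (1 + p.e ^ 2 - p.om) / p.q) :=
    mul_le_mul hn1 h1 (by have := h.Z0; positivity) (by positivity)
  have h3 : p.y * (1 + p.e) ≤ 1.011 * p.A * (1 + p.e) :=
    mul_le_mul_of_nonneg_right h.y_le_A (by linarith [h.e0])
  have hA := h.A0
  have he := h.e0
  have hy := h.y0
  have h4 : p.n * (1 / p.N) * (p.y * (1 + p.e)) ≤ 1.00001 * p.n * (1.011 * p.A * (1 + p.e)) :=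
    mul_le_mul hn2 h3 (by positivity) (by positivity)
  have h5 : 0 ≤ p.F * p.P * p.A * (1 + p.e) := by have := h.FP0; positivity
  have h6 : 0 ≤ p.F * p.P * p.Z := by have := h.FP0; have := h.Z0; positivity
  have h7 : p.n * (0.9998 * p.Z) = 0.124975 * (p.F * p.P * p.Z) := by unfold NPt.n; ring
  have h8 : 1.00001 * p.n * (1.011 * p.A * (1 + p.e)) =
      0.12637626375 * (p.F * p.P * p.A * (1 + p.e)) := by unfold NPt.n; ring
  rw [h7] at h2
  rw [h8] at h4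
  linarith

theorem M11_2 : p.F * p.P * p.A * (0.93 + 2 * p.e * (1 + p.e)) + 0.9 * (p.F * p.A * |p.P1|)
    - 70.1 * (p.sg / 10 ^ 6) ≤ p.F / p.N ^ 2 * (p.A * p.K) := by
  have hA := h.A0
  have he := h.e0
  have hF := h.F0
  have hP := h.P0
  have hab := h.aP1
  have hs : 0 ≤ p.sg / 10 ^ 6 := by have := h.s0; positivity
  set s := p.sg / 10 ^ 6 with hsdef
  have e1 : p.F / p.N ^ 2 * (p.A * p.K) = p.F * (1 / p.N ^ 2) * p.A * p.K := by ring
  rw [e1]
  have hN2 := h.iN2'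
  have hN2' := h.iN2s
  have h0 : 0 ≤ p.F * (1 / p.N ^ 2) * p.A := by have := h.N0; positivity
  have h1 := mul_le_mul_of_nonneg_left h.K_ge h0
  rw [← hsdef] at h1
  set Q := p.P * (0.93 + 2 * p.e * (1 + p.e)) + 0.9 * |p.P1| with hQ
  have hQ0 : 0 ≤ Q := by positivity
  have h2 : p.F * p.A * Q ≤ p.F * (1 / p.N ^ 2) * p.A * Q := by
    have : p.F * p.A * Q * 1 ≤ p.F * p.A * Q * (1 / p.N ^ 2) :=
      mul_le_mul_of_nonneg_left hN2 (by positivity)
    linarith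
  have h3 : p.F * (1 / p.N ^ 2) * p.A ≤ 1.001 := by
    have h4 : p.F * (1 / p.N ^ 2) ≤ 1 * 1.000001 :=
      mul_le_mul h.F1 hN2' (by have := h.N0; positivity) (by norm_num)
    have h5 := mul_le_mul h4 h.A1 hA.le (by norm_num)
    norm_num at *
    linarith
  have h4 : p.F * (1 / p.N ^ 2) * p.A * (70 * s) ≤ 1.001 * (70 * s) :=
    mul_le_mul_of_nonneg_right h3 (by positivity)
  have h5 : p.F * p.A * Q = p.F * p.P * p.A * (0.93 + 2 * p.e * (1 + p.e))
      + 0.9 * (p.F * p.A * |p.P1|) := by rw [hQ]; ring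
  have h6 : p.F * (1 / p.N ^ 2) * p.A * (Q - 70 * s) = p.F * (1 / p.N ^ 2) * p.A * Q -
    p.F * (1 / p.N ^ 2) * p.A * (70 * s) := by ring
  linarith

theorem ph_le : p.ph ≤ p.om + 0.0002 := by
  have := (abs_le.1 h.phom_small).2
  linarith

theorem ph_ge : p.om - 0.0002 ≤ p.ph := by
  have := (abs_le.1 h.phom_small).1
  linarith

theorem om1 : p.om ≤ 1 := by
  have := h.om_ge; have := h.ta0
  linarith

theorem M11_3 : (3 - p.ph) * p.G ≤ 0.0949 * (p.F * p.P * p.A) + 0.00095 * (p.F * p.P * p.Z)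
    + p.F * p.A * (0.0004 * p.P + 0.3796 * |p.P1| + 0.3796 * p.P * p.e)
    + 1.51 * (p.sg / 10 ^ 6) := by
  have hA := h.A0
  have he := h.e0
  have hF := h.F0
  have hP := h.P0
  have hab := h.aP1
  have hs : 0 ≤ p.sg / 10 ^ 6 := by have := h.s0; positivity
  have hf := h.fu
  set s := p.sg / 10 ^ 6 with hsdef
  have h1 : (3 - p.ph) * p.G ≤ 3.0002 * p.Gb := by
    have h2 : 0 ≤ 3 - p.ph := by linarith [h.ph_le, h.om1]
    have h3 : 3 - p.ph ≤ 3.0002 := by linarith [h.ph_ge, h.om0]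
    exact (mul_le_mul_of_nonneg_left ((le_abs_self _).trans h.G_le) h2).trans
      (mul_le_mul_of_nonneg_right h3 h.Gb0)
  have h2 : p.F * p.P * 0.989 ≤ p.F * p.P * (p.A + 0.01 * p.Z) :=
    mul_le_mul_of_nonneg_left h.AZ h.FP0
  have h3 : p.F * p.y * (0.0001 * p.P + 0.125 * |p.P1| + 0.125 * p.P * p.e) ≤
      p.F * (1.011 * p.A) * (0.0001 * p.P + 0.125 * |p.P1| + 0.125 * p.P * p.e) :=
    mul_le_mul_of_nonneg_right (mul_le_mul_of_nonneg_left h.y_le_A hF.le) (by positivity)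
  have h4 : p.F * (1.011 * p.A) * (0.0001 * p.P + 0.125 * |p.P1| + 0.125 * p.P * p.e) =
      0.0001011 * (p.F * p.P * p.A) + 0.126375 * (p.F * p.A * |p.P1|)
        + 0.126375 * (p.F * p.P * p.A * p.e) := by ring
  have h5 : p.F * p.A * (0.0004 * p.P + 0.3796 * |p.P1| + 0.3796 * p.P * p.e) =
      0.0004 * (p.F * p.P * p.A) + 0.3796 * (p.F * p.A * |p.P1|)
        + 0.3796 * (p.F * p.P * p.A * p.e) := by ring
  have h6 : 0 ≤ p.F * p.P * p.A := by positivity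
  have h7 : 0 ≤ p.F * p.A * |p.P1| := by positivity
  have h8 : 0 ≤ p.F * p.P * p.A * p.e := by positivity
  have h9 : 0 ≤ p.F * p.P * p.Z := by have := h.Z0; positivity
  have h10 : p.F * p.P * (p.A + 0.01 * p.Z) = p.F * p.P * p.A + 0.01 * (p.F * p.P * p.Z) := by
    ring
  rw [h10] at h2
  rw [h4] at h3
  rw [h5]
  unfold NPt.Gb at h1
  linarith

/-- lower bound of `M11` -/
theorem M11_ge : 0.124 * (p.F * p.P * p.Z) + 0.58 * (p.F * p.P * p.A)
    + 0.52 * (p.F * p.A * |p.P1|) - 72 * (p.sg / 10 ^ 6) ≤ p.M11 := by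
  unfold NPt.M11
  have h1 := h.M11_1
  have h2 := h.M11_2
  have h3 := h.M11_3
  have hA := h.A0
  have he := h.e0
  have hF := h.F0
  have hP := h.P0
  have hs : 0 ≤ p.sg / 10 ^ 6 := by have := h.s0; positivity
  have hab := h.aP1
  have h6 : 0 ≤ p.F * p.P * p.A := by positivity
  have h7 : 0 ≤ p.F * p.A * |p.P1| := by positivity
  have h8 : 0 ≤ p.F * p.P * p.A * p.e := by positivity
  have h8' : 0 ≤ p.F * p.P * p.A * p.e ^ 2 := by positivity
  have h9 : 0 ≤ p.F * p.P * p.Z := by have := h.Z0; positivity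
  have e1 : p.F * p.P * p.A * (1 + p.e) = p.F * p.P * p.A + p.F * p.P * p.A * p.e := by ring
  have e2 : p.F * p.P * p.A * (0.93 + 2 * p.e * (1 + p.e)) = 0.93 * (p.F * p.P * p.A)
    + 2 * (p.F * p.P * p.A * p.e) + 2 * (p.F * p.P * p.A * p.e ^ 2) := by ring
  have e3 : p.F * p.A * (0.0004 * p.P + 0.3796 * |p.P1| + 0.3796 * p.P * p.e) =
      0.0004 * (p.F * p.P * p.A) + 0.3796 * (p.F * p.A * |p.P1|)
        + 0.3796 * (p.F * p.P * p.A * p.e) := by ring
  rw [e1] at h1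
  rw [e2] at h2
  rw [e3] at h3
  linarith

end Ok

end NPt

end Pool.Agent.RLim.H58
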