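import Pool.Agent.Helper58_RL.Neck2

/-!
# The pointwise inequality of the neck: the other components (helper58, MP_62da59_gt)
-/

noncomputable section

namespace Pool.Agent.RLim.H58

set_option linter.unusedSectionVars false

namespace NPt

variable {p : NPt} (h : Ok p)

namespace Ok

include h

theorem FN_le : p.F / p.N ^ 2 ≤ 1.000001 := by
  have e : p.F / p.N ^ 2 = p.F * (1 / p.N ^ 2) := by ring
  rw [e]
  have := mul_le_mul h.F1 h.iN2s (by have := h.N0; positivity) (by norm_num)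
  linarith

theorem FN0 : 0 < p.F / p.N ^ 2 := div_pos h.F0 (pow_pos h.N0 2)

/-- `1 - F/N² ≥ s - 0.27 P` -/
theorem oneF : (1 - p.F) - 0.27 * p.P ≤ 1 - p.F / p.N ^ 2 := by
  have e : p.F / p.N ^ 2 = p.F * (1 / p.N ^ 2) := by ring
  rw [e]
  have h1 := mul_le_mul_of_nonneg_left h.iN2 h.F0.le
  have h2 := h.FP_le
  linarith

theorem nx_le : p.n / (p.q * p.N) * p.x ^ 2 ≤ 0.13 * p.P := by
  have hq := h.q0
  have hN := h.N0
  have e1 : p.n / (p.q * p.N) * p.x ^ 2 = p.n * (1 / p.N) * (p.x ^ 2 / p.q) := by field_simp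
  rw [e1, h.x2q]
  have h1 : p.n * (1 / p.N) ≤ p.P / 8 * 1.00001 :=
    mul_le_mul h.n_le h.iN1 (by positivity) (by have := h.P0; positivity)
  have h2 : p.y * (1 + p.e) ≤ 1.0001 := by
    unfold NPt.y
    have : p.q * (1 - p.e) * (1 + p.e) = p.q - p.q * p.e ^ 2 := by ring
    rw [this]
    have := mul_nonneg h.q0.le (sq_nonneg p.e)
    linarith [h.q1]
  have hy := h.y0
  have he := h.e0
  have h3 := mul_le_mul h1 h2 (by positivity) (by have := h.P0; positivity)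
  have := h.P0
  linarith

/-- the common part of `M22` and `M33` -/
theorem common : (1 - p.F + p.sg) * 0.999 ≤ (2 - p.om) - p.F / p.N ^ 2 * (2 - p.ph)
    - p.n / (p.q * p.N) * p.x ^ 2 - p.G + p.sg - 0.001 * (1 - p.F + p.sg) + 0.001 * (1 - p.F + p.sg)
    := by
  have hP := h.P0
  have hab := h.aP1
  have e1 : (2 - p.om) - p.F / p.N ^ 2 * (2 - p.ph) =
      (2 - p.om) * (1 - p.F / p.N ^ 2) + p.F / p.N ^ 2 * (p.ph - p.om) := by ring
  have h1 : (1 - p.F) - 0.54 * p.P ≤ (2 - p.om) * (1 - p.F / p.N ^ 2) := by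
    have h2 := mul_le_mul_of_nonneg_left h.oneF (by linarith [h.om1] : (0:ℝ) ≤ 2 - p.om)
    have h3 : 1 * (1 - p.F) ≤ (2 - p.om) * (1 - p.F) :=
      mul_le_mul_of_nonneg_right (by linarith [h.om1]) (by linarith [h.F1])
    have h4 : (2 - p.om) * (0.27 * p.P) ≤ 2 * (0.27 * p.P) :=
      mul_le_mul_of_nonneg_right (by linarith [h.om0]) (by positivity)
    linarith
  have h2 : -(18.1 * p.P + 17.1 * |p.P1|) ≤ p.F / p.N ^ 2 * (p.ph - p.om) := by
    have h3 : |p.F / p.N ^ 2 * (p.ph - p.om)| ≤ 1.000001 * (p.A * (18 * p.P + 17 * |p.P1|)) := by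
      rw [abs_mul, abs_of_pos h.FN0]
      exact mul_le_mul h.FN_le h.ph_om (abs_nonneg _) (by norm_num)
    have h4 : p.A * (18 * p.P + 17 * |p.P1|) ≤ 1.0002 * (18 * p.P + 17 * |p.P1|) :=
      mul_le_mul_of_nonneg_right h.A1 (by positivity)
    have h5 := (abs_le.1 h3).1
    linarith
  have h3 := h.nx_le
  have h4 : p.G ≤ 0.17 * p.P + 0.13 * |p.P1| + p.sg / 10 ^ 6 :=
    (le_abs_self _).trans (h.G_le.trans h.Gb_le)
  have h5 := h.Pu
  have h6 := h.P1u
  have h7 := h.S0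
  have h8 := h.s0
  have h9 := h.F1
  rw [e1]
  linarith

theorem M33_ge : 0 ≤ p.M33 + p.sg := by
  unfold NPt.M33
  have := h.common
  have := h.S0
  linarith

theorem M22_ge : 32 * p.P * p.Z + 0.99 * (1 - p.F + p.sg) ≤ p.M22 + p.sg := by
  have h1 := h.common
  have h2 := h.S0
  have hq := h.q0
  have hN := h.N0
  have hn := h.n0
  have e1 : p.n / (p.q * p.N) * (p.x ^ 2 - p.e ^ 2 * p.ct ^ 2) =
      p.n / (p.q * p.N) * p.x ^ 2 - p.n / (p.q * p.N) * (p.e ^ 2 * p.ct ^ 2) := by ring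
  have h3 : 0 ≤ p.n / (p.q * p.N) * (p.e ^ 2 * p.ct ^ 2) := by positivity
  have h4 : 32 * p.P * p.Z ≤ 16 * p.P * (2 + p.e ^ 2) * (p.ct ^ 2 * p.ta / p.q) := by
    have : 16 * p.P * (2 + p.e ^ 2) * (p.ct ^ 2 * p.ta / p.q) =
      32 * p.P * p.Z + 16 * p.P * p.e ^ 2 * p.Z := by unfold NPt.Z; ring
    rw [this]
    have : 0 ≤ 16 * p.P * p.e ^ 2 * p.Z := by
      have := h.P0; have := h.Z0; positivity
    linarith
  unfold NPt.M22
  rw [e1]
  linarith

theorem M44_ge : 0 ≤ p.M44 + p.sg := by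
  have hP := h.P0
  have hab := h.aP1
  have hA := h.A0
  have hs := h.s0
  have hFN := h.FN0
  set Om := 1 - p.om with hOm
  have hOm0 : 0.9998 * p.ta ≤ Om := h.om_ge
  have hta := h.ta0
  have hOmp : 0 < Om := by linarith
  have hOm1 : Om ≤ 1 := by rw [hOm]; linarith [h.om0]
  have hAO : p.A ≤ 1.001 * Om := by linarith [h.A_le]
  have e1 : 2 * (1 - p.om) - 2 * (p.F / p.N ^ 2) * (1 - p.ph) =
      2 * (Om * (1 - p.F / p.N ^ 2)) + 2 * (p.F / p.N ^ 2 * (p.ph - p.om)) := by rw [hOm]; ring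
  have h1 : Om * ((1 - p.F) - 0.27 * p.P) ≤ Om * (1 - p.F / p.N ^ 2) :=
    mul_le_mul_of_nonneg_left h.oneF hOmp.le
  have h2 : -(Om * (18.1 * p.P + 17.1 * |p.P1|)) ≤ p.F / p.N ^ 2 * (p.ph - p.om) := by
    have h3 : |p.F / p.N ^ 2 * (p.ph - p.om)| ≤ 1.000001 * (p.A * (18 * p.P + 17 * |p.P1|)) := by
      rw [abs_mul, abs_of_pos h.FN0]
      exact mul_le_mul h.FN_le h.ph_om (abs_nonneg _) (by norm_num)
    have h4 : p.A * (18 * p.P + 17 * |p.P1|) ≤ 1.001 * Om * (18 * p.P + 17 * |p.P1|) :=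
      mul_le_mul_of_nonneg_right hAO (by positivity)
    have h5 := (abs_le.1 h3).1
    have h6 : 0 ≤ Om * p.P := by positivity
    have h7 : 0 ≤ Om * |p.P1| := by positivity
    have h8 : 1.001 * Om * (18 * p.P + 17 * |p.P1|) = 18.018 * (Om * p.P)
      + 17.017 * (Om * |p.P1|) := by ring
    rw [h8] at h4
    have h9 : Om * (18.1 * p.P + 17.1 * |p.P1|) = 18.1 * (Om * p.P)
      + 17.1 * (Om * |p.P1|) := by ring
    rw [h9]
    linarith
  have h3 : -(71 * (p.sg / 10 ^ 6)) ≤ p.F / p.N ^ 2 * (p.A * p.K) := by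
    have h4 := h.M11_2
    have h5 : 0 ≤ p.F * p.P * p.A * (0.93 + 2 * p.e * (1 + p.e)) := by
      have := h.F0; have := h.e0; positivity
    have h6 : 0 ≤ 0.9 * (p.F * p.A * |p.P1|) := by have := h.F0; positivity
    have h7 : 0 ≤ p.sg / 10 ^ 6 := by positivity
    linarith
  have h4 : (1 - p.ph) * p.G ≤ 1.01 * Om * (0.17 * p.P + 0.13 * |p.P1|)
      + 2 * (p.sg / 10 ^ 6) := by
    have h5 : |1 - p.ph| ≤ 1.01 * Om := by
      have h6 : |1 - p.ph| ≤ |1 - p.om| + |p.ph - p.om| := by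
        have := abs_sub (1 - p.om) (p.ph - p.om)
        have e : (1 - p.om) - (p.ph - p.om) = 1 - p.ph := by ring
        rwa [e] at this
      rw [← hOm, abs_of_pos hOmp] at h6
      have h7 := h.ph_om
      have h8 : p.A * (18 * p.P + 17 * |p.P1|) ≤ 1.001 * Om * 0.0001 :=
        mul_le_mul hAO h.phom_s (by positivity) (by positivity)
      linarith
    have h6 : (1 - p.ph) * p.G ≤ |1 - p.ph| * |p.G| := by
      rw [← abs_mul]; exact le_abs_self _
    have h7 : |1 - p.ph| * |p.G| ≤ 1.01 * Om * (0.17 * p.P + 0.13 * |p.P1| + p.sg / 10 ^ 6) :=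
      mul_le_mul h5 (h.G_le.trans h.Gb_le) (abs_nonneg _) (by positivity)
    have h8 : 1.01 * Om * (p.sg / 10 ^ 6) ≤ 2 * (p.sg / 10 ^ 6) :=
      mul_le_mul_of_nonneg_right (by linarith) (by positivity)
    have h9 : 1.01 * Om * (0.17 * p.P + 0.13 * |p.P1| + p.sg / 10 ^ 6) =
      1.01 * Om * (0.17 * p.P + 0.13 * |p.P1|) + 1.01 * Om * (p.sg / 10 ^ 6) := by ring
    rw [h9] at h7
    linarith
  have h5 : 0 ≤ p.n / (p.q * p.N) * p.ct ^ 2 * (1 - p.om) := by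
    have := h.n0; have := h.q0; have := h.N0
    rw [← hOm]
    positivity
  have h6 : 0 ≤ 16 * p.P * (2 + p.e ^ 2) * (p.ct ^ 2 * p.ta / p.q) := by
    have := h.q0
    positivity
  -- products with `Om`
  have k1 : Om * p.P ≤ Om * ((1 - p.F + p.sg) / 10 ^ 6) := mul_le_mul_of_nonneg_left h.Pu hOmp.le
  have k2 : Om * |p.P1| ≤ Om * ((1 - p.F + p.sg) / 10 ^ 6) :=
    mul_le_mul_of_nonneg_left h.P1u hOmp.le
  have k3 : Om * ((1 - p.F + p.sg) / 10 ^ 6) = (Om * (1 - p.F)) / 10 ^ 6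
    + (Om * p.sg) / 10 ^ 6 := by ring
  have k4 : Om * p.sg ≤ 1 * p.sg := mul_le_mul_of_nonneg_right hOm1 hs
  have k5 : 0 ≤ Om * (1 - p.F) := mul_nonneg hOmp.le (by linarith [h.F1])
  have k6 : 0 ≤ Om * p.sg := by positivity
  have k7 : 0 ≤ Om * p.P := by positivity
  have k8 : 0 ≤ Om * |p.P1| := by positivity
  have r1 : Om * ((1 - p.F) - 0.27 * p.P) = Om * (1 - p.F) - 0.27 * (Om * p.P) := by ring
  have r2 : Om * (18.1 * p.P + 17.1 * |p.P1|) = 18.1 * (Om * p.P)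
      + 17.1 * (Om * |p.P1|) := by ring
  have r3 : 1.01 * Om * (0.17 * p.P + 0.13 * |p.P1|) = 0.1717 * (Om * p.P)
      + 0.1313 * (Om * |p.P1|) := by ring
  rw [r1] at h1
  rw [r2] at h2
  rw [r3] at h4
  rw [k3] at k1 k2
  unfold NPt.M44
  rw [e1]
  linarith

end Ok

end NPt

end Pool.Agent.RLim.H58
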