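import Pool.Agent.Helper58_RL.Neck3

/-!
# The pointwise inequality of the neck: the mixed component (helper58, MP_62da59_gt)
-/

noncomputable section

namespace Pool.Agent.RLim.H58

set_option linter.unusedSectionVars false

theorem quad_nonneg {α γ U : ℝ} (hα : 0 ≤ α) (hγ : 0 ≤ γ) (hU : U ^ 2 ≤ α * γ) (a b : ℝ) :
    0 ≤ α * a ^ 2 + 2 * U * (a * b) + γ * b ^ 2 := by
  have h1 : (U * (a * b)) ^ 2 ≤ ((α * a ^ 2 + γ * b ^ 2) / 2) ^ 2 := by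
    have h2 : (U * (a * b)) ^ 2 ≤ α * γ * (a * b) ^ 2 := by
      rw [mul_pow]
      exact mul_le_mul_of_nonneg_right hU (sq_nonneg _)
    nlinarith [sq_nonneg (α * a ^ 2 - γ * b ^ 2)]
  have h3 : 0 ≤ (α * a ^ 2 + γ * b ^ 2) / 2 := by positivity
  have h4 := abs_le_of_sq_le_sq' h1 h3
  linarith [h4.1]

namespace NPt

variable {p : NPt} (h : Ok p)

namespace Ok

include h

/-- abbreviation for `1 - F + sg` -/
def _root_.Pool.Agent.RLim.H58.NPt.S (p : NPt) : ℝ := 1 - p.F + p.sg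

theorem caseAx : (p.ct / p.x * p.A) ^ 2 = p.Z * (p.ta / p.q) * ((1 - p.e) / (1 + p.e)) := by
  have hq := h.q0.ne'
  have he := h.e_lt
  have he0 := h.e0
  have h1 : p.x ^ 2 = p.q ^ 2 * ((1 - p.e) * (1 + p.e)) := by rw [h.hx]; ring
  have h2 : (1 - p.e) ≠ 0 := by linarith
  have h3 : (1 + p.e) ≠ 0 := by linarith
  have e1 : (p.ct / p.x * p.A) ^ 2 = p.ct ^ 2 * p.A ^ 2 / p.x ^ 2 := by
    have := h.x0.ne'
    field_simp
  rw [e1, h1]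
  unfold NPt.Z NPt.A
  field_simp

theorem polye : (1 - p.e) / (1 + p.e) * (1 + p.e + p.e ^ 2) ^ 2 ≤ 1.149 := by
  have he := h.e_lt
  have he0 := h.e0
  rw [div_mul_eq_mul_div, div_le_iff₀ (by linarith)]
  have h1 : 0 < 0.149 + 0.149 * p.e - p.e ^ 2 + p.e ^ 3 := by
    nlinarith [sq_nonneg (p.e - 0.55), mul_nonneg he0.le (sq_nonneg (p.e - 0.55))]
  have h2 : 0 ≤ p.e ^ 4 + p.e ^ 5 := by positivity
  nlinarith

theorem U_sq : (√p.F / p.N * (p.ct / p.x * p.A * (p.P * (1 + p.e + p.e ^ 2)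
    * (1 + 16 * (p.q * p.e))))) ^ 2 ≤ (0.12 * (p.F * p.P * p.Z)) * (16 * p.P * p.Z + 0.3 * p.S) := by
  have hF := h.F0
  have hP := h.P0
  have hZ := h.Z0
  have hq := h.q0
  have he := h.e_lt
  have he0 := h.e0
  have hta := h.ta0
  have e1 : (√p.F / p.N * (p.ct / p.x * p.A * (p.P * (1 + p.e + p.e ^ 2)
    * (1 + 16 * (p.q * p.e))))) ^ 2 = (√p.F) ^ 2 * (1 / p.N ^ 2) * ((p.ct / p.x * p.A) ^ 2 *
      (p.P ^ 2 * (1 + p.e + p.e ^ 2) ^ 2 * (1 + 16 * (p.q * p.e)) ^ 2)) := by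
    have := h.N0.ne'
    field_simp
  rw [e1, Real.sq_sqrt hF.le, h.caseAx]
  have e2 : p.F * (1 / p.N ^ 2) * (p.Z * (p.ta / p.q) * ((1 - p.e) / (1 + p.e)) *
      (p.P ^ 2 * (1 + p.e + p.e ^ 2) ^ 2 * (1 + 16 * (p.q * p.e)) ^ 2)) =
      (p.F * p.P ^ 2 * p.Z) * ((p.ta / p.q) * ((1 / p.N ^ 2) *
        (((1 - p.e) / (1 + p.e) * (1 + p.e + p.e ^ 2) ^ 2) * (1 + 16 * (p.q * p.e)) ^ 2))) := by
    ring
  rw [e2]
  have h1 : (1 + 16 * (p.q * p.e)) ^ 2 ≤ 1.3456 := by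
    have h2 : 1 + 16 * (p.q * p.e) ≤ 1.16 := by
      have := h.hd; have := h.b1
      norm_num at *
      linarith
    have h3 : 0 ≤ 1 + 16 * (p.q * p.e) := by positivity
    have := pow_le_pow_left₀ h3 h2 2
    norm_num at *
    linarith
  have h1' : 0 ≤ (1 - p.e) / (1 + p.e) * (1 + p.e + p.e ^ 2) ^ 2 := by
    have : 0 ≤ 1 - p.e := by linarith
    positivity
  have h2 : ((1 - p.e) / (1 + p.e) * (1 + p.e + p.e ^ 2) ^ 2) * (1 + 16 * (p.q * p.e)) ^ 2 ≤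
      1.149 * 1.3456 := mul_le_mul h.polye h1 (sq_nonneg _) (by norm_num)
  have h3 : (1 / p.N ^ 2) * (((1 - p.e) / (1 + p.e) * (1 + p.e + p.e ^ 2) ^ 2)
      * (1 + 16 * (p.q * p.e)) ^ 2) ≤ 1.000001 * (1.149 * 1.3456) :=
    mul_le_mul h.iN2s h2 (by positivity) (by norm_num)
  have h4 : (p.ta / p.q) * ((1 / p.N ^ 2) * (((1 - p.e) / (1 + p.e) * (1 + p.e + p.e ^ 2) ^ 2)
      * (1 + 16 * (p.q * p.e)) ^ 2)) ≤ (p.Z + 1.001) * (1.000001 * (1.149 * 1.3456)) :=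
    mul_le_mul h.taq h3 (by have := h.N0; positivity) (by positivity)
  have h5 : (p.F * p.P ^ 2 * p.Z) * ((p.ta / p.q) * ((1 / p.N ^ 2) *
        (((1 - p.e) / (1 + p.e) * (1 + p.e + p.e ^ 2) ^ 2) * (1 + 16 * (p.q * p.e)) ^ 2))) ≤
      (p.F * p.P ^ 2 * p.Z) * ((p.Z + 1.001) * (1.000001 * (1.149 * 1.3456))) :=
    mul_le_mul_of_nonneg_left h4 (by positivity)
  refine h5.trans ?_
  have h6 : 0 ≤ p.F * p.P ^ 2 * p.Z ^ 2 := by positivity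
  have h7 : (p.F * p.P * p.Z) * p.P ≤ (p.F * p.P * p.Z) * (p.S / 10 ^ 6) :=
    mul_le_mul_of_nonneg_left h.Pu (by positivity)
  have h8 : 0 ≤ (p.F * p.P * p.Z) * p.S := by
    have : 0 ≤ p.S := h.S0
    positivity
  nlinarith

theorem V_sq : (√p.F / p.N * (p.ct / p.x * p.A * (16 * p.q * ((p.P1 - p.P ^ 2)
    * (2 + p.e))))) ^ 2 ≤ (0.29 * (p.F * p.P * p.A) + 0.5 * (p.F * p.A * |p.P1|)) * (0.3 * p.S) := by
  have hF := h.F0
  have hP := h.P0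
  have hA := h.A0
  have hq := h.q0
  have he := h.e_lt
  have he0 := h.e0
  have hta := h.ta0
  have hab := h.aP1
  have hS : 0 ≤ p.S := h.S0
  have e1 : (√p.F / p.N * (p.ct / p.x * p.A * (16 * p.q * ((p.P1 - p.P ^ 2)
    * (2 + p.e))))) ^ 2 = (√p.F) ^ 2 * (1 / p.N ^ 2) * ((p.ct / p.x * p.A) ^ 2 *
      (256 * p.q ^ 2 * (2 + p.e) ^ 2 * (p.P1 - p.P ^ 2) ^ 2)) := by
    have := h.N0.ne'
    field_simp
    ring
  rw [e1, Real.sq_sqrt hF.le, h.caseAx]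
  have e2 : p.F * (1 / p.N ^ 2) * (p.Z * (p.ta / p.q) * ((1 - p.e) / (1 + p.e)) *
      (256 * p.q ^ 2 * (2 + p.e) ^ 2 * (p.P1 - p.P ^ 2) ^ 2)) =
      (p.F * p.A * (p.P1 - p.P ^ 2) ^ 2) * ((1 / p.N ^ 2) * (p.ct ^ 2 * (p.ta *
        (256 * ((2 + p.e) ^ 2 / (1 + p.e)))))) := by
    unfold NPt.Z NPt.A
    have h3 : (1 + p.e) ≠ 0 := by linarith
    have := hq.ne'
    field_simp
  rw [e2]
  have h1 : (2 + p.e) ^ 2 / (1 + p.e) ≤ 4.5 := by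
    rw [div_le_iff₀ (by linarith)]
    nlinarith
  have h1' : 0 ≤ (2 + p.e) ^ 2 / (1 + p.e) := by positivity
  have hct : p.ct ^ 2 ≤ 1 := by nlinarith [h.hct, sq_nonneg p.x]
  have h2 : p.ta * (256 * ((2 + p.e) ^ 2 / (1 + p.e))) ≤ 1.0002 * (256 * 4.5) :=
    mul_le_mul h.ta1 (by linarith) (by positivity) (by norm_num)
  have h3 : p.ct ^ 2 * (p.ta * (256 * ((2 + p.e) ^ 2 / (1 + p.e)))) ≤ 1 * (1.0002 * (256 * 4.5)) :=
    mul_le_mul hct h2 (by positivity) (by norm_num)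
  have h4 : (1 / p.N ^ 2) * (p.ct ^ 2 * (p.ta * (256 * ((2 + p.e) ^ 2 / (1 + p.e))))) ≤
      1.000001 * (1 * (1.0002 * (256 * 4.5))) :=
    mul_le_mul h.iN2s h3 (by positivity) (by norm_num)
  have h5 := mul_le_mul_of_nonneg_left h4 (by positivity : 0 ≤ p.F * p.A * (p.P1 - p.P ^ 2) ^ 2)
  refine h5.trans ?_
  have h6 : (p.P1 - p.P ^ 2) ^ 2 ≤ 2 * p.P1 ^ 2 + 2 * (p.P ^ 2) ^ 2 := by
    nlinarith [sq_nonneg (p.P1 + p.P ^ 2)]
  have h7 : p.P1 ^ 2 ≤ |p.P1| * (p.S / 10 ^ 6) := by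
    rw [← sq_abs, sq]
    exact mul_le_mul_of_nonneg_left h.P1u hab
  have h8 : (p.P ^ 2) ^ 2 ≤ p.P * (p.S / 10 ^ 6) := by
    have h9 : p.P * p.P ≤ p.P * (p.S / 10 ^ 6) := mul_le_mul_of_nonneg_left h.Pu hP
    have h10 : p.P ^ 2 ≤ 1 := by
      have h10' : p.P ≤ 1 := by
        have := h.Ps
        linarith
      nlinarith
    nlinarith [sq_nonneg p.P]
  have h11 : (p.P1 - p.P ^ 2) ^ 2 ≤ (2 * |p.P1| + 2 * p.P) * (p.S / 10 ^ 6) := by linarith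
  have h12 := mul_le_mul_of_nonneg_left h11 (by positivity : 0 ≤ p.F * p.A)
  have h13 : 0 ≤ p.F * p.A * |p.P1| * p.S := by positivity
  have h14 : 0 ≤ p.F * p.P * p.A * p.S := by positivity
  nlinarith

theorem W_sq : (√p.F / p.N * (p.n * p.x * p.ct / (p.q * p.N) * (2 - p.ph))) ^ 2 ≤
    (0.004 * (p.F * p.P * p.Z) + 0.28 * (p.F * p.P * p.A)) * (0.3 * p.S) := by
  have hF := h.F0
  have hP := h.P0
  have hA := h.A0
  have hZ := h.Z0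
  have hq := h.q0
  have hN := h.N0
  have he := h.e_lt
  have he0 := h.e0
  have hS : 0 ≤ p.S := h.S0
  have e1 : (√p.F / p.N * (p.n * p.x * p.ct / (p.q * p.N) * (2 - p.ph))) ^ 2 =
      (√p.F) ^ 2 * (p.n ^ 2 * ((1 / p.N ^ 2) * ((1 / p.N ^ 2) * ((p.x ^ 2 / p.q ^ 2) *
        (p.ct ^ 2 * (2 - p.ph) ^ 2))))) := by
    field_simp
  rw [e1, Real.sq_sqrt hF.le]
  have hct : p.ct ^ 2 ≤ 1 := by nlinarith [h.hct, sq_nonneg p.x]
  have hxq : p.x ^ 2 / p.q ^ 2 ≤ 1 := by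
    rw [div_le_iff₀ (by positivity), h.hx]
    nlinarith [sq_nonneg p.q, sq_nonneg p.e, mul_nonneg (sq_nonneg p.q) (sq_nonneg p.e)]
  have hxq0 : 0 ≤ p.x ^ 2 / p.q ^ 2 := by positivity
  have hph : (2 - p.ph) ^ 2 ≤ 4.01 := by
    have h1 : 2 - p.ph ≤ 2.0002 := by linarith [h.ph_ge, h.om0]
    have h2 : 0 ≤ 2 - p.ph := by linarith [h.ph_le, h.om1]
    have := pow_le_pow_left₀ h2 h1 2
    norm_num at *
    linarith
  have h1 : p.ct ^ 2 * (2 - p.ph) ^ 2 ≤ 1 * 4.01 := mul_le_mul hct hph (sq_nonneg _) (by norm_num)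
  have h2 : (p.x ^ 2 / p.q ^ 2) * (p.ct ^ 2 * (2 - p.ph) ^ 2) ≤ 1 * (1 * 4.01) :=
    mul_le_mul hxq h1 (by positivity) (by norm_num)
  have h3 : (1 / p.N ^ 2) * ((p.x ^ 2 / p.q ^ 2) * (p.ct ^ 2 * (2 - p.ph) ^ 2)) ≤
      1.000001 * (1 * (1 * 4.01)) := mul_le_mul h.iN2s h2 (by positivity) (by norm_num)
  have h4 : (1 / p.N ^ 2) * ((1 / p.N ^ 2) * ((p.x ^ 2 / p.q ^ 2) * (p.ct ^ 2 * (2 - p.ph) ^ 2))) ≤
      1.000001 * (1.000001 * (1 * (1 * 4.01))) :=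
    mul_le_mul h.iN2s h3 (by positivity) (by norm_num)
  have hn2 : p.n ^ 2 ≤ p.P ^ 2 / 64 := by
    have := pow_le_pow_left₀ h.n0 h.n_le 2
    linarith
  have h5 : p.n ^ 2 * ((1 / p.N ^ 2) * ((1 / p.N ^ 2) * ((p.x ^ 2 / p.q ^ 2) *
      (p.ct ^ 2 * (2 - p.ph) ^ 2)))) ≤ p.P ^ 2 / 64 * (1.000001 * (1.000001 * (1 * (1 * 4.01)))) :=
    mul_le_mul hn2 h4 (by positivity) (by positivity)
  have h6 := mul_le_mul_of_nonneg_left h5 hF.le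
  refine h6.trans ?_
  have h7 : p.F * p.P * 0.989 ≤ p.F * p.P * (p.A + 0.01 * p.Z) :=
    mul_le_mul_of_nonneg_left h.AZ h.FP0
  have h8 : (p.F * p.P) * p.P ≤ (p.F * p.P) * (p.S / 10 ^ 6) :=
    mul_le_mul_of_nonneg_left h.Pu h.FP0
  have h9 := mul_le_mul_of_nonneg_right h7 hS
  have h10 : 0 ≤ p.F * p.P * p.Z * p.S := by positivity
  have h11 : 0 ≤ p.F * p.P * p.S := by have := h.FP0; positivity
  nlinarith

theorem M12_eq : p.M12 = √p.F / p.N * (p.ct / p.x * p.A * (p.P * (1 + p.e + p.e ^ 2)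
    * (1 + 16 * (p.q * p.e)))) + √p.F / p.N * (p.ct / p.x * p.A * (16 * p.q * ((p.P1 - p.P ^ 2)
    * (2 + p.e)))) + -(√p.F / p.N * (p.n * p.x * p.ct / (p.q * p.N) * (2 - p.ph))) := by
  unfold NPt.M12
  ring

/-- **the `2 × 2` block** -/
theorem block (a b : ℝ) : 0 ≤ (p.M11 + p.sg) * a ^ 2 + 2 * p.M12 * (a * b)
    + (p.M22 + p.sg) * b ^ 2 := by
  have hF := h.F0
  have hP := h.P0
  have hA := h.A0
  have hZ := h.Z0
  have hab := h.aP1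
  have hS : 0 ≤ p.S := h.S0
  have hs := h.s0
  have q1 := quad_nonneg (by positivity) (by positivity) h.U_sq a b
  have q2 := quad_nonneg (by positivity) (by positivity) h.V_sq a b
  have q3 := quad_nonneg (by positivity) (by positivity) ((neg_sq _).trans_le h.W_sq) a b
  have h1 : 0.12 * (p.F * p.P * p.Z) + (0.29 * (p.F * p.P * p.A) + 0.5 * (p.F * p.A * |p.P1|))
      + (0.004 * (p.F * p.P * p.Z) + 0.28 * (p.F * p.P * p.A)) ≤ p.M11 + p.sg := by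
    have := h.M11_ge
    have h2 : 0 ≤ p.F * p.P * p.A := by positivity
    have h3 : 0 ≤ p.F * p.A * |p.P1| := by positivity
    linarith
  have h2 : (16 * p.P * p.Z + 0.3 * p.S) + 0.3 * p.S + 0.3 * p.S ≤ p.M22 + p.sg := by
    have h3 := h.M22_ge
    have h4 : 0 ≤ p.P * p.Z := by positivity
    have h5 : p.S = 1 - p.F + p.sg := rfl
    rw [h5] at hS ⊢
    linarith
  have h3 := mul_le_mul_of_nonneg_right h1 (sq_nonneg a)
  have h4 := mul_le_mul_of_nonneg_right h2 (sq_nonneg b)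
  rw [h.M12_eq]
  linarith

end Ok

end NPt

end Pool.Agent.RLim.H58
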