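import Pool.Agent.Helper58_RL.Gen

/-!
# The whole neck (helper58, MP_62da59_gt)
-/

noncomputable section

open scoped ContDiff Topology RealInnerProductSpace
set_option maxSynthPendingDepth 3
open Set

namespace Pool.Agent.RLim.H58

open Pool.Agent.RF Pool.Agent.SecondKind Prf Prof

theorem dl_eq_zero {g : ℝ → ℝ} {c a R : ℝ} (h : ∀ S, a ≤ S → g S = c) (hR : a < R) :
    dl g R = 0 := by
  unfold dl
  have h1 : g =ᶠ[𝓝 R] fun _ => c := by
    filter_upwards [Ioi_mem_nhds hR] with S hS using h S (le_of_lt hS)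
  rw [h1.deriv_eq]
  simp

theorem dl_eq_zero' {g : ℝ → ℝ} {c a : ℝ} (h : ∀ S, a ≤ S → g S = c) :
    ∀ S, a < S → dl g S = 0 := fun _ hS => dl_eq_zero h hS

theorem norm_ray {R : ℝ} (hR : 0 < R) : ‖(WithLp.toLp 2 ![R, 0, 0, 0] : E4)‖ = R := by
  rw [EuclideanSpace.norm_eq, Fin.sum_univ_four]
  simp
  exact Real.sqrt_sq hR.le

/-- the hypotheses with slack `0` beyond the radius where the profiles are constant -/
theorem hyp_out {q : Prof} {r L : ℝ} (hr0 : 0 < r) (hr1 : r < 1)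
    (h2 : ∀ R, L / 4 ≤ R → q.F R = 1 ∧ q.β R = r ∧ q.P R = 0 ∧ q.n R = 0 ∧ q.c R = 0)
    {δ : ℝ} {X : E4} (hX : L / 4 < ‖X‖) : (q.np δ X).hyp 0 := by
  obtain ⟨b1, b2, b3, b4, b5⟩ := h2 ‖X‖ hX.le
  have f0 : dl q.F ‖X‖ = 0 := dl_eq_zero (fun S hS => (h2 S hS).1) hX
  have p0 : dl q.P ‖X‖ = 0 := dl_eq_zero (fun S hS => (h2 S hS).2.2.1) hX
  have n0 : dl q.n ‖X‖ = 0 := dl_eq_zero (fun S hS => (h2 S hS).2.2.2.1) hX
  have c0 : dl q.c ‖X‖ = 0 := dl_eq_zero (fun S hS => (h2 S hS).2.2.2.2) hX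
  have hmid : (L / 4 + ‖X‖) / 2 < ‖X‖ := by linarith
  have hmid' : L / 4 < (L / 4 + ‖X‖) / 2 := by linarith
  have p2 : dl (dl q.P) ‖X‖ = 0 := dl_eq_zero (a := (L / 4 + ‖X‖) / 2) (c := 0)
    (fun S hS => dl_eq_zero (fun S hS => (h2 S hS).2.2.1) (lt_of_lt_of_le hmid' hS)) hmid
  have c2 : dl (dl q.c) ‖X‖ = 0 := dl_eq_zero (a := (L / 4 + ‖X‖) / 2) (c := 0)
    (fun S hS => dl_eq_zero (fun S hS => (h2 S hS).2.2.2.2) (lt_of_lt_of_le hmid' hS)) hmid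
  unfold NP.hyp Prof.np
  simp only
  rw [b1, b2, b3, b4, b5, f0, p0, n0, c0, p2, c2]
  norm_num
  exact ⟨hr0, hr1.le⟩

theorem dense_gen {X : E4} {U : Set E4} (hU : IsOpen U) (hX : X ∈ U) :
    X ∈ closure (U ∩ {X : E4 | (X 0 ≠ 0 ∨ X 1 ≠ 0) ∧ (X 2 ≠ 0 ∨ X 3 ≠ 0)}) := by
  rw [Metric.mem_closure_iff]
  intro ε' hε'
  obtain ⟨ε1, hε1, hb⟩ := Metric.isOpen_iff.1 hU X hX
  obtain ⟨ε, hε, hεε', hεε1⟩ : ∃ ε, 0 < ε ∧ ε ≤ ε' ∧ ε ≤ ε1 :=
    ⟨min ε' ε1, lt_min hε' hε1, min_le_left _ _, min_le_right _ _⟩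
  have hv : ∃ t : ℝ, 0 < t ∧ t < ε / 2 ∧ X 0 + t ≠ 0 ∧ X 2 + t ≠ 0 := by
    by_cases h1 : X 0 + ε / 4 ≠ 0 ∧ X 2 + ε / 4 ≠ 0
    · exact ⟨ε / 4, by linarith, by linarith, h1.1, h1.2⟩
    by_cases h2 : X 0 + ε / 8 ≠ 0 ∧ X 2 + ε / 8 ≠ 0
    · exact ⟨ε / 8, by linarith, by linarith, h2.1, h2.2⟩
    refine ⟨ε / 16, by linarith, by linarith, ?_, ?_⟩
    · intro h3
      have a1 : X 0 + ε / 4 ≠ 0 := by intro h; linarith
      have a2 : X 0 + ε / 8 ≠ 0 := by intro h; linarith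
      have b1 : X 2 + ε / 4 = 0 := by
        by_contra h; exact h1 ⟨a1, h⟩
      have b2 : X 2 + ε / 8 = 0 := by
        by_contra h; exact h2 ⟨a2, h⟩
      linarith
    · intro h3
      have a1 : X 2 + ε / 4 ≠ 0 := by intro h; linarith
      have a2 : X 2 + ε / 8 ≠ 0 := by intro h; linarith
      have b1 : X 0 + ε / 4 = 0 := by
        by_contra h; exact h1 ⟨h, a1⟩
      have b2 : X 0 + ε / 8 = 0 := by
        by_contra h; exact h2 ⟨h, a2⟩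
      linarith
  obtain ⟨t, ht, ht2, h0, h2⟩ := hv
  have hdist : dist X (X + WithLp.toLp 2 ![t, 0, t, 0]) < ε := by
    rw [dist_eq_norm, EuclideanSpace.norm_eq, Real.sqrt_lt' hε, Fin.sum_univ_four]
    simp
    nlinarith
  refine ⟨X + WithLp.toLp 2 ![t, 0, t, 0], ⟨?_, ?_, ?_⟩, lt_of_lt_of_le hdist hεε'⟩
  · apply hb
    rw [Metric.mem_ball, dist_comm]
    exact lt_of_lt_of_le hdist hεε1
  · left
    simpa using h0
  · left
    simpa using h2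

theorem neck (hA : PolAStmt) (hC : PolCStmt) (hprof : ProfStmt) (hNM : NeckMetricStmt)
    (hcont : ContStmt) : NeckStmt := by
  intro κ hκ0 hκ1
  obtain ⟨r, hr0, hr1, H⟩ := hprof κ hκ0 hκ1
  refine ⟨r, (r / 4) ^ 2, hr0, hr1, by positivity, ?_⟩
  intro η hη0 hη1
  obtain ⟨L, hL, q, hok, hβ, hF, hin, hout, hhyp⟩ := H η hη0 hη1
  have hL0 : 0 < L := by linarith
  have hn : ∀ R, 0 < R → q.n R = q.F R * q.P R / 8 := by
    intro R hR
    rcases le_or_gt R L with h | h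
    · have h1 := hhyp 1 (WithLp.toLp 2 ![R, 0, 0, 0]) (by
        intro h0
        have := norm_ray hR
        rw [h0, norm_zero] at this
        linarith) (by rw [norm_ray hR]; exact h)
      obtain ⟨-, -, -, -, -, -, -, -, -, -, -, -, h2, -⟩ := h1
      have h3 : q.n ‖(WithLp.toLp 2 ![R, 0, 0, 0] : E4)‖ = q.F ‖(WithLp.toLp 2 ![R, 0, 0, 0] : E4)‖
        * q.P ‖(WithLp.toLp 2 ![R, 0, 0, 0] : E4)‖ / 8 := h2
      rw [norm_ray hR] at h3
      exact h3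
    · obtain ⟨h1, h2, h3, h4, h5⟩ := hout R (by linarith)
      rw [h3, h4]; ring
  have hc : ∀ R, 0 < R → q.c R = 16 * q.P R := by
    intro R hR
    rcases le_or_gt R L with h | h
    · have h1 := hhyp 1 (WithLp.toLp 2 ![R, 0, 0, 0]) (by
        intro h0
        have := norm_ray hR
        rw [h0, norm_zero] at this
        linarith) (by rw [norm_ray hR]; exact h)
      obtain ⟨-, -, -, -, -, -, -, -, -, -, -, -, -, -, h2, -⟩ := h1
      have h3 : q.c ‖(WithLp.toLp 2 ![R, 0, 0, 0] : E4)‖ =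
        16 * q.P ‖(WithLp.toLp 2 ![R, 0, 0, 0] : E4)‖ := h2
      rw [norm_ray hR] at h3
      exact h3
    · obtain ⟨h1, h2, h3, h4, h5⟩ := hout R (by linarith)
      rw [h3, h5]; ring
  refine ⟨L, hL, r / 50, by positivity, ?_⟩
  intro δ hδ hδ1
  obtain ⟨hM, hb⟩ := hNM q hok (fun R hR => (hβ R hR).2) (fun R hR => (hF R hR).2) δ hδ
  refine ⟨q.neck δ, hM, ?_, ?_, ?_, ?_⟩
  · intro X hX hX3
    obtain ⟨h1, h2, h3, h4, h5⟩ := hin ‖X‖ (norm_pos_iff.2 hX) hX3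
    have hl : q.lapse δ X = 1 := by
      unfold lapse
      rw [h4]; ring
    have hH : q.HH δ X = 0 := by
      unfold HH
      rw [h2, h5]; ring
    unfold Prof.neck
    rw [hl, hH, h1, one_pow]
  · intro X hX
    obtain ⟨h1, h2, h3, h4, h5⟩ := hout ‖X‖ hX
    unfold bg Prof.neck Prof.lapse Prof.HH Prof.Bh bgP
    rw [h1, h2, h4, h5]
  · intro X hX2 hXL V
    have hU : IsOpen {X : E4 | 2 < ‖X‖} := isOpen_lt continuous_const continuous_norm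
    have hsub : {X : E4 | 2 < ‖X‖} ⊆ Om (Fin 4) := by
      intro Y hY h0
      rw [Set.mem_ofPred_eq, h0, norm_zero] at hY
      linarith
    have hMU : IsMetricOn (q.neck δ) {X : E4 | 2 < ‖X‖} :=
      ⟨hU, hM.smooth.mono hsub, fun x hx => hM.symm x (hsub hx), fun x hx => hM.pos x (hsub hx)⟩
    refine hcont (Fin 4) (q.neck δ) {X : E4 | 2 < ‖X‖}
      {X : E4 | (X 0 ≠ 0 ∨ X 1 ≠ 0) ∧ (X 2 ≠ 0 ∨ X 3 ≠ 0)} (η / L ^ 2) hMU
      (fun Y hY => dense_gen hU hY) ?_ X hX2 V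
    rintro Y ⟨hY2, hY01, hY23⟩ W
    have hY2' : 2 < ‖Y‖ := hY2
    have hY0 : Y ≠ 0 := hsub hY2
    have hd : δ / ‖Y‖ ≤ q.β ‖Y‖ / 100 := by
      have h1 := (hβ ‖Y‖ (by linarith)).1
      rw [div_le_iff₀ (by linarith)]
      nlinarith
    have hGpos : 0 ≤ q.neck δ Y W W := by
      have := (hb r hr0 (fun R hR => (hβ R hR).1) κ hκ0 (fun R hR => (hF R hR).1) Y hY0 W).1
      refine le_trans ?_ this
      positivity
    rcases le_or_gt ‖Y‖ L with h | h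
    · have h1 := hhyp δ Y hY0 h
      have hμ1 : η * ‖Y‖ ^ 2 / L ^ 2 ≤ 1 := by
        rw [div_le_one (by positivity)]
        have : ‖Y‖ ^ 2 ≤ L ^ 2 := by gcongr
        nlinarith [sq_nonneg ‖Y‖]
      have h2 := genRic hA hC q hok hn hc hδ hM (by positivity) hμ1 hY01 hY23 h1 hd W
      have h3 : η * ‖Y‖ ^ 2 / L ^ 2 / ‖Y‖ ^ 2 = η / L ^ 2 := by
        field_simp
      rw [h3] at h2
      exact h2
    · have h1 := hyp_out (δ := δ) hr0 hr1 hout (X := Y) (by linarith)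
      have h2 := genRic hA hC q hok hn hc hδ hM le_rfl zero_le_one hY01 hY23 h1 hd W
      refine le_trans ?_ h2
      have : 0 ≤ η / L ^ 2 * q.neck δ Y W W := by positivity
      simp only [zero_div, neg_zero, zero_mul]
      linarith
  · intro X hX V
    exact hb r hr0 (fun R hR => (hβ R hR).1) κ hκ0 (fun R hR => (hF R hR).1) X hX V

end Pool.Agent.RLim.H58
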