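import Pool.Agent.Helper58_RL.Ric

/-!
# The Ricci tensor of the metric of the neck: closed formulas (helper58, MP_62da59_gt)
-/

noncomputable section

open scoped ContDiff Topology
open Set Filter

namespace Pool.Agent.RLim.H58

open Pool.Agent.SecondKind

set_option linter.unusedSectionVars false

/-- the curvature of the smoothing -/
def NPt.kap (p : NPt) : ℝ := 3 * (1 - p.bt) * p.e ^ 3 / (p.q ^ 2 * p.b)

namespace Prf

variable (π : Prf) {δ : ℝ} (hδ : 0 < δ) (sg : ℝ) {y : Fin 4 → ℝ} (hy : y ∈ π.VV δ)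

include hδ hy

theorem np_y : (π.npt δ sg y).y = qq δ y - dd δ y := by
  unfold NPt.y npt
  have := ee_mul hδ y
  simp only
  linarith

theorem np_n : (π.npt δ sg y).n = π.n (y 0) := rfl
theorem np_n1 : (π.npt δ sg y).n1 = π.n1 (y 0) := rfl
theorem np_m : (π.npt δ sg y).m = π.m (y 0) := rfl
theorem np_m1 : (π.npt δ sg y).m1 = π.m1 (y 0) := rfl

theorem np_N : (π.npt δ sg y).N = π.NN δ y := by
  unfold NPt.N NN
  rw [π.np_y hδ sg hy, π.np_n hδ sg hy]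
  rfl

theorem np_b : (π.npt δ sg y).b = π.BB δ y := by
  unfold NPt.b BB
  rw [π.np_y hδ sg hy, π.np_m hδ sg hy]
  rfl

theorem np_ph : π.B0 δ y / π.BB δ y = -(π.npt δ sg y).ph := by
  unfold NPt.ph
  rw [π.np_b hδ sg hy, π.np_m hδ sg hy, π.np_m1 hδ sg hy]
  unfold B0 npt
  ring

theorem np_om : (1 - ee δ y ^ 2) * (π.L1 δ y / π.BB δ y) = (π.npt δ sg y).om := by
  unfold NPt.om
  rw [π.np_b hδ sg hy, π.np_m hδ sg hy]
  unfold L1 npt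
  ring

/-- `G` -/
theorem np_G : π.f (y 0) / π.NN δ y ^ 2 * (π.f1 (y 0) / (2 * π.f (y 0)) - π.N0 δ y / π.NN δ y) =
    (π.npt δ sg y).G := by
  unfold NPt.G
  rw [π.np_N hδ sg hy, π.np_n hδ sg hy, π.np_n1 hδ sg hy, π.np_y hδ sg hy]
  have h1 := (π.f0 (y 0)).ne'
  have h2 := hy.2.1.ne'
  unfold N0 npt
  field_simp
  ring

theorem e10 : Real.exp (2 * (π.ww δ 1 y - π.ww δ 0 y)) = π.f (y 0) / π.NN δ y ^ 2 := by
  have h1 := π.f0 (y 0)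
  have h2 := hy.2.1
  have : 2 * (π.ww δ 1 y - π.ww δ 0 y) = Real.log (π.f (y 0)) - 2 * Real.log (π.NN δ y) := by
    have e1 : π.ww δ 1 y = y 0 := rfl
    have e0 : π.ww δ 0 y = y 0 + Real.log (π.NN δ y) - 1 / 2 * Real.log (π.f (y 0)) := rfl
    rw [e1, e0]
    ring
  rw [this, Real.exp_sub, Real.exp_log h1, two_mul, Real.exp_add, Real.exp_log h2, sq]

theorem e01 : Real.exp (2 * (π.ww δ 0 y - π.ww δ 1 y)) = π.NN δ y ^ 2 / π.f (y 0) := by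
  have h := π.e10 hδ hy
  have : 2 * (π.ww δ 0 y - π.ww δ 1 y) = -(2 * (π.ww δ 1 y - π.ww δ 0 y)) := by ring
  rw [this, Real.exp_neg, h, inv_div]

/-- the values of the derivatives, for rewriting -/
theorem vals : pd 0 (π.ww δ 0) y = 1 + π.N0 δ y / π.NN δ y - π.f1 (y 0) / (2 * π.f (y 0)) ∧
    pd 1 (π.ww δ 0) y = π.N1 δ y / π.NN δ y ∧
    pd 1 (pd 1 (π.ww δ 0)) y = π.N11 δ y / π.NN δ y - (π.N1 δ y / π.NN δ y) ^ 2 := by
  obtain ⟨g, hg⟩ := π.D_w01 hδ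
  exact ⟨(π.D_w0 hδ).pd0 hy, (π.D_w0 hδ).pd1 hy,
    ((π.D_w0 hδ).pdd' (π.VV_open hδ) hg hy).2⟩

theorem vals1 : pd 0 (π.ww δ 1) y = 1 ∧ pd 1 (π.ww δ 1) y = 0 ∧ pd 0 (pd 0 (π.ww δ 1)) y = 0 := by
  exact ⟨(π.D_w1 hδ).pd0 hy, (π.D_w1 hδ).pd1 hy,
    ((π.D_w1 hδ).pdd (π.VV_open hδ) (D2.const 1) hy).1⟩

theorem vals2 : pd 0 (π.ww δ 2) y = 1 ∧ pd 1 (π.ww δ 2) y = -(Real.sin (y 1) / Real.cos (y 1)) ∧
    pd 0 (pd 0 (π.ww δ 2)) y = 0 ∧ pd 0 (pd 1 (π.ww δ 2)) y = 0 ∧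
    pd 1 (pd 1 (π.ww δ 2)) y = -(1 / Real.cos (y 1) ^ 2) := by
  obtain ⟨g, hg, hg1⟩ := π.D_w21 hδ
  have h := (π.D_w2 hδ).pdd' (π.VV_open hδ) hg hy
  exact ⟨(π.D_w2 hδ).pd0 hy, (π.D_w2 hδ).pd1 hy,
    ((π.D_w2 hδ).pdd (π.VV_open hδ) (D2.const 1) hy).1, h.1, h.2.trans (hg1 y hy)⟩

theorem vals3 : pd 0 (π.ww δ 3) y = 1 + π.B0 δ y / π.BB δ y ∧
    pd 1 (π.ww δ 3) y = Real.cos (y 1) / Real.sin (y 1) + π.B1 δ y / π.BB δ y ∧
    pd 0 (pd 0 (π.ww δ 3)) y = π.B00 δ y / π.BB δ y - (π.B0 δ y / π.BB δ y) ^ 2 ∧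
    pd 0 (pd 1 (π.ww δ 3)) y =
      π.B01 δ y / π.BB δ y - π.B0 δ y / π.BB δ y * (π.B1 δ y / π.BB δ y) ∧
    pd 1 (pd 1 (π.ww δ 3)) y =
      -(1 / Real.sin (y 1) ^ 2) + π.B11 δ y / π.BB δ y - (π.B1 δ y / π.BB δ y) ^ 2 := by
  obtain ⟨g, hg⟩ := π.D_w30 hδ
  have h := (π.D_w3 hδ).pdd' (π.VV_open hδ) (π.D_w31 hδ) hy
  exact ⟨(π.D_w3 hδ).pd0 hy, (π.D_w3 hδ).pd1 hy,
    ((π.D_w3 hδ).pdd (π.VV_open hδ) hg hy).1, h.1, h.2⟩

/-- `(2-ω) + ...` from the second derivative in `t` -/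
theorem idB11 : -(2 * (Real.cos (y 1) / Real.sin (y 1)) * (π.B1 δ y / π.BB δ y))
    - π.B11 δ y / π.BB δ y = -(π.npt δ sg y).om + (π.npt δ sg y).kap * Real.cos (y 1) ^ 2
    + 16 * π.P (y 0) * (2 + ee δ y ^ 2) *
      (Real.cos (y 1) ^ 2 * (π.npt δ sg y).ta / qq δ y) := by
  have h1 := (UU_sin hy.1).ne'
  have h2 := hy.2.2.ne'
  have h3 := (qq_pos hδ y).ne'
  rw [← π.np_om hδ sg hy]
  unfold NPt.kap NPt.ta
  rw [π.np_b hδ sg hy]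
  unfold B1 B11 L1 m npt
  simp only
  field_simp
  ring

theorem ric11 : ricci (dg (π.ww δ)) 1 1 y =
    (π.npt δ sg y).kap * Real.cos (y 1) ^ 2 + (π.npt δ sg y).M22 := by
  obtain ⟨a1, a2, a3⟩ := π.vals hδ hy
  obtain ⟨b1, b2, b3⟩ := π.vals1 hδ hy
  obtain ⟨c1, c2, c3, c4, c5⟩ := π.vals2 hδ hy
  obtain ⟨d1, d2, d3, d4, d5⟩ := π.vals3 hδ hy
  rw [ricci11 (π.two hδ) hy, π.e10 hδ hy, a1, a2, a3, b1, b2, b3, c1, c2, c5, d1, d2, d5]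
  have hB := π.idB11 hδ sg hy
  have hG := π.np_G hδ sg hy
  have hph := π.np_ph hδ sg hy
  have h1 := (UU_sin hy.1).ne'
  have h1' := (UU_cos hy.1).ne'
  have h2 := hy.2.2.ne'
  have h3 := (qq_pos hδ y).ne'
  have h4 := hy.2.1.ne'
  have hcos : -(1 / Real.cos (y 1) ^ 2) + (Real.sin (y 1) / Real.cos (y 1)) ^ 2 = -1 := by
    have := Real.sin_sq_add_cos_sq (y 1)
    field_simp
    linarith
  have hsin : -(1 / Real.sin (y 1) ^ 2) + (Real.cos (y 1) / Real.sin (y 1)) ^ 2 = -1 := by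
    have := Real.sin_sq_add_cos_sq (y 1)
    field_simp
    linarith
  have hN : π.N11 δ y / π.NN δ y = (π.npt δ sg y).n / ((π.npt δ sg y).q * (π.npt δ sg y).N) *
      ((π.npt δ sg y).x ^ 2 - (π.npt δ sg y).e ^ 2 * (π.npt δ sg y).ct ^ 2) := by
    rw [π.np_N hδ sg hy, π.np_n hδ sg hy]
    unfold N11 npt
    simp only
    field_simp
  unfold NPt.M22
  rw [← hN, ← hG, π.np_N hδ sg hy]
  have hF : (π.npt δ sg y).F = π.f (y 0) := rfl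
  have hPe : 16 * (π.npt δ sg y).P * (2 + (π.npt δ sg y).e ^ 2) *
    ((π.npt δ sg y).ct ^ 2 * (π.npt δ sg y).ta / (π.npt δ sg y).q) =
    16 * π.P (y 0) * (2 + ee δ y ^ 2) * (Real.cos (y 1) ^ 2 * (π.npt δ sg y).ta / qq δ y) := rfl
  rw [hF, hPe]
  rw [hph] at *
  linear_combination hB - hcos - hsin

theorem idB00 : -((π.B00 δ y + π.B0 δ y) / π.BB δ y) =
    (π.npt δ sg y).kap * Real.sin (y 1) ^ 2 + (π.npt δ sg y).A * (π.npt δ sg y).K := by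
  have h2 := hy.2.2.ne'
  have h3 := (qq_pos hδ y).ne'
  have e1 : (π.npt δ sg y).kap * Real.sin (y 1) ^ 2 =
      3 * (1 - π.bt (y 0)) * ee δ y ^ 3 * (1 - ee δ y ^ 2) / π.BB δ y := by
    rw [sin_sq' hδ y]
    unfold NPt.kap
    rw [π.np_b hδ sg hy]
    unfold npt
    simp only
    field_simp
  rw [e1]
  unfold NPt.A NPt.ta NPt.K
  rw [π.np_b hδ sg hy]
  unfold B00 B0 m1 m2 m npt
  simp only
  field_simp
  ring

theorem idN : -(π.N11 δ y / π.NN δ y + π.N1 δ y / π.NN δ y *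
      (-(Real.sin (y 1) / Real.cos (y 1)) + (Real.cos (y 1) / Real.sin (y 1)
        + π.B1 δ y / π.BB δ y))) =
    (π.npt δ sg y).n / ((π.npt δ sg y).q * (π.npt δ sg y).N) * ((π.npt δ sg y).ct ^ 2 *
      (1 + (π.npt δ sg y).e ^ 2 - (π.npt δ sg y).om) - 2 * (π.npt δ sg y).x ^ 2) := by
  have h1 := (UU_sin hy.1).ne'
  have h1' := (UU_cos hy.1).ne'
  have h2 := hy.2.2.ne'
  have h3 := (qq_pos hδ y).ne'
  have h4 := hy.2.1.ne'
  have hs : Real.sin (y 1) ^ 2 / qq δ y ^ 2 = 1 - ee δ y ^ 2 := by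
    rw [sin_sq' hδ y]; field_simp
  rw [← π.np_om hδ sg hy, π.np_N hδ sg hy, π.np_n hδ sg hy, ← hs]
  unfold N11 N1 B1 npt
  simp only
  field_simp
  ring

theorem ric00 : ricci (dg (π.ww δ)) 0 0 y =
    (π.npt δ sg y).kap * Real.sin (y 1) ^ 2
      + π.NN δ y ^ 2 / π.f (y 0) * (π.npt δ sg y).M11 := by
  obtain ⟨a1, a2, a3⟩ := π.vals hδ hy
  obtain ⟨b1, b2, b3⟩ := π.vals1 hδ hy
  obtain ⟨c1, c2, c3, c4, c5⟩ := π.vals2 hδ hy
  obtain ⟨d1, d2, d3, d4, d5⟩ := π.vals3 hδ hy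
  rw [ricci00 (π.two hδ) hy, π.e01 hδ hy, a1, a2, a3, b1, b2, b3, c1, c2, c3, d1, d2, d3]
  have hB := π.idB00 hδ sg hy
  have hN := π.idN hδ sg hy
  have hG := π.np_G hδ sg hy
  have hph := π.np_ph hδ sg hy
  have h2 := hy.2.2.ne'
  have h4 := hy.2.1.ne'
  have h5 := (π.f0 (y 0)).ne'
  have hΦ : π.NN δ y ^ 2 / π.f (y 0) * (π.f (y 0) / π.NN δ y ^ 2) = 1 := by field_simp
  have hF : (π.npt δ sg y).F = π.f (y 0) := rfl
  have hg : π.NN δ y ^ 2 / π.f (y 0) * (π.npt δ sg y).G =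
      π.f1 (y 0) / (2 * π.f (y 0)) - π.N0 δ y / π.NN δ y := by
    rw [← hG, ← mul_assoc, hΦ, one_mul]
  have hBB : (π.B00 δ y + π.B0 δ y) / π.BB δ y = π.B00 δ y / π.BB δ y
    + π.B0 δ y / π.BB δ y := by ring
  unfold NPt.M11
  rw [← hN, π.np_N hδ sg hy, hF]
  rw [hBB, hph] at hB
  rw [hph]
  linear_combination hB + (3 - (π.npt δ sg y).ph) * hg
    + (-((π.npt δ sg y).A * (π.npt δ sg y).K)) * hΦ

theorem idB01 : -(π.B01 δ y / π.BB δ y) - π.B0 δ y / π.BB δ y *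
      (Real.cos (y 1) / Real.sin (y 1)) =
    (π.npt δ sg y).kap * (Real.sin (y 1) * Real.cos (y 1)) +
      Real.cos (y 1) / Real.sin (y 1) * (π.npt δ sg y).A * (π.P (y 0) * (1 + ee δ y + ee δ y ^ 2)
    + 16 * qq δ y * ((π.P1 (y 0) - π.P (y 0) ^ 2) * (2 + ee δ y)
      + π.P (y 0) * ee δ y * (1 + ee δ y + ee δ y ^ 2))) := by
  have h1 := (UU_sin hy.1).ne'
  have h2 := hy.2.2.ne'
  have h3 := (qq_pos hδ y).ne'
  have e1 : Real.sin (y 1) * Real.cos (y 1) =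
      Real.cos (y 1) / Real.sin (y 1) * (qq δ y ^ 2 * (1 - ee δ y ^ 2)) := by
    rw [← sin_sq' hδ y]
    field_simp
  unfold B01 NPt.kap NPt.A NPt.ta
  rw [π.np_b hδ sg hy, e1]
  unfold B0 L1 m1 m npt
  simp only
  field_simp
  ring

theorem ric01 : ricci (dg (π.ww δ)) 0 1 y =
    (π.npt δ sg y).kap * (Real.sin (y 1) * Real.cos (y 1))
      + π.NN δ y / √(π.f (y 0)) * (π.npt δ sg y).M12 := by
  obtain ⟨a1, a2, a3⟩ := π.vals hδ hy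
  obtain ⟨b1, b2, b3⟩ := π.vals1 hδ hy
  obtain ⟨c1, c2, c3, c4, c5⟩ := π.vals2 hδ hy
  obtain ⟨d1, d2, d3, d4, d5⟩ := π.vals3 hδ hy
  rw [ricci01 (π.two hδ) hy, a2, b1, c1, c2, c4, d1, d2, d4]
  have hB := π.idB01 hδ sg hy
  have hph := π.np_ph hδ sg hy
  have h2 := hy.2.2.ne'
  have h3 := (qq_pos hδ y).ne'
  have h4 := hy.2.1.ne'
  have h5 := Real.sqrt_ne_zero'.2 (π.f0 (y 0))
  have hΦ : π.NN δ y / √(π.f (y 0)) * (√(π.f (y 0)) / π.NN δ y) = 1 := by field_simp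
  have hF : (π.npt δ sg y).F = π.f (y 0) := rfl
  have hN1 : π.N1 δ y / π.NN δ y = -((π.npt δ sg y).n * (π.npt δ sg y).x * (π.npt δ sg y).ct /
      ((π.npt δ sg y).q * (π.npt δ sg y).N)) := by
    rw [π.np_N hδ sg hy, π.np_n hδ sg hy]
    unfold N1 npt
    simp only
    field_simp
  unfold NPt.M12
  have e0 : ∀ Y : ℝ, π.NN δ y / √(π.f (y 0)) * (√(π.f (y 0)) / π.NN δ y * Y) = Y := by
    intro Y
    rw [← mul_assoc, hΦ, one_mul]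
  rw [π.np_N hδ sg hy, hF, e0]
  have e1 : (π.npt δ sg y).ct / (π.npt δ sg y).x * (π.npt δ sg y).A * ((π.npt δ sg y).P *
    (1 + (π.npt δ sg y).e + (π.npt δ sg y).e ^ 2) + 16 * (π.npt δ sg y).q *
      (((π.npt δ sg y).P1 - (π.npt δ sg y).P ^ 2) * (2 + (π.npt δ sg y).e)
      + (π.npt δ sg y).P * (π.npt δ sg y).e * (1 + (π.npt δ sg y).e + (π.npt δ sg y).e ^ 2))) =
    Real.cos (y 1) / Real.sin (y 1) * (π.npt δ sg y).A * (π.P (y 0) * (1 + ee δ y + ee δ y ^ 2)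
    + 16 * qq δ y * ((π.P1 (y 0) - π.P (y 0) ^ 2) * (2 + ee δ y)
      + π.P (y 0) * ee δ y * (1 + ee δ y + ee δ y ^ 2))) := rfl
  rw [e1]
  rw [π.np_N hδ sg hy] at hN1
  rw [hph] at hB ⊢
  linear_combination hB + (2 - (π.npt δ sg y).ph) * hN1

theorem e20 : Real.exp (2 * (π.ww δ 2 y - π.ww δ 0 y)) =
    Real.cos (y 1) ^ 2 * (π.f (y 0) / π.NN δ y ^ 2) := by
  have h1 := UU_cos hy.1
  have e1 : 2 * (π.ww δ 2 y - π.ww δ 0 y) = 2 * Real.log (Real.cos (y 1)) +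
      2 * (π.ww δ 1 y - π.ww δ 0 y) := by
    have e2 : π.ww δ 2 y = y 0 + Real.log (Real.cos (y 1)) := rfl
    have e1 : π.ww δ 1 y = y 0 := rfl
    rw [e2, e1]
    ring
  rw [e1, Real.exp_add, π.e10 hδ hy, two_mul, Real.exp_add, Real.exp_log h1, ← sq]

theorem e21 : Real.exp (2 * (π.ww δ 2 y - π.ww δ 1 y)) = Real.cos (y 1) ^ 2 := by
  have h1 := UU_cos hy.1
  have e1 : 2 * (π.ww δ 2 y - π.ww δ 1 y) = 2 * Real.log (Real.cos (y 1)) := by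
    have e2 : π.ww δ 2 y = y 0 + Real.log (Real.cos (y 1)) := rfl
    have e1 : π.ww δ 1 y = y 0 := rfl
    rw [e2, e1]
    ring
  rw [e1, two_mul, Real.exp_add, Real.exp_log h1, sq]

theorem e31 : Real.exp (2 * (π.ww δ 3 y - π.ww δ 1 y)) =
    Real.sin (y 1) ^ 2 * π.BB δ y ^ 2 := by
  have h1 := UU_sin hy.1
  have h2 := hy.2.2
  have e1 : 2 * (π.ww δ 3 y - π.ww δ 1 y) = 2 * Real.log (Real.sin (y 1))
      + 2 * Real.log (π.BB δ y) := by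
    have e2 : π.ww δ 3 y = y 0 + Real.log (Real.sin (y 1)) + Real.log (π.BB δ y) := rfl
    have e1 : π.ww δ 1 y = y 0 := rfl
    rw [e2, e1]
    ring
  rw [e1, Real.exp_add, two_mul, two_mul, Real.exp_add, Real.exp_add, Real.exp_log h1,
    Real.exp_log h2, sq, sq]

theorem e30 : Real.exp (2 * (π.ww δ 3 y - π.ww δ 0 y)) =
    Real.sin (y 1) ^ 2 * π.BB δ y ^ 2 * (π.f (y 0) / π.NN δ y ^ 2) := by
  have e1 : 2 * (π.ww δ 3 y - π.ww δ 0 y) = 2 * (π.ww δ 3 y - π.ww δ 1 y) +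
      2 * (π.ww δ 1 y - π.ww δ 0 y) := by ring
  rw [e1, Real.exp_add, π.e31 hδ hy, π.e10 hδ hy]

theorem ric22 : ricci (dg (π.ww δ)) 2 2 y = Real.cos (y 1) ^ 2 * (π.npt δ sg y).M33 := by
  obtain ⟨a1, a2, a3⟩ := π.vals hδ hy
  obtain ⟨b1, b2, b3⟩ := π.vals1 hδ hy
  obtain ⟨c1, c2, c3, c4, c5⟩ := π.vals2 hδ hy
  obtain ⟨d1, d2, d3, d4, d5⟩ := π.vals3 hδ hy
  rw [ricci22 (π.two hδ) hy, π.e20 hδ hy, π.e21 hδ hy, a1, a2, b1, b2, c1, c2, c3, c5, d1, d2]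
  have hG := π.np_G hδ sg hy
  have hph := π.np_ph hδ sg hy
  have h1 := (UU_sin hy.1).ne'
  have h1' := (UU_cos hy.1).ne'
  have h2 := hy.2.2.ne'
  have h3 := (qq_pos hδ y).ne'
  have h4 := hy.2.1.ne'
  have hF : (π.npt δ sg y).F = π.f (y 0) := rfl
  have hcos : -(1 / Real.cos (y 1) ^ 2) + (Real.sin (y 1) / Real.cos (y 1)) ^ 2 = -1 := by
    have := Real.sin_sq_add_cos_sq (y 1)
    field_simp
    linarith
  have hsc : Real.sin (y 1) / Real.cos (y 1) * (Real.cos (y 1) / Real.sin (y 1)) = 1 := by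
    field_simp
  have hN1 : Real.sin (y 1) / Real.cos (y 1) * (π.N1 δ y / π.NN δ y) =
      -((π.npt δ sg y).n / ((π.npt δ sg y).q * π.NN δ y) * (π.npt δ sg y).x ^ 2) := by
    rw [π.np_n hδ sg hy]
    unfold N1 npt
    simp only
    field_simp
  have hB1 : Real.sin (y 1) / Real.cos (y 1) * (π.B1 δ y / π.BB δ y) = -(π.npt δ sg y).om := by
    rw [← π.np_om hδ sg hy]
    have hs : Real.sin (y 1) ^ 2 / qq δ y ^ 2 = 1 - ee δ y ^ 2 := by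
      rw [sin_sq' hδ y]; field_simp
    rw [← hs]
    unfold B1
    field_simp
  unfold NPt.M33
  rw [π.np_N hδ sg hy, hF, ← hG]
  rw [hph]
  linear_combination (-(Real.cos (y 1) ^ 2)) * hcos + Real.cos (y 1) ^ 2 * hsc
    + Real.cos (y 1) ^ 2 * hN1 + Real.cos (y 1) ^ 2 * hB1

theorem ric33 : ricci (dg (π.ww δ)) 3 3 y = Real.sin (y 1) ^ 2 * π.BB δ y ^ 2 *
    ((π.npt δ sg y).kap * (π.f (y 0) / π.NN δ y ^ 2 * Real.sin (y 1) ^ 2 + Real.cos (y 1) ^ 2)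
      + (π.npt δ sg y).M44) := by
  obtain ⟨a1, a2, a3⟩ := π.vals hδ hy
  obtain ⟨b1, b2, b3⟩ := π.vals1 hδ hy
  obtain ⟨c1, c2, c3, c4, c5⟩ := π.vals2 hδ hy
  obtain ⟨d1, d2, d3, d4, d5⟩ := π.vals3 hδ hy
  rw [ricci33 (π.two hδ) hy, π.e30 hδ hy, π.e31 hδ hy, a1, a2, b1, b2, c1, c2, d1, d2, d3, d5]
  have hB := π.idB11 hδ sg hy
  have hB0 := π.idB00 hδ sg hy
  have hG := π.np_G hδ sg hy
  have hph := π.np_ph hδ sg hy
  have h1 := (UU_sin hy.1).ne'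
  have h1' := (UU_cos hy.1).ne'
  have h2 := hy.2.2.ne'
  have h3 := (qq_pos hδ y).ne'
  have h4 := hy.2.1.ne'
  have hF : (π.npt δ sg y).F = π.f (y 0) := rfl
  have hsin : -(1 / Real.sin (y 1) ^ 2) + (Real.cos (y 1) / Real.sin (y 1)) ^ 2 = -1 := by
    have := Real.sin_sq_add_cos_sq (y 1)
    field_simp
    linarith
  have hsc : Real.sin (y 1) / Real.cos (y 1) * (Real.cos (y 1) / Real.sin (y 1)) = 1 := by
    field_simp
  have hs : Real.sin (y 1) ^ 2 / qq δ y ^ 2 = 1 - ee δ y ^ 2 := by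
    rw [sin_sq' hδ y]; field_simp
  have hN1 : Real.cos (y 1) / Real.sin (y 1) * (π.N1 δ y / π.NN δ y) =
      -((π.npt δ sg y).n / ((π.npt δ sg y).q * π.NN δ y) * (π.npt δ sg y).ct ^ 2) := by
    rw [π.np_n hδ sg hy]
    unfold N1 npt
    simp only
    field_simp
  have hB1 : Real.sin (y 1) / Real.cos (y 1) * (π.B1 δ y / π.BB δ y) = -(π.npt δ sg y).om := by
    rw [← π.np_om hδ sg hy, ← hs]
    unfold B1
    field_simp
  have hNB : π.B1 δ y / π.BB δ y * (π.N1 δ y / π.NN δ y) =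
      (π.npt δ sg y).n / ((π.npt δ sg y).q * π.NN δ y) * (π.npt δ sg y).ct ^ 2
        * (π.npt δ sg y).om := by
    rw [← π.np_om hδ sg hy, ← hs, π.np_n hδ sg hy]
    unfold N1 B1 npt
    simp only
    field_simp
  have hPe : 16 * (π.npt δ sg y).P * (2 + (π.npt δ sg y).e ^ 2) *
    ((π.npt δ sg y).ct ^ 2 * (π.npt δ sg y).ta / (π.npt δ sg y).q) =
    16 * π.P (y 0) * (2 + ee δ y ^ 2) * (Real.cos (y 1) ^ 2 * (π.npt δ sg y).ta / qq δ y) := rfl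
  have hBB : (π.B00 δ y + π.B0 δ y) / π.BB δ y = π.B00 δ y / π.BB δ y
    + π.B0 δ y / π.BB δ y := by ring
  have hB2 : -(2 * (Real.cos (y 1) / Real.sin (y 1) * (π.B1 δ y / π.BB δ y)))
    - π.B11 δ y / π.BB δ y = -(π.npt δ sg y).om + (π.npt δ sg y).kap * Real.cos (y 1) ^ 2
    + 16 * π.P (y 0) * (2 + ee δ y ^ 2) *
      (Real.cos (y 1) ^ 2 * (π.npt δ sg y).ta / qq δ y) := by rw [← hB]; ring
  unfold NPt.M44
  rw [π.np_N hδ sg hy, hF, ← hG, hPe]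
  rw [hBB, hph] at hB0
  rw [hph]
  linear_combination (Real.sin (y 1) ^ 2 * π.BB δ y ^ 2) * (π.f (y 0) / π.NN δ y ^ 2 * hB0
    + hB2 - hsin + hsc - hN1 - hNB + hB1)

/-- **Positivity of the Ricci tensor** in the coordinates `(log R, t, θ₂, θ₁)`:
`R² Ric ≥ -sg g`, `g` = the metric divided by `R²`. -/
theorem ricci_nonneg (h : (π.npt δ sg y).Ok) (v : Fin 4 → ℝ) :
    -(sg * (Real.exp (-(2 * y 0)) * ∑ i, Real.exp (2 * π.ww δ i y) * v i ^ 2)) ≤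
      ∑ i, ∑ j, ricci (dg (π.ww δ)) i j y * v i * v j := by
  have t := π.two hδ
  simp only [Fin.sum_univ_four]
  rw [ricci02 t hy, ricci03 t hy, ricci12 t hy, ricci13 t hy, ricci23 t hy, ricci20 t hy,
    ricci30 t hy, ricci21 t hy, ricci31 t hy, ricci32 t hy, ricci10 t hy, π.ric00 hδ sg hy,
    π.ric01 hδ sg hy, π.ric11 hδ sg hy, π.ric22 hδ sg hy, π.ric33 hδ sg hy]
  have hN := hy.2.1
  have hB := hy.2.2
  have hf := π.f0 (y 0)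
  have g0 : Real.exp (-(2 * y 0)) * Real.exp (2 * π.ww δ 0 y) = π.NN δ y ^ 2 / π.f (y 0) := by
    rw [← π.e01 hδ hy, ← Real.exp_add]
    have e1 : π.ww δ 1 y = y 0 := rfl
    rw [e1]
    ring_nf
  have g1 : Real.exp (-(2 * y 0)) * Real.exp (2 * π.ww δ 1 y) = 1 := by
    rw [← Real.exp_add]
    have e1 : π.ww δ 1 y = y 0 := rfl
    rw [e1]
    ring_nf
    exact Real.exp_zero
  have g2 : Real.exp (-(2 * y 0)) * Real.exp (2 * π.ww δ 2 y) = Real.cos (y 1) ^ 2 := by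
    rw [← π.e21 hδ hy, ← Real.exp_add]
    have e1 : π.ww δ 1 y = y 0 := rfl
    rw [e1]
    ring_nf
  have g3 : Real.exp (-(2 * y 0)) * Real.exp (2 * π.ww δ 3 y) =
      Real.sin (y 1) ^ 2 * π.BB δ y ^ 2 := by
    rw [← π.e31 hδ hy, ← Real.exp_add]
    have e1 : π.ww δ 1 y = y 0 := rfl
    rw [e1]
    ring_nf
  have hkap : 0 ≤ (π.npt δ sg y).kap := by
    unfold NPt.kap
    have := h.b1; have := h.e0; have := h.b_pos
    have : 0 ≤ 1 - (π.npt δ sg y).bt := by linarith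
    positivity
  have h33 := h.M33_ge
  have h44 := h.M44_ge
  have hblock := h.block (π.NN δ y / √(π.f (y 0)) * v 0) (v 1)
  have hsg : (π.npt δ sg y).sg = sg := rfl
  rw [hsg] at h33 h44 hblock
  have hsq : √(π.f (y 0)) ^ 2 = π.f (y 0) := Real.sq_sqrt hf.le
  have hsp : 0 < √(π.f (y 0)) := Real.sqrt_pos.2 hf
  have hNf : (π.NN δ y / √(π.f (y 0))) ^ 2 = π.NN δ y ^ 2 / π.f (y 0) := by
    rw [div_pow, hsq]
  set κ := (π.npt δ sg y).kap with hκdef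
  set A11 := (π.npt δ sg y).M11
  set A12 := (π.npt δ sg y).M12
  set A22 := (π.npt δ sg y).M22
  set A33 := (π.npt δ sg y).M33
  set A44 := (π.npt δ sg y).M44
  set s := Real.sin (y 1)
  set c := Real.cos (y 1)
  set Q := π.NN δ y / √(π.f (y 0)) with hQ
  have k1 : 0 ≤ κ * (s * v 0 + c * v 1) ^ 2 := by positivity
  have k2 : 0 ≤ c ^ 2 * (A33 + sg) * v 2 ^ 2 := by positivity
  have k3 : 0 ≤ s ^ 2 * π.BB δ y ^ 2 * (A44 + sg) * v 3 ^ 2 := by positivity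
  have k4 : 0 ≤ s ^ 2 * π.BB δ y ^ 2 * (κ * (π.f (y 0) / π.NN δ y ^ 2 * s ^ 2 + c ^ 2)) * v 3 ^ 2 := by
    have : 0 ≤ π.f (y 0) / π.NN δ y ^ 2 := by positivity
    positivity
  have e1 : sg * (Real.exp (-(2 * y 0)) * (Real.exp (2 * π.ww δ 0 y) * v 0 ^ 2 +
      Real.exp (2 * π.ww δ 1 y) * v 1 ^ 2 + Real.exp (2 * π.ww δ 2 y) * v 2 ^ 2 +
      Real.exp (2 * π.ww δ 3 y) * v 3 ^ 2)) = sg * (Q ^ 2 * v 0 ^ 2 + v 1 ^ 2 + c ^ 2 * v 2 ^ 2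
      + s ^ 2 * π.BB δ y ^ 2 * v 3 ^ 2) := by
    rw [hNf]
    linear_combination (sg * v 0 ^ 2) * g0 + (sg * v 1 ^ 2) * g1 + (sg * v 2 ^ 2) * g2
      + (sg * v 3 ^ 2) * g3
  rw [e1, ← hNf]
  nlinarith [k1, k2, k3, k4, hblock]

end Prf

end Pool.Agent.RLim.H58
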