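import Pool.Agent.Helper58_RL.PolSt
import Pool.Agent.Helper58_RL.Ric2

/-!
# The metric of the neck in polar coordinates (helper58, MP_62da59_gt)
-/

noncomputable section

open scoped ContDiff Topology RealInnerProductSpace
set_option maxSynthPendingDepth 3
open Set

namespace Pool.Agent.RLim.H58

open Pool.Agent.RF Pool.Agent.SecondKind Prf Prof

theorem inner_E4 (V W : E4) : ⟪V, W⟫ = V 0 * W 0 + V 1 * W 1 + V 2 * W 2 + V 3 * W 3 := by
  rw [PiLp.inner_apply, Fin.sum_univ_four]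
  simp
  ring

section

variable (y v : E4)

@[simp] theorem psi_0 : psi y 0 = Real.exp (y 0) * (Real.cos (y 1) * Real.cos (y 2)) := rfl
@[simp] theorem psi_1 : psi y 1 = Real.exp (y 0) * (Real.cos (y 1) * Real.sin (y 2)) := rfl
@[simp] theorem psi_2 : psi y 2 = Real.exp (y 0) * (Real.sin (y 1) * Real.cos (y 3)) := rfl
@[simp] theorem psi_3 : psi y 3 = Real.exp (y 0) * (Real.sin (y 1) * Real.sin (y 3)) := rfl

theorem dpsi_0 : dpsi y v 0 = Real.exp (y 0) * (v 0 * Real.cos (y 1) * Real.cos (y 2)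
    - v 1 * Real.sin (y 1) * Real.cos (y 2) - v 2 * Real.cos (y 1) * Real.sin (y 2)) := rfl
theorem dpsi_1 : dpsi y v 1 = Real.exp (y 0) * (v 0 * Real.cos (y 1) * Real.sin (y 2)
    - v 1 * Real.sin (y 1) * Real.sin (y 2) + v 2 * Real.cos (y 1) * Real.cos (y 2)) := rfl
theorem dpsi_2 : dpsi y v 2 = Real.exp (y 0) * (v 0 * Real.sin (y 1) * Real.cos (y 3)
    + v 1 * Real.cos (y 1) * Real.cos (y 3) - v 3 * Real.sin (y 1) * Real.sin (y 3)) := rfl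
theorem dpsi_3 : dpsi y v 3 = Real.exp (y 0) * (v 0 * Real.sin (y 1) * Real.sin (y 3)
    + v 1 * Real.cos (y 1) * Real.sin (y 3) + v 3 * Real.sin (y 1) * Real.cos (y 3)) := rfl

theorem norm_psi_sq : ‖psi y‖ ^ 2 = Real.exp (y 0) ^ 2 := by
  rw [← real_inner_self_eq_norm_sq, inner_E4]
  simp only [psi_0, psi_1, psi_2, psi_3]
  have h1 := Real.sin_sq_add_cos_sq (y 1)
  have h2 := Real.sin_sq_add_cos_sq (y 2)
  have h3 := Real.sin_sq_add_cos_sq (y 3)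
  linear_combination (Real.exp (y 0) ^ 2 * Real.cos (y 1) ^ 2) * h2
    + (Real.exp (y 0) ^ 2 * Real.sin (y 1) ^ 2) * h3 + Real.exp (y 0) ^ 2 * h1

theorem norm_psi : ‖psi y‖ = Real.exp (y 0) := by
  have h := norm_psi_sq y
  exact (pow_left_inj₀ (norm_nonneg _) (Real.exp_pos _).le two_ne_zero).1 h

theorem dpsi_sq : ⟪dpsi y v, dpsi y v⟫ = Real.exp (y 0) ^ 2 * (v 0 ^ 2 + v 1 ^ 2
    + Real.cos (y 1) ^ 2 * v 2 ^ 2 + Real.sin (y 1) ^ 2 * v 3 ^ 2) := by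
  rw [inner_E4]
  simp only [dpsi_0, dpsi_1, dpsi_2, dpsi_3]
  have h1 := Real.sin_sq_add_cos_sq (y 1)
  have h2 := Real.sin_sq_add_cos_sq (y 2)
  have h3 := Real.sin_sq_add_cos_sq (y 3)
  set E := Real.exp (y 0)
  set s := Real.sin (y 1)
  set c := Real.cos (y 1)
  linear_combination (E ^ 2 * (v 0 * c - v 1 * s) ^ 2 + E ^ 2 * (v 2 * c) ^ 2) * h2
    + (E ^ 2 * (v 0 * s + v 1 * c) ^ 2 + E ^ 2 * (v 3 * s) ^ 2) * h3
    + (E ^ 2 * (v 0 ^ 2 + v 1 ^ 2)) * h1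

theorem psi_dpsi : ⟪psi y, dpsi y v⟫ = Real.exp (y 0) ^ 2 * v 0 := by
  rw [inner_E4]
  simp only [dpsi_0, dpsi_1, dpsi_2, dpsi_3, psi_0, psi_1, psi_2, psi_3]
  have h1 := Real.sin_sq_add_cos_sq (y 1)
  have h2 := Real.sin_sq_add_cos_sq (y 2)
  have h3 := Real.sin_sq_add_cos_sq (y 3)
  set E := Real.exp (y 0)
  set s := Real.sin (y 1)
  set c := Real.cos (y 1)
  linear_combination (E ^ 2 * c * (v 0 * c - v 1 * s)) * h2
    + (E ^ 2 * s * (v 0 * s + v 1 * c)) * h3 + (E ^ 2 * v 0) * h1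

theorem YY_dpsi : ⟪YY (psi y), dpsi y v⟫ = Real.exp (y 0) ^ 2 * (Real.sin (y 1) ^ 2 * v 3) := by
  rw [inner_E4]
  simp only [dpsi_0, dpsi_1, dpsi_2, dpsi_3]
  have e0 : YY (psi y) 0 = 0 := rfl
  have e1 : YY (psi y) 1 = 0 := rfl
  have e2 : YY (psi y) 2 = -(psi y 3) := rfl
  have e3 : YY (psi y) 3 = psi y 2 := rfl
  rw [e0, e1, e2, e3]
  simp only [psi_2, psi_3]
  have h3 := Real.sin_sq_add_cos_sq (y 3)
  set E := Real.exp (y 0)
  set s := Real.sin (y 1)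
  set c := Real.cos (y 1)
  linear_combination (E ^ 2 * s ^ 2 * v 3) * h3

end

/-- the functions of `log R` of a profile -/
structure Comp (q : Prof) (π : Prf) : Prop where
  F : ∀ s, π.f s = q.F (Real.exp s)
  bt : ∀ s, π.bt s = q.β (Real.exp s)
  P : ∀ s, π.P s = q.P (Real.exp s)
  n : ∀ R, 0 < R → q.n R = q.F R * q.P R / 8
  c : ∀ R, 0 < R → q.c R = 16 * q.P R

variable {q : Prof} {π : Prf} (hq : Comp q π) {δ : ℝ} (hδ : 0 < δ) (y v : E4)

theorem rdl_psi : rdl δ (psi y) = Real.exp (y 0) * qq δ (eqE 4 y) := by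
  unfold rdl qq dd
  rw [show Real.exp (y 0) = √(Real.exp (y 0) ^ 2) from (Real.sqrt_sq (Real.exp_pos _).le).symm,
    ← Real.sqrt_mul (by positivity)]
  congr 1
  simp only [psi_2, psi_3, eqE_apply, Real.exp_neg]
  have h3 := Real.sin_sq_add_cos_sq (y 3)
  have h0 := (Real.exp_pos (y 0)).ne'
  field_simp
  linear_combination (Real.exp (y 0) ^ 2 * Real.sin (y 1) ^ 2) * h3

theorem dd_eq : Real.exp (y 0) * dd δ (eqE 4 y) = δ := by
  unfold dd
  rw [eqE_apply, Real.exp_neg]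
  have h0 := (Real.exp_pos (y 0)).ne'
  field_simp

include hq

theorem lapse_psi : q.lapse δ (psi y) = π.NN δ (eqE 4 y) := by
  unfold Prof.lapse Prf.NN
  rw [rdl_psi, norm_psi, hq.F, hq.P, hq.n _ (Real.exp_pos _), eqE_apply]
  have h1 := dd_eq (δ := δ) y
  have h0 := (Real.exp_pos (y 0)).ne'
  have h2 : Real.exp (y 0) * qq δ (eqE 4 y) - δ =
    Real.exp (y 0) * (qq δ (eqE 4 y) - dd δ (eqE 4 y)) := by rw [mul_sub, h1]
  rw [h2]
  field_simp

include hδ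

theorem Bh_psi : q.Bh δ (psi y) = π.BB δ (eqE 4 y) := by
  unfold Prof.Bh Prf.BB
  rw [rdl_psi, norm_psi, hq.bt, hq.P, hq.c _ (Real.exp_pos _), eqE_apply]
  have h1 := dd_eq (δ := δ) y
  have h0 := (Real.exp_pos (y 0)).ne'
  have h3 := (qq_pos hδ (eqE 4 y)).ne'
  have h4 : δ / (Real.exp (y 0) * qq δ (eqE 4 y)) = ee δ (eqE 4 y) := by
    unfold ee
    rw [div_eq_div_iff (mul_ne_zero h0 h3) h3]
    linear_combination -(qq δ (eqE 4 y)) * h1
  have h5 := ee_mul hδ (eqE 4 y)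
  rw [h4, ← h5]
  field_simp
  ring

theorem HH_psi : q.HH δ (psi y) * (Real.exp (y 0) ^ 2 * Real.sin (y 1) ^ 2) =
    π.BB δ (eqE 4 y) ^ 2 - 1 := by
  have hB := Bh_psi hq hδ y
  have h1 := dd_eq (δ := δ) y
  have h0 := Real.exp_pos (y 0)
  have h3 := qq_pos hδ (eqE 4 y)
  have h4 := dd_pos hδ (eqE 4 y)
  have h5 := ee_mul hδ (eqE 4 y)
  have h6 := qq_sq hδ (eqE 4 y)
  rw [eqE_apply] at h6
  unfold Prof.HH
  rw [hB, rdl_psi, norm_psi, hq.c _ (Real.exp_pos _)]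
  have hs : Real.sin (y 1) ^ 2 = (qq δ (eqE 4 y) - dd δ (eqE 4 y)) *
      (qq δ (eqE 4 y) + dd δ (eqE 4 y)) := by linear_combination -h6
  have h7 : 1 - π.BB δ (eqE 4 y) = (qq δ (eqE 4 y) - dd δ (eqE 4 y)) *
      ((1 - q.β (Real.exp (y 0))) / qq δ (eqE 4 y) + q.β (Real.exp (y 0)) *
        (16 * q.P (Real.exp (y 0)))) := by
    unfold Prf.BB ee
    rw [eqE_apply, hq.bt, hq.P]
    field_simp
    ring
  have h8 : Real.exp (y 0) * qq δ (eqE 4 y) + δ =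
    Real.exp (y 0) * (qq δ (eqE 4 y) + dd δ (eqE 4 y)) := by rw [mul_add, h1]
  have h9 : 0 < qq δ (eqE 4 y) + dd δ (eqE 4 y) := by positivity
  rw [h8, hs]
  have h10 : π.BB δ (eqE 4 y) ^ 2 - 1 = -((π.BB δ (eqE 4 y) + 1) * (1 - π.BB δ (eqE 4 y))) := by
    ring
  rw [h10, h7]
  field_simp

/-- **The pullback of the metric of the neck.** -/
theorem polB (hy : eqE 4 y ∈ π.VV δ) : q.neck δ (psi y) (dpsi y v) (dpsi y v) =
    ∑ i, Real.exp (2 * π.ww δ i (eqE 4 y)) * v i ^ 2 := by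
  have hF : 0 < q.F (Real.exp (y 0)) := by rw [← hq.F]; exact π.f0 _
  have hN := hy.2.1
  have hB := hy.2.2
  have hc : 0 < Real.cos (y 1) := UU_cos hy.1
  have hs : 0 < Real.sin (y 1) := UU_sin hy.1
  have h0 := Real.exp_pos (y 0)
  have hH := HH_psi hq hδ y
  unfold Prof.neck
  rw [gen_apply, dpsi_sq, psi_dpsi, YY_dpsi, norm_psi, lapse_psi hq, Fin.sum_univ_four]
  have e0 : Real.exp (2 * π.ww δ 0 (eqE 4 y)) = Real.exp (y 0) ^ 2 * (π.NN δ (eqE 4 y) ^ 2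
      / q.F (Real.exp (y 0))) := by
    have : 2 * π.ww δ 0 (eqE 4 y) = y 0 + y 0 + (Real.log (π.NN δ (eqE 4 y))
        + Real.log (π.NN δ (eqE 4 y))) - Real.log (q.F (Real.exp (y 0))) := by
      unfold Prf.ww
      rw [if_pos rfl, hq.F, eqE_apply]
      ring
    rw [this, Real.exp_sub, Real.exp_add, Real.exp_add, Real.exp_add, Real.exp_log hN,
      Real.exp_log hF]
    ring
  have e1 : Real.exp (2 * π.ww δ 1 (eqE 4 y)) = Real.exp (y 0) ^ 2 := by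
    have : 2 * π.ww δ 1 (eqE 4 y) = y 0 + y 0 := by
      have : π.ww δ 1 (eqE 4 y) = y 0 := rfl
      rw [this]; ring
    rw [this, Real.exp_add]
    ring
  have e2 : Real.exp (2 * π.ww δ 2 (eqE 4 y)) = Real.exp (y 0) ^ 2 * Real.cos (y 1) ^ 2 := by
    have : 2 * π.ww δ 2 (eqE 4 y) = y 0 + y 0 + (Real.log (Real.cos (y 1))
        + Real.log (Real.cos (y 1))) := by
      have : π.ww δ 2 (eqE 4 y) = y 0 + Real.log (Real.cos (y 1)) := rfl
      rw [this]; ring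
    rw [this, Real.exp_add, Real.exp_add, Real.exp_add, Real.exp_log hc]
    ring
  have e3 : Real.exp (2 * π.ww δ 3 (eqE 4 y)) = Real.exp (y 0) ^ 2 * (Real.sin (y 1) ^ 2
      * π.BB δ (eqE 4 y) ^ 2) := by
    have : 2 * π.ww δ 3 (eqE 4 y) = y 0 + y 0 + (Real.log (Real.sin (y 1))
        + Real.log (Real.sin (y 1))) + (Real.log (π.BB δ (eqE 4 y))
        + Real.log (π.BB δ (eqE 4 y))) := by
      have : π.ww δ 3 (eqE 4 y) = y 0 + Real.log (Real.sin (y 1))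
        + Real.log (π.BB δ (eqE 4 y)) := rfl
      rw [this]; ring
    rw [this, Real.exp_add, Real.exp_add, Real.exp_add, Real.exp_add, Real.exp_add,
      Real.exp_log hs, Real.exp_log hB]
    ring
  rw [e0, e1, e2, e3]
  have hHs : q.HH δ (psi y) * Real.exp (y 0) ^ 2 * Real.sin (y 1) ^ 2 =
    π.BB δ (eqE 4 y) ^ 2 - 1 := by rw [← hH]; ring
  have k1 : (π.NN δ (eqE 4 y) ^ 2 / q.F (Real.exp (y 0)) - 1) / Real.exp (y 0) ^ 2 *
      (Real.exp (y 0) ^ 2 * v 0 * (Real.exp (y 0) ^ 2 * v 0)) =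
      Real.exp (y 0) ^ 2 * (π.NN δ (eqE 4 y) ^ 2 / q.F (Real.exp (y 0)) - 1) * v 0 ^ 2 := by
    field_simp
  rw [k1]
  linear_combination (Real.exp (y 0) ^ 2 * Real.sin (y 1) ^ 2 * v 3 ^ 2) * hHs

end Pool.Agent.RLim.H58
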