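import Pool.Agent.Helper1_RL.Stmts
import Pool.Agent.Helper36_RF.ClBr
import Pool.Agent.Helper58_RL.Diag

/-!
# Polar coordinates on `ℂ²`: statements (helper58)
-/

noncomputable section

open scoped ContDiff Topology RealInnerProductSpace
set_option maxSynthPendingDepth 3
open Set

namespace Pool.Agent.RLim.H58

open Pool.Agent.RF Pool.Agent.SecondKind

/-- `(σ, t, θ₂, θ₁) ↦ e^σ (cos t e^{iθ₂}, sin t e^{iθ₁})` -/
def psi (y : E4) : E4 := WithLp.toLp 2 ![Real.exp (y 0) * (Real.cos (y 1) * Real.cos (y 2)),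
  Real.exp (y 0) * (Real.cos (y 1) * Real.sin (y 2)),
  Real.exp (y 0) * (Real.sin (y 1) * Real.cos (y 3)),
  Real.exp (y 0) * (Real.sin (y 1) * Real.sin (y 3))]

/-- its differential -/
def dpsi (y v : E4) : E4 := WithLp.toLp 2 ![
  Real.exp (y 0) * (v 0 * Real.cos (y 1) * Real.cos (y 2) - v 1 * Real.sin (y 1) * Real.cos (y 2)
    - v 2 * Real.cos (y 1) * Real.sin (y 2)),
  Real.exp (y 0) * (v 0 * Real.cos (y 1) * Real.sin (y 2) - v 1 * Real.sin (y 1) * Real.sin (y 2)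
    + v 2 * Real.cos (y 1) * Real.cos (y 2)),
  Real.exp (y 0) * (v 0 * Real.sin (y 1) * Real.cos (y 3) + v 1 * Real.cos (y 1) * Real.cos (y 3)
    - v 3 * Real.sin (y 1) * Real.sin (y 3)),
  Real.exp (y 0) * (v 0 * Real.sin (y 1) * Real.sin (y 3) + v 1 * Real.cos (y 1) * Real.sin (y 3)
    + v 3 * Real.sin (y 1) * Real.cos (y 3))]

/-- PolA: Ricci tensor of a metric which is diagonal in polar coordinates. -/
def PolAStmt : Prop :=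
  ∀ (w : Fin 4 → (Fin 4 → ℝ) → ℝ) (U : Set (Fin 4 → ℝ)) (G : E4 → Bil E4),
    IsOpen U → (∀ i, ContDiffOn ℝ ∞ (w i) U) → (∀ y ∈ U, 0 < y 1 ∧ y 1 < Real.pi / 2) →
    IsMetricOn G (Om (Fin 4)) →
    (∀ y : E4, eqE 4 y ∈ U → ∀ v : E4,
      G (psi y) (dpsi y v) (dpsi y v) = ∑ i, Real.exp (2 * w i (eqE 4 y)) * v i ^ 2) →
    ∀ y : E4, eqE 4 y ∈ U → ∀ v : E4,
      ric G (psi y) (dpsi y v) (dpsi y v) = ∑ i, ∑ j, ricci (dg w) i j (eqE 4 y) * v i * v j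

/-- PolC: polar coordinates of a generic point. -/
def PolCStmt : Prop :=
  ∀ X : E4, (X 0 ≠ 0 ∨ X 1 ≠ 0) → (X 2 ≠ 0 ∨ X 3 ≠ 0) → ∃ y : E4, psi y = X ∧
    Real.exp (y 0) = ‖X‖ ∧ 0 < y 1 ∧ y 1 < Real.pi / 2 ∧
    ‖X‖ * Real.sin (y 1) = √(X 2 ^ 2 + X 3 ^ 2) ∧ ‖X‖ * Real.cos (y 1) = √(X 0 ^ 2 + X 1 ^ 2) ∧
    ∀ V : E4, ∃ v : E4, dpsi y v = V

end Pool.Agent.RLim.H58
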