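import Pool.Agent.Helper58_RL.Fun
import Pool.Agent.Helper58_RL.Neck4

/-!
# The Ricci tensor of the metric of the neck in the coordinates `(log R, t, θ₂, θ₁)`
(helper58, MP_62da59_gt)
-/

noncomputable section

open scoped ContDiff Topology
open Set Filter

namespace Pool.Agent.RLim.H58

open Pool.Agent.SecondKind

set_option linter.unusedSectionVars false

theorem D2.mono {U V : Set (Fin 4 → ℝ)} {f f0 f1 : (Fin 4 → ℝ) → ℝ} (h : D2 U f f0 f1)
    (hV : V ⊆ U) : D2 V f f0 f1 := fun y hy => h y (hV hy)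

namespace Prf

variable (π : Prf) (δ : ℝ)

/-- the half logarithms of the entries of the metric -/
def ww (i : Fin 4) (y : Fin 4 → ℝ) : ℝ :=
  if i = 0 then y 0 + Real.log (π.NN δ y) - 1 / 2 * Real.log (π.f (y 0))
  else if i = 1 then y 0
  else if i = 2 then y 0 + Real.log (Real.cos (y 1))
  else y 0 + Real.log (Real.sin (y 1)) + Real.log (π.BB δ y)

/-- the domain -/
def VV : Set (Fin 4 → ℝ) := {y | y ∈ UU ∧ 0 < π.NN δ y ∧ 0 < π.BB δ y}

theorem VV_sub : π.VV δ ⊆ UU := fun _ hy => hy.1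

/-- the point -/
def npt (sg : ℝ) (y : Fin 4 → ℝ) : NPt where
  e := ee δ y
  q := qq δ y
  x := Real.sin (y 1)
  ct := Real.cos (y 1)
  bt := π.bt (y 0)
  F := π.f (y 0)
  P := π.P (y 0)
  P1 := π.P1 (y 0)
  P2 := π.P2 (y 0)
  f1 := π.f1 (y 0)
  sg := sg

variable {δ} (hδ : 0 < δ) (sg : ℝ)

include hδ

theorem cd_dd : ContDiff ℝ ∞ (dd δ) := by
  unfold dd
  fun_prop

theorem cd_qq : ContDiff ℝ ∞ (qq δ) := by
  have h : ContDiff ℝ ∞ (fun y : Fin 4 → ℝ => Real.sin (y 1) ^ 2 + dd δ y ^ 2) := by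
    have := cd_dd hδ
    fun_prop
  exact h.sqrt (fun y => (qq_arg hδ y).ne')

theorem cd_ee : ContDiff ℝ ∞ (ee δ) :=
  (cd_dd hδ).div (cd_qq hδ) (fun y => (qq_pos hδ y).ne')

theorem cd_NN : ContDiff ℝ ∞ (π.NN δ) := by
  have h1 := π.smf
  have h2 := π.smP
  have h3 := cd_qq hδ
  have h4 := cd_dd hδ
  have h5 : ContDiff ℝ ∞ (fun y : Fin 4 → ℝ => π.f (y 0)) := h1.comp (by fun_prop)
  have h6 : ContDiff ℝ ∞ (fun y : Fin 4 → ℝ => π.P (y 0)) := h2.comp (by fun_prop)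
  unfold NN
  fun_prop

theorem cd_BB : ContDiff ℝ ∞ (π.BB δ) := by
  have h1 := π.smbt
  have h2 := π.smP
  have h3 := cd_qq hδ
  have h4 := cd_dd hδ
  have h7 := cd_ee hδ
  have h5 : ContDiff ℝ ∞ (fun y : Fin 4 → ℝ => π.bt (y 0)) := h1.comp (by fun_prop)
  have h6 : ContDiff ℝ ∞ (fun y : Fin 4 → ℝ => π.P (y 0)) := h2.comp (by fun_prop)
  unfold BB
  fun_prop

theorem VV_open : IsOpen (π.VV δ) :=
  UU_open.inter ((isOpen_lt continuous_const (π.cd_NN hδ).continuous).inter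
    (isOpen_lt continuous_const (π.cd_BB hδ).continuous))

theorem ww_smooth (i : Fin 4) : ContDiffOn ℝ ∞ (π.ww δ i) (π.VV δ) := by
  have c0 : ContDiffOn ℝ ∞ (fun y : Fin 4 → ℝ => y 0) (π.VV δ) := by fun_prop
  have hsin : ContDiffOn ℝ ∞ (fun y : Fin 4 → ℝ => Real.sin (y 1)) (π.VV δ) := by fun_prop
  have hcos : ContDiffOn ℝ ∞ (fun y : Fin 4 → ℝ => Real.cos (y 1)) (π.VV δ) := by fun_prop
  have h5 : ContDiffOn ℝ ∞ (fun y : Fin 4 → ℝ => π.f (y 0)) (π.VV δ) :=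
    (π.smf.comp (by fun_prop : ContDiff ℝ ∞ (fun y : Fin 4 → ℝ => y 0))).contDiffOn
  fin_cases i
  · exact (c0.add ((π.cd_NN hδ).contDiffOn.log (fun y hy => hy.2.1.ne'))).sub
      (contDiffOn_const.mul (h5.log (fun y _ => (π.f0 _).ne')))
  · exact c0
  · exact c0.add (hcos.log (fun y hy => (UU_cos hy.1).ne'))
  · exact (c0.add (hsin.log (fun y hy => (UU_sin hy.1).ne'))).add
      ((π.cd_BB hδ).contDiffOn.log (fun y hy => hy.2.2.ne'))

theorem D_w0 : D2 (π.VV δ) (π.ww δ 0)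
    (fun y => 1 + π.N0 δ y / π.NN δ y - π.f1 (y 0) / (2 * π.f (y 0)))
    (fun y => π.N1 δ y / π.NN δ y) := by
  have hs := π.VV_sub δ
  have h := ((D2.c0 (U := π.VV δ)).add (((π.D_NN hδ).mono hs).log (fun y hy => hy.2.1))).sub
    ((((π.D_f).mono hs).log (fun y _ => π.f0 _)).cmul (1 / 2))
  refine h.congr ?_ ?_
  · intro y hy
    have := (π.f0 (y 0)).ne'
    field_simp
  · intro y hy
    ring

theorem D_w1 : D2 (π.VV δ) (π.ww δ 1) (fun _ => 1) (fun _ => 0) := D2.c0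

theorem D_w2 : D2 (π.VV δ) (π.ww δ 2) (fun _ => 1)
    (fun y => -(Real.sin (y 1) / Real.cos (y 1))) := by
  have hs := π.VV_sub δ
  have h := (D2.c0 (U := π.VV δ)).add ((D2.c1 (U := π.VV δ)).cos.log
    (fun y hy => UU_cos (hs hy)))
  refine h.congr ?_ ?_
  · intro y hy
    ring
  · intro y hy
    ring

theorem D_w3 : D2 (π.VV δ) (π.ww δ 3) (fun y => 1 + π.B0 δ y / π.BB δ y)
    (fun y => Real.cos (y 1) / Real.sin (y 1) + π.B1 δ y / π.BB δ y) := by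
  have hs := π.VV_sub δ
  have h := ((D2.c0 (U := π.VV δ)).add ((D2.c1 (U := π.VV δ)).sin.log
    (fun y hy => UU_sin (hs hy)))).add (((π.D_BB hδ).mono hs).log (fun y hy => hy.2.2))
  refine h.congr ?_ ?_
  · intro y hy
    ring
  · intro y hy
    ring

theorem two : Two (π.ww δ) (π.VV δ) where
  isOpen := π.VV_open hδ
  smooth := π.ww_smooth hδ
  zero2 := by
    intro i y hy
    fin_cases i
    · exact (π.D_w0 hδ).pd2 hy
    · exact (π.D_w1 hδ).pd2 hy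
    · exact (π.D_w2 hδ).pd2 hy
    · exact (π.D_w3 hδ).pd2 hy
  zero3 := by
    intro i y hy
    fin_cases i
    · exact (π.D_w0 hδ).pd3 hy
    · exact (π.D_w1 hδ).pd3 hy
    · exact (π.D_w2 hδ).pd3 hy
    · exact (π.D_w3 hδ).pd3 hy

/-- the second derivatives -/
theorem D_w01 : ∃ g, D2 (π.VV δ) (fun y => π.N1 δ y / π.NN δ y) g
    (fun y => π.N11 δ y / π.NN δ y - (π.N1 δ y / π.NN δ y) ^ 2) := by
  have hs := π.VV_sub δ
  obtain ⟨g, hg⟩ := π.D_N1 hδ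
  refine ⟨_, ((hg.mono hs).div ((π.D_NN hδ).mono hs) (fun y hy => hy.2.1.ne')).congr
    (fun y _ => rfl) ?_⟩
  intro y hy
  have := hy.2.1.ne'
  field_simp

theorem D_w21 : ∃ g, D2 (π.VV δ) (fun y => -(Real.sin (y 1) / Real.cos (y 1))) (fun _ => 0)
    g ∧ ∀ y ∈ π.VV δ, g y = -(1 / Real.cos (y 1) ^ 2) := by
  have hs := π.VV_sub δ
  have h := ((D2.c1 (U := π.VV δ)).sin.div (D2.c1 (U := π.VV δ)).cos
    (fun y hy => (UU_cos (hs hy)).ne')).neg
  refine ⟨_, h.congr ?_ (fun y _ => rfl), ?_⟩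
  · intro y hy
    ring
  · intro y hy
    have := (UU_cos (hs hy)).ne'
    field_simp
    have h1 := Real.sin_sq_add_cos_sq (y 1)
    linarith

theorem D_w30 : ∃ g, D2 (π.VV δ) (fun y => 1 + π.B0 δ y / π.BB δ y)
    (fun y => π.B00 δ y / π.BB δ y - (π.B0 δ y / π.BB δ y) ^ 2) g := by
  have hs := π.VV_sub δ
  obtain ⟨g, hg⟩ := π.D_B0 hδ
  have h := (D2.const (U := π.VV δ) 1).add ((hg.mono hs).div ((π.D_BB hδ).mono hs)
    (fun y hy => hy.2.2.ne'))
  refine ⟨_, h.congr ?_ (fun y _ => rfl)⟩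
  intro y hy
  have := hy.2.2.ne'
  field_simp
  ring

theorem D_w31 : D2 (π.VV δ) (fun y => Real.cos (y 1) / Real.sin (y 1) + π.B1 δ y / π.BB δ y)
    (fun y => π.B01 δ y / π.BB δ y - π.B0 δ y / π.BB δ y * (π.B1 δ y / π.BB δ y))
    (fun y => -(1 / Real.sin (y 1) ^ 2) + π.B11 δ y / π.BB δ y - (π.B1 δ y / π.BB δ y) ^ 2) := by
  have hs := π.VV_sub δ
  have h := (((D2.c1 (U := π.VV δ)).cos.div (D2.c1 (U := π.VV δ)).sin
    (fun y hy => (UU_sin (hs hy)).ne'))).add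
    (((π.D_B1 hδ).mono hs).div ((π.D_BB hδ).mono hs) (fun y hy => hy.2.2.ne'))
  refine h.congr ?_ ?_
  · intro y hy
    have := hy.2.2.ne'
    field_simp
    ring
  · intro y hy
    have := hy.2.2.ne'
    have h2 := (UU_sin (hs hy)).ne'
    have h1 := Real.sin_sq_add_cos_sq (y 1)
    have h3 : (-Real.sin (y 1) * 1 * Real.sin (y 1) - Real.cos (y 1) * (Real.cos (y 1) * 1)) = -1 := by
      linarith
    rw [h3]
    field_simp
    ring

end Prf

end Pool.Agent.RLim.H58
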